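import Mathlib
import Pool.Agent.LibPH45.Defs
import Pool.Agent.LibFG78.Defs

/-! # Moments of zeta twisted by the phase of an Euler product, full range: definitions -/

set_option autoImplicit false

namespace Pool.Agent.LibPW

open MeasureTheory Filter Topology Pool.Agent.LibMM99 Pool.Agent.LibTG78 Pool.Agent.LibPH45 Pool.Agent.LibFG78
open scoped ComplexConjugate

/-- truncated logarithm of the Euler product over the primes in `(u, v]` -/
noncomputable def AB (u v Y : ℝ) (x : Om) : ℂ := ∑ p ∈ prm u v, La Y p x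

/-- argument of the Euler product over the primes in `(u, v]` -/
noncomputable def XB (u v : ℝ) (x : Om) : ℝ := ∑ p ∈ prm u v, Xp p x

/-- truncated Taylor series of the conjugate phase -/
noncomputable def PB (N : ℕ) (u v Y : ℝ) (x : Om) : ℂ :=
  ∑ n ∈ Finset.range (2 * N), (-(Complex.I * (((AB u v Y x).im : ℝ) : ℂ))) ^ n / (n.factorial : ℂ)

/-- majorant of its error -/
noncomputable def EB (N : ℕ) (u v Y : ℝ) (x : Om) : ℝ :=
  4 * v / Real.sqrt Y + ‖AB u v Y x‖ ^ (2 * N) / ((2 * N).factorial : ℝ)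

/-- Taylor polynomial of the exponential function -/
noncomputable def Ex (n : ℕ) (x : ℝ) : ℝ := ∑ i ∈ Finset.range (n + 1), x ^ i / (i.factorial : ℝ)

/-- polynomial substitute of `e^x`, `r ≥ |x|` -/
noncomputable def Gr (N : ℕ) (x r : ℝ) : ℝ := (1 + (1 / 5) ^ N) * (Ex (2 * N) x + (4 * r / N) ^ (2 * N))

/-- polynomial substitute of the power `β ∈ {-1, 0, 1}` of the absolute value of the Euler product over `(u, v]` -/
noncomputable def GB (β : ℝ) (N : ℕ) (u v Y : ℝ) (x : Om) : ℝ := Gr N (β * (AB u v Y x).re) ‖AB u v Y x‖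

/-- sharp exponent at one prime: `H = Re (b X) + Re (c X^2) + O(C p^{-3/2})`, `‖b‖ ≤ C p^{-1/2}`, `‖c‖ ≤ C / p` -/
structure Gs (C : ℝ) (p : ℕ) (b : ℂ) (H : Om → ℝ) : Prop where
  cont : Continuous H
  dep : DependsOn H ({p} : Set ℕ)
  nb : ‖b‖ ≤ C / Real.sqrt p
  app : ∃ c : ℂ, ‖c‖ ≤ C / p ∧ ∀ x, |H x - (b * ch x p).re - (c * ch x p ^ 2).re| ≤ C / (p * Real.sqrt p)

/-- `∑ 1 / p` over the primes in `(u, v]` -/
noncomputable def Sp (u v : ℝ) : ℝ := ∑ p ∈ prm u v, (p : ℝ)⁻¹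

/-- a chain of `n` blocks `(v i, v (i+1)]`, `v 0 = 1`, with truncation parameters `Y i` and degrees `N i` -/
structure Chain (K : ℝ) (v Y : ℕ → ℝ) (N : ℕ → ℕ) (n : ℕ) : Prop where
  zero : v 0 = 1
  mono : Monotone v
  three : ∀ i < n, 3 ≤ v (i + 1)
  sq : ∀ i < n, v (i + 1) ^ 2 ≤ Y i
  deg : ∀ i < n, K * (1 + Sp (v i) (v (i + 1))) ≤ N i
  trunc : ∀ i < n, 4 * v (i + 1) / Real.sqrt (Y i) ≤ Real.exp (-(N i : ℝ))
  small : ∑ i ∈ Finset.range n, Real.exp (-(N i : ℝ)) ≤ 1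

/-- the approximation of the conjugate phase over all blocks -/
noncomputable def PP (v Y : ℕ → ℝ) (N : ℕ → ℕ) (n : ℕ) (x : Om) : ℂ :=
  ∏ i ∈ Finset.range n, PB (N i) (v i) (v (i + 1)) (Y i) x

/-- majorant of its error -/
noncomputable def EE (v Y : ℕ → ℝ) (N : ℕ → ℕ) (n : ℕ) (x : Om) : ℝ :=
  (∏ i ∈ Finset.range n, (1 + EB (N i) (v i) (v (i + 1)) (Y i) x)) - 1

/-- substitute of the power `β` of the absolute value of the Euler product over all blocks -/
noncomputable def GG (β : ℝ) (v Y : ℕ → ℝ) (N : ℕ → ℕ) (n : ℕ) (x : Om) : ℝ :=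
  ∏ i ∈ Finset.range n, GB β (N i) (v i) (v (i + 1)) (Y i) x

/-- `∑ exp(-N i)` -/
noncomputable def NS (N : ℕ → ℕ) (n : ℕ) : ℝ := ∑ i ∈ Finset.range n, Real.exp (-(N i : ℝ))

end Pool.Agent.LibPW
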