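import Mathlib
import Pool.Agent.LibPW.Defs

/-! ROW 01: Taylor polynomials of exp. `Ex (2N) x > 0`: for `x ≥ 0` it contains the term 1; for `x < 0` Taylor's formula (or: the function
`e^x - Ex n x` has derivative `e^x - Ex (n-1) x` and vanishes at 0: by induction `e^x ≤ Ex (2N) x` and `Ex (2N+1) x ≤ e^x` for `x ≤ 0`).
`Ex_le`: for `x ≥ 0` all terms of the exponential series are positive; for `x ≤ 0`, `Ex (2N) x = Ex (2N+1) x - x^{2N+1}/(2N+1)! ≤
e^x + |x|^{2N+1}/(2N+1)!`. `Ex_ge`: `|e^x - Ex (2N) x| ≤ |x|^{2N+1}/(2N+1)! e^{|x|}` (Mathlib: Real.exp_bound', or the same induction). -/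

set_option autoImplicit false

namespace Pool.Agent.LibPW

theorem pw01_hasDerivAt (n : ℕ) (x : ℝ) : HasDerivAt (Ex (n + 1)) (Ex n x) x := by
  have h : ∀ m ∈ Finset.range (n + 2), HasDerivAt (fun y : ℝ => y ^ m / (m.factorial : ℝ))
      ((m : ℝ) * x ^ (m - 1) / (m.factorial : ℝ)) x := fun m _ => (hasDerivAt_pow m x).div_const _
  have h1 := HasDerivAt.fun_sum h
  have e : Ex n x = ∑ m ∈ Finset.range (n + 2), (m : ℝ) * x ^ (m - 1) / (m.factorial : ℝ) := by
    rw [Finset.sum_range_succ']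
    simp only [Nat.cast_zero, zero_mul, zero_div, add_zero, Nat.add_sub_cancel]
    unfold Ex
    refine Finset.sum_congr rfl fun i _ => ?_
    rw [Nat.factorial_succ]
    push_cast
    have : ((i : ℝ) + 1) ≠ 0 := by positivity
    field_simp
  rw [e]
  exact h1

theorem pw01_zero (n : ℕ) : Ex n 0 = 1 := by
  unfold Ex
  rw [Finset.sum_range_succ']
  simp

theorem pw01_sign (n : ℕ) : ∀ x : ℝ, x ≤ 0 → 0 ≤ (-1 : ℝ) ^ (n + 1) * (Real.exp x - Ex n x) := by
  induction n with
  | zero =>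
    intro x hx
    have h0 : Ex 0 x = 1 := by simp [Ex]
    have h1 : Real.exp x ≤ 1 := Real.exp_le_one_iff.2 hx
    rw [h0, zero_add, pow_one]
    linarith
  | succ n ih =>
    have hd : ∀ x : ℝ, HasDerivAt (fun y => (-1 : ℝ) ^ (n + 1 + 1) * (Real.exp y - Ex (n + 1) y))
        ((-1 : ℝ) ^ (n + 1 + 1) * (Real.exp x - Ex n x)) x := fun x =>
      ((Real.hasDerivAt_exp x).sub (pw01_hasDerivAt n x)).const_mul _
    have hanti : AntitoneOn (fun y => (-1 : ℝ) ^ (n + 1 + 1) * (Real.exp y - Ex (n + 1) y)) (Set.Iic 0) := by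
      refine antitoneOn_of_deriv_nonpos (convex_Iic 0) (fun x _ => (hd x).continuousAt.continuousWithinAt)
        (fun x _ => (hd x).differentiableAt.differentiableWithinAt) fun x hx => ?_
      rw [interior_Iic] at hx
      rw [(hd x).deriv, pow_succ]
      have := ih x (le_of_lt hx)
      linarith
    intro x hx
    have h := hanti (Set.mem_Iic.2 hx) (Set.mem_Iic.2 le_rfl) hx
    simp only [Real.exp_zero, pw01_zero, sub_self, mul_zero] at h
    exact h

theorem pw01_upper (n : ℕ) : ∀ x : ℝ, 0 ≤ x →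
    Real.exp x - Ex n x ≤ Real.exp x * (x ^ (n + 1) / ((n + 1).factorial : ℝ)) := by
  induction n with
  | zero =>
    intro x hx
    have h0 : Ex 0 x = 1 := by simp [Ex]
    rw [h0]
    have h1 := Real.add_one_le_exp (-x)
    have h2 : Real.exp x * (-x + 1) ≤ Real.exp x * Real.exp (-x) :=
      mul_le_mul_of_nonneg_left h1 (Real.exp_pos x).le
    rw [← Real.exp_add, add_neg_cancel, Real.exp_zero] at h2
    simp
    linarith
  | succ n ih =>
    have hd : ∀ x : ℝ, HasDerivAt
        (fun y => Real.exp y * (y ^ (n + 1 + 1) / ((n + 1 + 1).factorial : ℝ)) - (Real.exp y - Ex (n + 1) y))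
        (Real.exp x * (x ^ (n + 1 + 1) / ((n + 1 + 1).factorial : ℝ)) +
          Real.exp x * (((n + 1 + 1 : ℕ) : ℝ) * x ^ (n + 1 + 1 - 1) / ((n + 1 + 1).factorial : ℝ)) -
          (Real.exp x - Ex n x)) x := fun x =>
      ((Real.hasDerivAt_exp x).mul ((hasDerivAt_pow (n + 1 + 1) x).div_const _)).sub
        ((Real.hasDerivAt_exp x).sub (pw01_hasDerivAt n x))
    have hmono : MonotoneOn
        (fun y => Real.exp y * (y ^ (n + 1 + 1) / ((n + 1 + 1).factorial : ℝ)) - (Real.exp y - Ex (n + 1) y))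
        (Set.Ici 0) := by
      refine monotoneOn_of_deriv_nonneg (convex_Ici 0) (fun x _ => (hd x).continuousAt.continuousWithinAt)
        (fun x _ => (hd x).differentiableAt.differentiableWithinAt) fun x hx => ?_
      rw [interior_Ici] at hx
      have hx' : (0 : ℝ) < x := hx
      rw [(hd x).deriv]
      have h1 := ih x hx'.le
      have h2 : ((n + 1 + 1 : ℕ) : ℝ) * x ^ (n + 1 + 1 - 1) / ((n + 1 + 1).factorial : ℝ) =
          x ^ (n + 1) / ((n + 1).factorial : ℝ) := by
        rw [Nat.factorial_succ (n + 1), Nat.add_sub_cancel]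
        push_cast
        have : ((n : ℝ) + 1 + 1) ≠ 0 := by positivity
        field_simp
      rw [h2]
      have h3 : 0 ≤ Real.exp x * (x ^ (n + 1 + 1) / ((n + 1 + 1).factorial : ℝ)) := by positivity
      linarith
    intro x hx
    have h := hmono (Set.mem_Ici.2 le_rfl) (Set.mem_Ici.2 hx) hx
    simp only [Real.exp_zero, pw01_zero, sub_self] at h
    rw [zero_pow (Nat.succ_ne_zero _), zero_div, mul_zero, sub_zero] at h
    linarith

theorem pw01_even {N : ℕ} {x : ℝ} (hx : x ≤ 0) : Real.exp x ≤ Ex (2 * N) x := by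
  have h := pw01_sign (2 * N) x hx
  rw [pow_succ, pow_mul] at h
  norm_num at h
  exact h

theorem pw01_odd {N : ℕ} {x : ℝ} (hx : x ≤ 0) : Ex (2 * N + 1) x ≤ Real.exp x := by
  have h := pw01_sign (2 * N + 1) x hx
  rw [show 2 * N + 1 + 1 = 2 * (N + 1) by ring, pow_mul] at h
  norm_num at h
  exact h

theorem Ex_pos (N : ℕ) (x : ℝ) : 0 < Ex (2 * N) x := by
  rcases le_total x 0 with hx | hx
  · exact lt_of_lt_of_le (Real.exp_pos x) (pw01_even hx)
  · unfold Ex
    rw [Finset.sum_range_succ']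
    have h : 0 ≤ ∑ k ∈ Finset.range (2 * N), x ^ (k + 1) / ((k + 1).factorial : ℝ) :=
      Finset.sum_nonneg fun i _ => by positivity
    simp only [pow_zero, Nat.factorial_zero, Nat.cast_one, div_one]
    linarith

theorem Ex_le (N : ℕ) (x : ℝ) : Ex (2 * N) x ≤ Real.exp x + |x| ^ (2 * N + 1) / ((2 * N + 1).factorial : ℝ) := by
  rcases le_total x 0 with hx | hx
  · have h1 := pw01_odd (N := N) hx
    have h2 : Ex (2 * N + 1) x = Ex (2 * N) x + x ^ (2 * N + 1) / ((2 * N + 1).factorial : ℝ) := by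
      unfold Ex
      rw [Finset.sum_range_succ]
    have h3 : |x| ^ (2 * N + 1) = - x ^ (2 * N + 1) := by
      rw [abs_of_nonpos hx, Odd.neg_pow ⟨N, rfl⟩]
    rw [h3, neg_div]
    linarith
  · have h1 : Ex (2 * N) x ≤ Real.exp x := Real.sum_le_exp_of_nonneg hx _
    have h2 : 0 ≤ |x| ^ (2 * N + 1) / ((2 * N + 1).factorial : ℝ) := by positivity
    linarith

theorem Ex_ge (N : ℕ) (x : ℝ) :
    Real.exp x - Real.exp |x| * (|x| ^ (2 * N + 1) / ((2 * N + 1).factorial : ℝ)) ≤ Ex (2 * N) x := by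
  rcases le_total x 0 with hx | hx
  · have h1 := pw01_even (N := N) hx
    have h2 : 0 ≤ Real.exp |x| * (|x| ^ (2 * N + 1) / ((2 * N + 1).factorial : ℝ)) := by positivity
    linarith
  · have h1 := pw01_upper (2 * N) x hx
    rw [abs_of_nonneg hx]
    linarith

end Pool.Agent.LibPW
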