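import Mathlib
import Pool.Agent.LibPW.PW_01

/-! ROW 02. `Gr_mul`: if `r ≥ N/4` both brackets are at least `(4r/N)^{2N} ≥ 1` (Ex_pos). If `r ≤ N/4`: `|x| ≤ N/4`, by Ex_ge
`Ex (2N) (±x) ≥ e^{±x} (1 - e^{2|x|} |x|^{2N+1}/(2N+1)!)` and with `n! ≥ (n/e)^n`:
`e^{N/2} (N/4)^{2N+1} (e/(2N+1))^{2N+1} ≤ e^{N/2} (e/8)^{2N+1} ≤ (1/2) (1/5)^N` (`e^{1/2} (e/8)^2 = 0.1903.. < 1/5`, `e/8 < 1/2`), so the
product is at least `(1 + q)^2 (1 - q/2)^2 ≥ 1`, `q = (1/5)^N ≤ 1/5`.
`Gr_le`: Ex_le and, for `c = 22`: `r^n / n! ≤ c^{-n} e^{c r}` (one term of the exponential series) with `n = 2N+1` resp. `n = 2N`,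
`(4/N)^{2N} (2N)! ≤ (4/N)^{2N} (2N)^{2N} = 8^{2N}`, `(8/22)^{2N} ≤ e^{-2N}`, `22^{-(2N+1)} ≤ e^{-2N}`. -/

set_option autoImplicit false

namespace Pool.Agent.LibPW

theorem pw02_exp_one : Real.exp 1 < 2.7182818286 := Real.exp_one_lt_d9

theorem pw02_nonneg (N : ℕ) (r : ℝ) : 0 ≤ (4 * r / N) ^ (2 * N) := by
  rw [pow_mul]
  positivity

theorem Gr_nonneg {N : ℕ} (x : ℝ) {r : ℝ} (hr : 0 ≤ r) : 0 ≤ Gr N x r := by
  unfold Gr
  have h1 := Ex_pos N x
  have h2 := pw02_nonneg N r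
  positivity

/-- the error term for `|x| ≤ N/4` -/
theorem pw02_small {N : ℕ} {x : ℝ} (hx : |x| ≤ N / 4) :
    Real.exp (2 * |x|) * (|x| ^ (2 * N + 1) / ((2 * N + 1).factorial : ℝ)) ≤ 1 / 2 * (1 / 5) ^ N := by
  have he := pw02_exp_one
  have he0 := Real.exp_pos 1
  set m := 2 * N + 1 with hm
  have hf : (0 : ℝ) < (m.factorial : ℝ) := by exact_mod_cast Nat.factorial_pos m
  have h1 : |x| ≤ (m : ℝ) / 8 := by
    rw [hm]
    push_cast
    linarith
  have h2 : |x| ^ m / (m.factorial : ℝ) ≤ (Real.exp 1 / 8) ^ m := by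
    have h3 : |x| ^ m ≤ ((m : ℝ) / 8) ^ m := pow_le_pow_left₀ (abs_nonneg x) h1 m
    have h4 : (m : ℝ) ^ m / (m.factorial : ℝ) ≤ Real.exp m := Real.pow_div_factorial_le_exp _ (by positivity) m
    have h5 : Real.exp m = Real.exp 1 ^ m := by rw [← Real.exp_nat_mul, mul_one]
    calc |x| ^ m / (m.factorial : ℝ) ≤ ((m : ℝ) / 8) ^ m / (m.factorial : ℝ) :=
          div_le_div_of_nonneg_right h3 hf.le
      _ = (m : ℝ) ^ m / (m.factorial : ℝ) * (1 / 8) ^ m := by
          rw [div_pow, div_pow, one_pow]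
          ring
      _ ≤ Real.exp 1 ^ m * (1 / 8) ^ m := by
          rw [← h5]
          exact mul_le_mul_of_nonneg_right h4 (by positivity)
      _ = (Real.exp 1 / 8) ^ m := by rw [← mul_pow, mul_one_div]
  have h3 : Real.exp (2 * |x|) ≤ Real.exp (1 / 2) ^ N := by
    rw [← Real.exp_nat_mul]
    refine Real.exp_le_exp.2 ?_
    linarith
  have h4 : Real.exp (1 / 2) * (Real.exp 1 / 8) ^ 2 ≤ 1 / 5 := by
    have h5 : Real.exp (1 / 2) ^ 2 = Real.exp 1 := by
      rw [← Real.exp_nat_mul]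
      norm_num
    have h6 : Real.exp (1 / 2) < 1.6488 := by
      by_contra hcon
      rw [not_lt] at hcon
      have : (1.6488 : ℝ) ^ 2 ≤ Real.exp (1 / 2) ^ 2 := pow_le_pow_left₀ (by norm_num) hcon 2
      rw [h5] at this
      norm_num at this he
      linarith
    have h7 : (Real.exp 1 / 8) ^ 2 ≤ 0.1155 := by
      have : (Real.exp 1 / 8) ^ 2 ≤ (2.7182818286 / 8) ^ 2 :=
        pow_le_pow_left₀ (by positivity) (by linarith) 2
      norm_num at this ⊢
      linarith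
    calc Real.exp (1 / 2) * (Real.exp 1 / 8) ^ 2 ≤ 1.6488 * 0.1155 :=
          mul_le_mul h6.le h7 (by positivity) (by norm_num)
      _ ≤ 1 / 5 := by norm_num
  calc Real.exp (2 * |x|) * (|x| ^ m / (m.factorial : ℝ))
      ≤ Real.exp (1 / 2) ^ N * (Real.exp 1 / 8) ^ m :=
        mul_le_mul h3 h2 (by positivity) (by positivity)
    _ = (Real.exp (1 / 2) * (Real.exp 1 / 8) ^ 2) ^ N * (Real.exp 1 / 8) := by
        rw [mul_pow, ← pow_mul, hm, pow_succ (Real.exp 1 / 8) (2 * N)]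
        ring
    _ ≤ (1 / 5) ^ N * (1 / 2) := by
        refine mul_le_mul (pow_le_pow_left₀ (by positivity) h4 N) ?_ (by positivity) (by positivity)
        norm_num at he ⊢
        linarith
    _ = 1 / 2 * (1 / 5) ^ N := by ring

theorem pw02_ge {N : ℕ} {x : ℝ} (hx : |x| ≤ N / 4) :
    Real.exp x * (1 - 1 / 2 * (1 / 5) ^ N) ≤ Ex (2 * N) x := by
  have h1 := Ex_ge N x
  have h2 := pw02_small hx
  have h3 : Real.exp |x| ≤ Real.exp x * Real.exp (2 * |x|) := by
    rw [← Real.exp_add]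
    refine Real.exp_le_exp.2 ?_
    have := neg_abs_le x
    linarith
  have h4 : 0 ≤ |x| ^ (2 * N + 1) / ((2 * N + 1).factorial : ℝ) := by positivity
  have h5 := mul_le_mul_of_nonneg_right h3 h4
  have h6 := mul_le_mul_of_nonneg_left h2 (Real.exp_pos x).le
  rw [mul_assoc] at h5
  rw [mul_sub, mul_one]
  linarith

/-- the product of the substitutes of `e^x` and `e^{-x}` is at least 1 -/
theorem Gr_mul {N : ℕ} (hN : 1 ≤ N) {x r : ℝ} (hx : |x| ≤ r) : 1 ≤ Gr N x r * Gr N (-x) r := by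
  have hN0 : (0 : ℝ) < N := by exact_mod_cast hN
  have hr : 0 ≤ r := (abs_nonneg x).trans hx
  have hq : (0 : ℝ) < (1 / 5) ^ N := by positivity
  have hq1 : ((1 : ℝ) / 5) ^ N ≤ 1 := pow_le_one₀ (by norm_num) (by norm_num)
  rcases le_total ((N : ℝ) / 4) r with h | h
  · have h1 : 1 ≤ 4 * r / N := by
      rw [le_div_iff₀ hN0]
      linarith
    have h2 : 1 ≤ (4 * r / N) ^ (2 * N) := one_le_pow₀ h1
    have h3 : ∀ y : ℝ, 1 ≤ Gr N y r := fun y => by
      unfold Gr
      have := Ex_pos N y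
      nlinarith
    have := h3 x
    have := h3 (-x)
    nlinarith
  · have h1 := pw02_ge (hx.trans h)
    have h2 := pw02_ge (N := N) (x := -x) (by rw [abs_neg]; exact hx.trans h)
    set q := ((1 : ℝ) / 5) ^ N with hqdef
    have h3 : ∀ y : ℝ, (1 + q) * Ex (2 * N) y ≤ Gr N y r := fun y => by
      unfold Gr
      have := pw02_nonneg N r
      rw [← hqdef]
      nlinarith
    have h4 : 0 ≤ Real.exp x * (1 - 1 / 2 * q) := mul_nonneg (Real.exp_pos x).le (by linarith)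
    have h4' : 0 ≤ Real.exp (-x) * (1 - 1 / 2 * q) := mul_nonneg (Real.exp_pos (-x)).le (by linarith)
    have h5 : (1 + q) * (Real.exp x * (1 - 1 / 2 * q)) ≤ Gr N x r :=
      le_trans (mul_le_mul_of_nonneg_left h1 (by linarith)) (h3 x)
    have h6 : (1 + q) * (Real.exp (-x) * (1 - 1 / 2 * q)) ≤ Gr N (-x) r :=
      le_trans (mul_le_mul_of_nonneg_left h2 (by linarith)) (h3 (-x))
    have h7 : (1 + q) * (Real.exp x * (1 - 1 / 2 * q)) * ((1 + q) * (Real.exp (-x) * (1 - 1 / 2 * q))) ≤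
        Gr N x r * Gr N (-x) r :=
      mul_le_mul h5 h6 (by positivity) (le_trans (by positivity) h5)
    have h8 : Real.exp x * Real.exp (-x) = 1 := by rw [← Real.exp_add, add_neg_cancel, Real.exp_zero]
    have h9 : (1 + q) * (Real.exp x * (1 - 1 / 2 * q)) * ((1 + q) * (Real.exp (-x) * (1 - 1 / 2 * q))) =
        ((1 + q) * (1 - 1 / 2 * q)) ^ 2 := by
      calc _ = ((1 + q) * (1 - 1 / 2 * q)) ^ 2 * (Real.exp x * Real.exp (-x)) := by ring
        _ = _ := by rw [h8, mul_one]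
    rw [h9] at h7
    have h10 : 1 ≤ (1 + q) * (1 - 1 / 2 * q) := by nlinarith
    nlinarith

theorem Gr_le {N : ℕ} (hN : 1 ≤ N) {x r : ℝ} (hx : |x| ≤ r) :
    Gr N x r ≤ (1 + (1 / 5) ^ N) * (Real.exp x + 2 * Real.exp (-(2 * N)) * Real.exp (22 * r)) := by
  have hN0 : (0 : ℝ) < N := by exact_mod_cast hN
  have hr : 0 ≤ r := (abs_nonneg x).trans hx
  have he := pw02_exp_one
  have he0 := Real.exp_pos 1
  unfold Gr
  refine mul_le_mul_of_nonneg_left ?_ (by positivity)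
  have key : ∀ m : ℕ, r ^ m / (m.factorial : ℝ) ≤ (1 / 22) ^ m * Real.exp (22 * r) := fun m => by
    have h1 := Real.pow_div_factorial_le_exp (22 * r) (by positivity) m
    have h2 : r ^ m / (m.factorial : ℝ) = (1 / 22) ^ m * ((22 * r) ^ m / (m.factorial : ℝ)) := by
      rw [← mul_div_assoc, ← mul_pow]
      congr 2
      ring
    rw [h2]
    exact mul_le_mul_of_nonneg_left h1 (by positivity)
  have hexp : Real.exp (-(2 * (N : ℝ))) = (1 / Real.exp 1) ^ (2 * N) := by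
    rw [one_div, ← Real.exp_neg, ← Real.exp_nat_mul]
    congr 1
    push_cast
    ring
  -- the first term
  have h1 : |x| ^ (2 * N + 1) / ((2 * N + 1).factorial : ℝ) ≤ Real.exp (-(2 * N)) * Real.exp (22 * r) := by
    have h2 : |x| ^ (2 * N + 1) / ((2 * N + 1).factorial : ℝ) ≤ r ^ (2 * N + 1) / ((2 * N + 1).factorial : ℝ) :=
      div_le_div_of_nonneg_right (pow_le_pow_left₀ (abs_nonneg x) hx _) (by positivity)
    refine h2.trans ((key _).trans ?_)
    refine mul_le_mul_of_nonneg_right ?_ (Real.exp_pos _).le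
    rw [hexp, pow_succ]
    have h3 : ((1 : ℝ) / 22) ^ (2 * N) ≤ (1 / Real.exp 1) ^ (2 * N) := by
      refine pow_le_pow_left₀ (by norm_num) ?_ _
      refine one_div_le_one_div_of_le he0 ?_
      norm_num at he ⊢
      linarith
    have h4 : (0 : ℝ) ≤ (1 / 22) ^ (2 * N) := by positivity
    linarith
  -- the second term
  have h2 : (4 * r / N) ^ (2 * N) ≤ Real.exp (-(2 * N)) * Real.exp (22 * r) := by
    have hf : (0 : ℝ) < ((2 * N).factorial : ℝ) := by exact_mod_cast Nat.factorial_pos _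
    have h3 : (4 * r / N) ^ (2 * N) = (4 / N) ^ (2 * N) * ((2 * N).factorial : ℝ) *
        (r ^ (2 * N) / ((2 * N).factorial : ℝ)) := by
      have : (4 * r / N : ℝ) = 4 / N * r := by ring
      rw [this, mul_pow]
      field_simp
    have h4 : (4 / (N : ℝ)) ^ (2 * N) * ((2 * N).factorial : ℝ) ≤ 8 ^ (2 * N) := by
      have h5 : ((2 * N).factorial : ℝ) ≤ (2 * (N : ℝ)) ^ (2 * N) := by
        have := Nat.factorial_le_pow (2 * N)
        exact_mod_cast this
      calc (4 / (N : ℝ)) ^ (2 * N) * ((2 * N).factorial : ℝ) ≤ (4 / (N : ℝ)) ^ (2 * N) * (2 * (N : ℝ)) ^ (2 * N) :=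
            mul_le_mul_of_nonneg_left h5 (by positivity)
        _ = 8 ^ (2 * N) := by
            rw [← mul_pow]
            congr 1
            field_simp
            norm_num
    rw [h3]
    calc (4 / (N : ℝ)) ^ (2 * N) * ((2 * N).factorial : ℝ) * (r ^ (2 * N) / ((2 * N).factorial : ℝ))
        ≤ 8 ^ (2 * N) * ((1 / 22) ^ (2 * N) * Real.exp (22 * r)) :=
          mul_le_mul h4 (key _) (by positivity) (by positivity)
      _ = (8 / 22) ^ (2 * N) * Real.exp (22 * r) := by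
          rw [← mul_assoc, ← mul_pow]
          norm_num
      _ ≤ Real.exp (-(2 * N)) * Real.exp (22 * r) := by
          refine mul_le_mul_of_nonneg_right ?_ (Real.exp_pos _).le
          rw [hexp]
          refine pow_le_pow_left₀ (by norm_num) ?_ _
          rw [le_div_iff₀ he0]
          norm_num at he ⊢
          linarith
  have h3 := Ex_le N x
  linarith

theorem one_le_Gr_zero (N : ℕ) {r : ℝ} (hr : 0 ≤ r) : 1 ≤ Gr N 0 r := by
  unfold Gr
  rw [pw01_zero]
  have h1 := pw02_nonneg N r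
  have h2 : (0 : ℝ) < (1 / 5) ^ N := by positivity
  nlinarith

end Pool.Agent.LibPW
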