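import Mathlib
import Pool.Agent.LibPW.Defs
import Pool.Agent.LibPH45.PH_06

/-! ROW 03: algebra of sharp exponents (as PH_06, `Gd.add`, `Gd.smul`, `Gd.mono`). -/

set_option autoImplicit false

namespace Pool.Agent.LibPW

open MeasureTheory Filter Topology Pool.Agent.LibMM99 Pool.Agent.LibTG78 Pool.Agent.LibPH45
open scoped ComplexConjugate

theorem Gs.add {C C' : ℝ} {p : ℕ} {b b' : ℂ} {H H' : Om → ℝ} (h : Gs C p b H) (h' : Gs C' p b' H') :
    Gs (C + C') p (b + b') (fun x => H x + H' x) := by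
  obtain ⟨c, hc, hcx⟩ := h.app
  obtain ⟨c', hc', hcx'⟩ := h'.app
  refine ⟨h.cont.add h'.cont, fun x y hxy => ?_, ?_, c + c', ?_, fun x => ?_⟩
  · have e1 := h.dep hxy
    have e2 := h'.dep hxy
    simp only [e1, e2]
  · rw [add_div]
    exact (norm_add_le _ _).trans (add_le_add h.nb h'.nb)
  · rw [add_div]
    exact (norm_add_le _ _).trans (add_le_add hc hc')
  · have e : H x + H' x - ((b + b') * ch x p).re - ((c + c') * ch x p ^ 2).re =
        (H x - (b * ch x p).re - (c * ch x p ^ 2).re) +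
          (H' x - (b' * ch x p).re - (c' * ch x p ^ 2).re) := by
      rw [add_mul, add_mul, Complex.add_re, Complex.add_re]
      ring
    rw [e, add_div]
    exact (abs_add_le _ _).trans (add_le_add (hcx x) (hcx' x))

theorem Gs.smul {C : ℝ} {p : ℕ} {b : ℂ} {H : Om → ℝ} (h : Gs C p b H) (c : ℝ) :
    Gs (|c| * C) p (c * b) (fun x => c * H x) := by
  obtain ⟨d, hd, hdx⟩ := h.app
  refine ⟨continuous_const.mul h.cont, fun x y hxy => ?_, ?_, (c : ℂ) * d, ?_, fun x => ?_⟩
  · have e1 := h.dep hxy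
    simp only [e1]
  · rw [norm_mul, Complex.norm_real, Real.norm_eq_abs, mul_div_assoc]
    exact mul_le_mul_of_nonneg_left h.nb (abs_nonneg c)
  · rw [norm_mul, Complex.norm_real, Real.norm_eq_abs, mul_div_assoc]
    exact mul_le_mul_of_nonneg_left hd (abs_nonneg c)
  · have e : c * H x - ((c : ℂ) * b * ch x p).re - ((c : ℂ) * d * ch x p ^ 2).re =
        c * (H x - (b * ch x p).re - (d * ch x p ^ 2).re) := by
      rw [mul_assoc (c : ℂ) b, mul_assoc (c : ℂ) d, Complex.re_ofReal_mul, Complex.re_ofReal_mul]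
      ring
    rw [e, abs_mul, mul_div_assoc]
    exact mul_le_mul_of_nonneg_left (hdx x) (abs_nonneg c)

theorem Gs.mono {C C' : ℝ} {p : ℕ} {b : ℂ} {H : Om → ℝ} (h : Gs C p b H) (hC : C ≤ C') : Gs C' p b H := by
  obtain ⟨c, hc, hcx⟩ := h.app
  exact ⟨h.cont, h.dep, h.nb.trans (div_le_div_of_nonneg_right hC (Real.sqrt_nonneg _)), c,
    hc.trans (div_le_div_of_nonneg_right hC (Nat.cast_nonneg _)),
    fun x => (hcx x).trans (div_le_div_of_nonneg_right hC
      (mul_nonneg (Nat.cast_nonneg _) (Real.sqrt_nonneg _)))⟩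

theorem Gs.zero {C : ℝ} (hC : 0 ≤ C) {p : ℕ} (hp : p.Prime) : Gs C p 0 (fun _ => 0) := by
  refine ⟨continuous_const, fun x y _ => rfl, ?_, 0, ?_, fun x => ?_⟩
  · rw [norm_zero]
    exact div_nonneg hC (Real.sqrt_nonneg _)
  · rw [norm_zero]
    exact div_nonneg hC (Nat.cast_nonneg _)
  · have e : (0 : ℝ) - ((0 : ℂ) * ch x p).re - ((0 : ℂ) * ch x p ^ 2).re = 0 := by simp
    rw [e, abs_zero]
    exact div_nonneg hC (mul_nonneg (Nat.cast_nonneg _) (Real.sqrt_nonneg _))

end Pool.Agent.LibPW
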