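import Mathlib
import Pool.Agent.LibPW.Defs
import Pool.Agent.LibPW.PW_03
import Pool.Agent.LibTG78.C1a

/-! ROW 04: the local integral. `|H| ≤ 3C/√p`, `e^H ≤ 1 + H + H²/2 + |H|³ e^{|H|}`; `∫ Re(b X) = ∫ Re(c X²) = 0`,
`∫ (Re (b X))² = ‖b‖²/2` (`ch x p` has mean 0, its square has mean 0: C1a.c1a_ch), so
`∫ e^H ≤ 1 + C/(p√p) + ‖b‖²/4 + C'/(p√p) ≤ exp(‖b‖²/4 + K/(p√p))`. (`H² ≤ (Re bX)² + 2 |Re bX| |H - Re bX| + |H - Re bX|²`,
`|H - Re bX| ≤ 2C/p`.) -/

set_option autoImplicit false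

namespace Pool.Agent.LibPW

open MeasureTheory Filter Topology Pool.Agent.LibMM99 Pool.Agent.LibTG78 Pool.Agent.LibPH45
open scoped ComplexConjugate

theorem pw04_exp (h : ℝ) : Real.exp h ≤ 1 + h + h ^ 2 / 2 + |h| ^ 3 * Real.exp |h| := by
  have h1 := Complex.norm_exp_sub_sum_le_norm_mul_exp (h : ℂ) 3
  have h2 : Complex.exp (h : ℂ) - ∑ m ∈ Finset.range 3, (h : ℂ) ^ m / (m.factorial : ℂ) =
      ((Real.exp h - (1 + h + h ^ 2 / 2) : ℝ) : ℂ) := by
    simp only [Finset.sum_range_succ, Finset.sum_range_zero]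
    push_cast
    norm_num [Nat.factorial]
  rw [h2, Complex.norm_real, Complex.norm_real, Real.norm_eq_abs, Real.norm_eq_abs] at h1
  have h3 := le_abs_self (Real.exp h - (1 + h + h ^ 2 / 2))
  linarith

theorem pw04_zero {p : ℕ} (hp : p.Prime) (a : ℂ) {m : ℕ} (hm : m ≠ 0) :
    ∫ x, (a * ch x p ^ m).re ∂mu = 0 := by
  have h1 := c1a_ch hp m
  rw [if_neg hm] at h1
  have h2 : ∫ x, a * ch x p ^ m ∂mu = 0 := by rw [integral_const_mul, h1, mul_zero]
  have h3 : ∫ x, (a * ch x p ^ m).re ∂mu = (∫ x, a * ch x p ^ m ∂mu).re :=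
    integral_re (𝕜 := ℂ) (f := fun x => a * ch x p ^ m) (μ := mu)
      (integrable_of_continuous (continuous_const.mul ((continuous_ch p).pow m)))
  rw [h3, h2, Complex.zero_re]

theorem pw04_sq (z b : ℂ) (hz : ‖z‖ = 1) :
    (b * z).re ^ 2 = ‖b‖ ^ 2 / 2 + (b ^ 2 * z ^ 2).re / 2 := by
  have h1 : (b * z).re ^ 2 + (b * z).im ^ 2 = ‖b‖ ^ 2 := by
    have h2 : ‖b * z‖ ^ 2 = ‖b‖ ^ 2 := by rw [norm_mul, hz, mul_one]
    rw [← h2, Complex.sq_norm, Complex.normSq_apply]
    ring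
  have h3 : (b ^ 2 * z ^ 2).re = (b * z).re ^ 2 - (b * z).im ^ 2 := by
    rw [← mul_pow, sq, Complex.mul_re]
    ring
  linarith

theorem Gs.int {C : ℝ} (hC : 0 ≤ C) : ∃ K : ℝ, 1 ≤ K ∧ ∀ (p : ℕ) (b : ℂ) (H : Om → ℝ), p.Prime → Gs C p b H →
    ∫ x, Real.exp (H x) ∂mu ≤ Real.exp (‖b‖ ^ 2 / 4 + K / (p * Real.sqrt p)) := by
  refine ⟨1 + C + 4 * C ^ 2 + 27 * C ^ 3 * Real.exp (3 * C), ?_, ?_⟩
  · have : 0 ≤ C + 4 * C ^ 2 + 27 * C ^ 3 * Real.exp (3 * C) := by positivity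
    linarith
  intro p b H hp h
  obtain ⟨c, hc, happ⟩ := h.app
  have hp1 : (1 : ℝ) ≤ p := by exact_mod_cast hp.one_lt.le
  have hs1 : 1 ≤ Real.sqrt p := by rw [Real.one_le_sqrt]; exact hp1
  have hss : Real.sqrt p * Real.sqrt p = p := Real.mul_self_sqrt (by linarith)
  set s := Real.sqrt p with hs
  have hs0 : 0 < s := by linarith
  have hp0 : (0 : ℝ) < p := by linarith
  have hsp : s ≤ p := by nlinarith
  set q : ℝ := ((p : ℝ) * s)⁻¹ with hq
  have hq0 : 0 ≤ q := by positivity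
  -- elementary sizes
  have e1 : 1 / (p : ℝ) ≤ 1 / s := one_div_le_one_div_of_le hs0 hsp
  have e2 : 1 / ((p : ℝ) * s) ≤ 1 / s := one_div_le_one_div_of_le hs0 (by nlinarith)
  have e3 : 1 / s * (1 / (p : ℝ)) = q := by rw [hq]; field_simp
  have e4 : 1 / (p : ℝ) * (1 / (p : ℝ)) ≤ q := by
    rw [← e3]
    exact mul_le_mul_of_nonneg_right e1 (by positivity)
  have e5 : (1 / s) ^ 3 = q := by
    rw [← e3, ← hss]
    field_simp
  -- bounds of the three parts
  set v : Om → ℝ := fun x => (b * ch x p).re with hv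
  set u : Om → ℝ := fun x => (c * ch x p ^ 2).re with hu
  have hvn : ∀ x, |v x| ≤ C * (1 / s) := fun x => by
    refine (Complex.abs_re_le_norm _).trans ?_
    rw [norm_mul, norm_ch, mul_one, mul_one_div]
    exact h.nb
  have hun : ∀ x, |u x| ≤ C * (1 / p) := fun x => by
    refine (Complex.abs_re_le_norm _).trans ?_
    rw [norm_mul, norm_pow, norm_ch, one_pow, mul_one, mul_one_div]
    exact hc
  have hR : ∀ x, |H x - v x - u x| ≤ C * q := fun x => by
    refine (happ x).trans (le_of_eq ?_)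
    rw [hq, div_eq_mul_inv]
  have hqp : q ≤ 1 / (p : ℝ) := by
    rw [hq, ← one_div]
    exact one_div_le_one_div_of_le hp0 (by nlinarith)
  have hHv : ∀ x, |H x - v x| ≤ 2 * C * (1 / p) := fun x => by
    have h1 : H x - v x = (H x - v x - u x) + u x := by ring
    rw [h1]
    refine (abs_add_le _ _).trans ?_
    have h2 := hR x
    have h3 := hun x
    have h4 := mul_le_mul_of_nonneg_left hqp hC
    linarith
  have hH : ∀ x, |H x| ≤ 3 * C * (1 / s) := fun x => by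
    have h1 : H x = (H x - v x) + v x := by ring
    rw [h1]
    refine (abs_add_le _ _).trans ?_
    have h2 := hHv x
    have h3 := hvn x
    have h4 := mul_le_mul_of_nonneg_left e1 (mul_nonneg zero_le_two hC)
    linarith
  have hH3 : ∀ x, |H x| ≤ 3 * C := fun x => by
    refine (hH x).trans ?_
    have h1 : 1 / s ≤ 1 := by
      rw [div_le_one hs0]
      exact hs1
    nlinarith
  have hcube : ∀ x, |H x| ^ 3 * Real.exp |H x| ≤ 27 * C ^ 3 * Real.exp (3 * C) * q := fun x => by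
    have h1 : |H x| ^ 3 ≤ (3 * C * (1 / s)) ^ 3 := pow_le_pow_left₀ (abs_nonneg _) (hH x) 3
    have h2 : (3 * C * (1 / s)) ^ 3 = 27 * C ^ 3 * q := by
      rw [mul_pow, e5]
      ring
    rw [h2] at h1
    calc |H x| ^ 3 * Real.exp |H x| ≤ 27 * C ^ 3 * q * Real.exp (3 * C) :=
          mul_le_mul h1 (Real.exp_le_exp.2 (hH3 x)) (Real.exp_pos _).le (by positivity)
      _ = _ := by ring
  have hsq : ∀ x, H x ^ 2 ≤ v x ^ 2 + 8 * C ^ 2 * q := fun x => by
    have h1 : H x ^ 2 = v x ^ 2 + 2 * (v x * (H x - v x)) + (H x - v x) ^ 2 := by ring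
    have h2 : v x * (H x - v x) ≤ 2 * C ^ 2 * q := by
      calc v x * (H x - v x) ≤ |v x * (H x - v x)| := le_abs_self _
        _ = |v x| * |H x - v x| := abs_mul _ _
        _ ≤ (C * (1 / s)) * (2 * C * (1 / p)) :=
            mul_le_mul (hvn x) (hHv x) (abs_nonneg _) (by positivity)
        _ = 2 * C ^ 2 * (1 / s * (1 / p)) := by ring
        _ = 2 * C ^ 2 * q := by rw [e3]
    have h3 : (H x - v x) ^ 2 ≤ 4 * C ^ 2 * q := by
      rw [← sq_abs]
      calc |H x - v x| ^ 2 ≤ (2 * C * (1 / p)) ^ 2 := pow_le_pow_left₀ (abs_nonneg _) (hHv x) 2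
        _ = 4 * C ^ 2 * (1 / p * (1 / p)) := by ring
        _ ≤ 4 * C ^ 2 * q := mul_le_mul_of_nonneg_left e4 (by positivity)
    rw [h1]
    linarith
  -- pointwise inequality
  set K : ℝ := 1 + C + 4 * C ^ 2 + 27 * C ^ 3 * Real.exp (3 * C) with hK
  have hpt : ∀ x, Real.exp (H x) ≤ (1 + (‖b‖ ^ 2 / 4 + K * q)) + (v x + u x +
      (b ^ 2 / 4 * ch x p ^ 2).re) := by
    intro x
    have h1 := pw04_exp (H x)
    have h2 := hcube x
    have h3 := hsq x
    have h4 : v x ^ 2 = ‖b‖ ^ 2 / 2 + (b ^ 2 * ch x p ^ 2).re / 2 := pw04_sq _ _ (norm_ch x p)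
    have h5 := (abs_le.1 (hR x)).2
    have h6 : (b ^ 2 / 4 * ch x p ^ 2).re = (b ^ 2 * ch x p ^ 2).re / 4 := by
      have h7 : b ^ 2 / 4 * ch x p ^ 2 = ((1 / 4 : ℝ) : ℂ) * (b ^ 2 * ch x p ^ 2) := by
        push_cast
        ring
      rw [h7, Complex.re_ofReal_mul]
      ring
    rw [h6]
    have h8 : K * q = q + C * q + 4 * C ^ 2 * q + 27 * C ^ 3 * Real.exp (3 * C) * q := by
      rw [hK]
      ring
    rw [h8]
    linarith
  have cv : Continuous v := Complex.continuous_re.comp (continuous_const.mul (continuous_ch p))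
  have cu : Continuous u :=
    Complex.continuous_re.comp (continuous_const.mul ((continuous_ch p).pow 2))
  have cb : Continuous fun x : Om => (b ^ 2 / 4 * ch x p ^ 2).re :=
    Complex.continuous_re.comp (continuous_const.mul ((continuous_ch p).pow 2))
  have hc3 : Continuous fun x : Om => Real.exp (H x) := Real.continuous_exp.comp h.cont
  have c4 : Continuous fun x : Om => (1 + (‖b‖ ^ 2 / 4 + K * q)) + (v x + u x +
      (b ^ 2 / 4 * ch x p ^ 2).re) := continuous_const.add ((cv.add cu).add cb)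
  have i1 : ∫ x, v x ∂mu = 0 := by
    have h1 := pw04_zero hp b one_ne_zero
    simp only [pow_one] at h1
    exact h1
  have i2 : ∫ x, u x ∂mu = 0 := pw04_zero hp c two_ne_zero
  have i3 : ∫ x, (b ^ 2 / 4 * ch x p ^ 2).re ∂mu = 0 := pw04_zero hp (b ^ 2 / 4) two_ne_zero
  refine (integral_mono (integrable_of_continuous hc3) (integrable_of_continuous c4) hpt).trans ?_
  have j1 : ∫ x, (v x + u x) ∂mu = 0 := by
    rw [integral_add (integrable_of_continuous cv) (integrable_of_continuous cu), i1, i2, add_zero]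
  have j2 : ∫ x, (v x + u x + (b ^ 2 / 4 * ch x p ^ 2).re) ∂mu = 0 := by
    rw [integral_add (f := fun x => v x + u x) (integrable_of_continuous (cv.add cu))
      (integrable_of_continuous cb), j1, i3, add_zero]
  have j3 : ∫ x, ((1 + (‖b‖ ^ 2 / 4 + K * q)) + (v x + u x +
      (b ^ 2 / 4 * ch x p ^ 2).re)) ∂mu = 1 + (‖b‖ ^ 2 / 4 + K * q) := by
    have c5 : Continuous fun x : Om => v x + u x + (b ^ 2 / 4 * ch x p ^ 2).re :=
      (cv.add cu).add cb
    have j4 := integral_add (μ := mu) (f := fun _ : Om => 1 + (‖b‖ ^ 2 / 4 + K * q))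
      (g := fun x : Om => v x + u x + (b ^ 2 / 4 * ch x p ^ 2).re) (integrable_const _)
      (integrable_of_continuous c5)
    refine j4.trans ?_
    rw [j2, integral_const]
    simp only [probReal_univ, one_smul, add_zero]
  rw [j3]
  have h9 := Real.add_one_le_exp (‖b‖ ^ 2 / 4 + K * q)
  have h10 : K / ((p : ℝ) * s) = K * q := by rw [hq, div_eq_mul_inv]
  rw [h10]
  linarith

end Pool.Agent.LibPW
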