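import Mathlib
import Pool.Agent.LibPW.PW_04

/-! ROW 05: the product over a block (B03_prod of LibTG78, as in PH_07 `GdL_prod`). -/

set_option autoImplicit false

namespace Pool.Agent.LibPW

open MeasureTheory Filter Topology Pool.Agent.LibMM99 Pool.Agent.LibTG78 Pool.Agent.LibPH45
open scoped ComplexConjugate

/-- `∑ p^{-3/2}` -/
noncomputable def Sq (u v : ℝ) : ℝ := ∑ p ∈ prm u v, ((p : ℝ) * Real.sqrt p)⁻¹

theorem pw05_sq_le (u v : ℝ) : Sq u v ≤ Sp u v := by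
  refine Finset.sum_le_sum fun p hp => ?_
  have hp1 : (1 : ℝ) ≤ p := by exact_mod_cast (D2b_mem_prm.1 hp).1.one_lt.le
  have hs1 : 1 ≤ Real.sqrt p := by rw [Real.one_le_sqrt]; exact hp1
  exact inv_anti₀ (by linarith) (by nlinarith)

theorem GsL_prod {C : ℝ} (hC : 0 ≤ C) : ∃ K : ℝ, 1 ≤ K ∧ ∀ (u v : ℝ) (b : ℕ → ℂ) (H : ℕ → Om → ℝ),
    (∀ p ∈ prm u v, Gs C p (b p) (H p)) →
    ∫ x, Real.exp (∑ p ∈ prm u v, H p x) ∂mu ≤ Real.exp ((∑ p ∈ prm u v, ‖b p‖ ^ 2 / 4) + K * Sq u v) := by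
  obtain ⟨K, hK, h0⟩ := Gs.int hC
  refine ⟨K, hK, fun u v b H hG => ?_⟩
  have e1 : ∀ x, Real.exp (∑ p ∈ prm u v, H p x) = ∏ p ∈ prm u v, Real.exp (H p x) :=
    fun x => Real.exp_sum _ _
  simp_rw [e1]
  rw [B03_prod (fun p x => Real.exp (H p x)) (prm u v) (fun p hp => Real.continuous_exp.comp (hG p hp).cont)
    (fun p hp x y hxy => by
      have := (hG p hp).dep hxy
      simp only [this])]
  have h1 : ∏ p ∈ prm u v, ∫ x, Real.exp (H p x) ∂mu ≤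
      ∏ p ∈ prm u v, Real.exp (‖b p‖ ^ 2 / 4 + K / (p * Real.sqrt p)) :=
    Finset.prod_le_prod (fun p hp => integral_nonneg fun x => (Real.exp_pos _).le)
      fun p hp => h0 p (b p) (H p) (D2b_mem_prm.1 hp).1 (hG p hp)
  refine h1.trans (le_of_eq ?_)
  rw [← Real.exp_sum, Finset.sum_add_distrib, Sq, Finset.mul_sum]
  congr 2

/-- crude form -/
theorem GsL_crude {C : ℝ} (hC : 0 ≤ C) : ∃ K : ℝ, 1 ≤ K ∧ ∀ (u v : ℝ) (b : ℕ → ℂ) (H : ℕ → Om → ℝ),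
    (∀ p ∈ prm u v, Gs C p (b p) (H p)) →
    ∫ x, Real.exp (∑ p ∈ prm u v, H p x) ∂mu ≤ Real.exp (K * Sp u v) := by
  obtain ⟨K, hK, h0⟩ := GsL_prod hC
  refine ⟨C ^ 2 / 4 + K, by have : 0 ≤ C ^ 2 / 4 := by positivity
                            linarith, fun u v b H hG => ?_⟩
  refine (h0 u v b H hG).trans (Real.exp_le_exp.2 ?_)
  have h1 : ∑ p ∈ prm u v, ‖b p‖ ^ 2 / 4 ≤ C ^ 2 / 4 * Sp u v := by
    rw [Sp, Finset.mul_sum]
    refine Finset.sum_le_sum fun p hp => ?_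
    have hp0 : (0 : ℝ) < p := by exact_mod_cast (D2b_mem_prm.1 hp).1.pos
    have h2 := pow_le_pow_left₀ (norm_nonneg _) (hG p hp).nb 2
    rw [div_pow, Real.sq_sqrt hp0.le] at h2
    have h3 : C ^ 2 / 4 * (p : ℝ)⁻¹ = C ^ 2 / p / 4 := by
      rw [div_eq_mul_inv _ (p : ℝ)]
      ring
    rw [h3]
    linarith
  have h2 := mul_le_mul_of_nonneg_left (pw05_sq_le u v) (by linarith : (0 : ℝ) ≤ K)
  rw [add_mul]
  linarith

end Pool.Agent.LibPW
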