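import Mathlib
import Pool.Agent.LibPW.PW_03
import Pool.Agent.LibPH45.PH_08

/-! ROW 06: as PH_08 (`Gd_log`, `P08_La`, `Gd_La`), one order further: `|log|1-z|^{-1} - Re (z + z²/2)| ≤ ‖z‖³/(1-‖z‖)`, `b = zp s p`,
`c = (zp s p)²/2`; `La Y p = w + w²/2 + O(‖w‖³)` because `p² ≤ Y` (`2 ≤ Nat.log p ⌊Y⌋₊`), `w = wp p x = zp 0 p * ch x p`. -/

set_option autoImplicit false

namespace Pool.Agent.LibPW

open MeasureTheory Filter Topology Pool.Agent.LibMM99 Pool.Agent.LibTG78 Pool.Agent.LibPH45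
open scoped ComplexConjugate

theorem pw06_log {z : ℂ} (hz : ‖z‖ < 1) :
    ‖Complex.log (1 - z)⁻¹ - z - z ^ 2 / 2‖ ≤ ‖z‖ ^ 3 * (1 - ‖z‖)⁻¹ / 3 := by
  have h := Complex.norm_log_one_sub_inv_add_logTaylor_neg_le 2 hz
  have h1 : Complex.logTaylor (2 + 1) (-z) = -z - z ^ 2 / 2 := by
    simp [Complex.logTaylor, Finset.sum_range_succ]
    ring
  rw [h1] at h
  have h2 : Complex.log (1 - z)⁻¹ - z - z ^ 2 / 2 = Complex.log (1 - z)⁻¹ + (-z - z ^ 2 / 2) := by ring
  rw [h2]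
  refine h.trans (le_of_eq ?_)
  norm_num

theorem Gs_log {s : ℂ} {L : ℝ} (h : Adm s L) {p : ℕ} (hp : p ∈ prm 1 (Real.exp L)) :
    Gs 50 p (zp s p) (fun x => Real.log ‖(1 - zp s p * ch x p)⁻¹‖) := by
  obtain ⟨hpp, hpL⟩ := P08_mem hp (Real.exp_pos L).le
  have hp2 : (2 : ℝ) ≤ p := by exact_mod_cast hpp.two_le
  have hsq : (0 : ℝ) < Real.sqrt p := Real.sqrt_pos.2 (by linarith)
  have hgd := Gd_log h hp
  refine ⟨hgd.cont, hgd.dep, (P08_sq h hp (fun _ => 0)).2.2.trans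
    (div_le_div_of_nonneg_right (by norm_num) hsq.le), zp s p ^ 2 / 2, ?_, ?_⟩
  · have h1 := (P08_sq h hp (fun _ => 0)).1
    rw [norm_mul, norm_ch, mul_one] at h1
    rw [norm_div, norm_pow, Complex.norm_two]
    have h2 : (6 : ℝ) / 5 / p / 2 ≤ 50 / p := by
      rw [div_div, div_div, div_le_div_iff₀ (by positivity) (by linarith)]
      nlinarith
    linarith
  · intro x
    obtain ⟨h1, h2, _⟩ := P08_sq h hp x
    have hzz : zp s p ^ 2 / 2 * ch x p ^ 2 = (zp s p * ch x p) ^ 2 / 2 := by ring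
    rw [hzz]
    set z := zp s p * ch x p with hz
    have h3 : ‖z‖ < 1 := by linarith
    have h4 := pw06_log h3
    have h5 : Real.log ‖(1 - z)⁻¹‖ - z.re - (z ^ 2 / 2).re = (Complex.log (1 - z)⁻¹ - z - z ^ 2 / 2).re := by
      rw [Complex.sub_re, Complex.sub_re, Complex.log_re]
    rw [h5]
    refine (Complex.abs_re_le_norm _).trans (h4.trans ?_)
    have h6 : (1 - ‖z‖)⁻¹ ≤ 5 := by
      rw [inv_le_comm₀ (by linarith) (by norm_num)]
      linarith
    have h7 : ‖z‖ * Real.sqrt p ≤ 2 := by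
      have h8 : (‖z‖ * Real.sqrt p) ^ 2 ≤ 6 / 5 := by
        rw [mul_pow, Real.sq_sqrt (by linarith)]
        calc ‖z‖ ^ 2 * p ≤ 6 / 5 / p * p := mul_le_mul_of_nonneg_right h1 (by linarith)
          _ = 6 / 5 := div_mul_cancel₀ _ (by linarith)
      nlinarith [mul_nonneg (norm_nonneg z) hsq.le]
    have h9 : ‖z‖ ^ 3 ≤ 8 / (p * Real.sqrt p) := by
      rw [le_div_iff₀ (by positivity)]
      have h10 : ‖z‖ ^ 3 * (p * Real.sqrt p) = (‖z‖ * Real.sqrt p) ^ 3 := by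
        have h11 : (p : ℝ) = Real.sqrt p ^ 2 := (Real.sq_sqrt (by linarith)).symm
        calc ‖z‖ ^ 3 * (p * Real.sqrt p) = ‖z‖ ^ 3 * (Real.sqrt p ^ 2 * Real.sqrt p) := by rw [← h11]
          _ = (‖z‖ * Real.sqrt p) ^ 3 := by ring
      rw [h10]
      calc (‖z‖ * Real.sqrt p) ^ 3 ≤ 2 ^ 3 :=
            pow_le_pow_left₀ (mul_nonneg (norm_nonneg z) hsq.le) h7 3
        _ = 8 := by norm_num
    have h12 : ‖z‖ ^ 3 * (1 - ‖z‖)⁻¹ ≤ 8 / (p * Real.sqrt p) * 5 := by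
      apply mul_le_mul h9 h6 (by
        have : 0 < 1 - ‖z‖ := by linarith
        positivity) (by positivity)
    have h13 : 8 / ((p : ℝ) * Real.sqrt p) * 5 / 3 ≤ 50 / (p * Real.sqrt p) := by
      have h14 : (0 : ℝ) ≤ 1 / (p * Real.sqrt p) := by positivity
      have h15 : 8 / ((p : ℝ) * Real.sqrt p) * 5 / 3 = 40 / 3 * (1 / (p * Real.sqrt p)) := by ring
      have h16 : 50 / ((p : ℝ) * Real.sqrt p) = 50 * (1 / (p * Real.sqrt p)) := by ring
      rw [h15, h16]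
      nlinarith
    linarith

theorem pw06_La {n : ℕ} (hn : 2 ≤ n) {w : ℂ} (hw : ‖w‖ < 3 / 4) :
    ‖(∑ j ∈ Finset.Icc 1 n, w ^ j / j) - w - w ^ 2 / 2‖ ≤ 2 * ‖w‖ ^ 3 := by
  have h1 : (∑ j ∈ Finset.Icc 1 n, w ^ j / (j : ℂ)) - w - w ^ 2 / 2 = ∑ j ∈ Finset.Icc 3 n, w ^ j / (j : ℂ) := by
    rw [← Finset.add_sum_Ioc_eq_sum_Icc (by omega : 1 ≤ n)]
    have h2 : Finset.Ioc 1 n = Finset.Icc 2 n := by
      ext j; simp only [Finset.mem_Ioc, Finset.mem_Icc]; omega
    rw [h2, ← Finset.add_sum_Ioc_eq_sum_Icc hn]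
    have h3 : Finset.Ioc 2 n = Finset.Icc 3 n := by
      ext j; simp only [Finset.mem_Ioc, Finset.mem_Icc]; omega
    rw [h3]
    push_cast
    ring
  rw [h1]
  have h2 : ∀ j ∈ Finset.Icc 3 n, ‖w ^ j / (j : ℂ)‖ ≤ ‖w‖ ^ 3 / 2 * ‖w‖ ^ (j - 3) := by
    intro j hj
    have hj2 : 3 ≤ j := (Finset.mem_Icc.1 hj).1
    rw [norm_div, norm_pow, Complex.norm_natCast]
    have h3 : ‖w‖ ^ j = ‖w‖ ^ 3 * ‖w‖ ^ (j - 3) := by rw [← pow_add]; congr 1; omega
    have hj2' : (2 : ℝ) ≤ j := by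
      have : (3 : ℝ) ≤ j := by exact_mod_cast hj2
      linarith
    rw [h3, div_mul_eq_mul_div]
    apply div_le_div_of_nonneg_left (by positivity) (by norm_num) hj2'
  refine (norm_sum_le_of_le _ h2).trans ?_
  rw [← Finset.mul_sum]
  have h4 : ∑ j ∈ Finset.Icc 3 n, ‖w‖ ^ (j - 3) ≤ 4 := by
    have h5 : ∑ j ∈ Finset.Icc 3 n, ‖w‖ ^ (j - 3) ≤ ∑ j ∈ Finset.range n, ‖w‖ ^ j := by
      rw [← Finset.sum_image (s := Finset.Icc 3 n) (g := fun j => j - 3) (f := fun j => ‖w‖ ^ j)]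
      · apply Finset.sum_le_sum_of_subset_of_nonneg
        · intro j hj
          obtain ⟨i, hi, rfl⟩ := Finset.mem_image.1 hj
          rw [Finset.mem_Icc] at hi
          rw [Finset.mem_range]
          omega
        · intro j _ _
          positivity
      · intro a ha b hb hab
        rw [Finset.mem_coe, Finset.mem_Icc] at ha hb
        have : a - 3 = b - 3 := hab
        omega
    have h6 : (∑ j ∈ Finset.range n, ‖w‖ ^ j) * (1 - ‖w‖) = 1 - ‖w‖ ^ n := by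
      have := geom_sum_mul_neg ‖w‖ n
      exact this
    have h7 : (0 : ℝ) ≤ ‖w‖ ^ n := by positivity
    have h8 : (0 : ℝ) ≤ ∑ j ∈ Finset.range n, ‖w‖ ^ j := Finset.sum_nonneg fun _ _ => by positivity
    nlinarith
  have h9 : (0 : ℝ) ≤ ‖w‖ ^ 3 := by positivity
  nlinarith

theorem Gs_La {Y : ℝ} {p : ℕ} (hp : p.Prime) (hY : (p : ℝ) ^ 2 ≤ Y) :
    Gs 50 p (zp 0 p) (fun x => (La Y p x).re) ∧ Gs 50 p (-(Complex.I * zp 0 p)) (fun x => (La Y p x).im) := by
  have hp2 : (2 : ℝ) ≤ p := by exact_mod_cast hp.two_le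
  have hsq : (0 : ℝ) < Real.sqrt p := Real.sqrt_pos.2 (by linarith)
  have hn : 2 ≤ Nat.log p ⌊Y⌋₊ := by
    apply Nat.le_log_of_pow_le hp.one_lt
    apply Nat.le_floor
    push_cast
    exact hY
  have hz0 : ‖zp 0 p‖ = (Real.sqrt p)⁻¹ := by
    have h1 := (norm_wp hp (fun _ => 0)).1
    rw [wp, norm_mul, norm_ch, mul_one] at h1
    exact h1
  have hnorm : ‖zp 0 p‖ ≤ 50 / Real.sqrt p := by
    rw [hz0, ← one_div]
    exact div_le_div_of_nonneg_right (by norm_num) hsq.le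
  have hc : ‖zp 0 p ^ 2 / 2‖ ≤ 50 / p := by
    rw [norm_div, norm_pow, Complex.norm_two, hz0, inv_pow, Real.sq_sqrt (by linarith), ← one_div, div_div,
      div_le_div_iff₀ (by positivity) (by linarith)]
    nlinarith
  have hcont : Continuous fun x : Om => La Y p x := by
    unfold La
    refine continuous_finsetSum _ fun j _ => ?_
    have h1 : Continuous fun x : Om => wp p x := continuous_const.mul (continuous_ch p)
    exact (h1.pow j).div_const _
  have hdep : ∀ x y : Om, (∀ i ∈ ({p} : Set ℕ), x i = y i) → La Y p x = La Y p y := by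
    intro x y hxy
    unfold La wp
    rw [P08_dep hp hxy]
  have happ : ∀ x : Om, ‖La Y p x - wp p x - wp p x ^ 2 / 2‖ ≤ 50 / (p * Real.sqrt p) := by
    intro x
    have h1 := norm_wp hp x
    refine (pw06_La hn h1.2).trans ?_
    rw [h1.1]
    have h2 : (Real.sqrt p)⁻¹ ^ 3 = 1 / (p * Real.sqrt p) := by
      have h11 : (p : ℝ) = Real.sqrt p ^ 2 := (Real.sq_sqrt (by linarith)).symm
      calc (Real.sqrt p)⁻¹ ^ 3 = 1 / (Real.sqrt p ^ 2 * Real.sqrt p) := by
            rw [inv_pow, ← one_div]; congr 1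
        _ = 1 / (p * Real.sqrt p) := by rw [← h11]
    rw [h2, mul_one_div]
    exact div_le_div_of_nonneg_right (by norm_num) (by positivity)
  constructor
  · refine ⟨Complex.continuous_re.comp hcont, ?_, hnorm, zp 0 p ^ 2 / 2, hc, fun x => ?_⟩
    · intro x y hxy
      simp only
      rw [hdep x y hxy]
    · have h1 : (La Y p x).re - (zp 0 p * ch x p).re - (zp 0 p ^ 2 / 2 * ch x p ^ 2).re =
          (La Y p x - wp p x - wp p x ^ 2 / 2).re := by
        rw [Complex.sub_re, Complex.sub_re, wp]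
        congr 2
        ring
      rw [h1]
      exact (Complex.abs_re_le_norm _).trans (happ x)
  · refine ⟨Complex.continuous_im.comp hcont, ?_, ?_, -(Complex.I * (zp 0 p ^ 2 / 2)), ?_, fun x => ?_⟩
    · intro x y hxy
      simp only
      rw [hdep x y hxy]
    · rw [norm_neg, norm_mul, Complex.norm_I, one_mul]
      exact hnorm
    · rw [norm_neg, norm_mul, Complex.norm_I, one_mul]
      exact hc
    · have h1 : (La Y p x).im - (-(Complex.I * zp 0 p) * ch x p).re -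
          (-(Complex.I * (zp 0 p ^ 2 / 2)) * ch x p ^ 2).re = (La Y p x - wp p x - wp p x ^ 2 / 2).im := by
        rw [Complex.sub_im, Complex.sub_im, wp]
        congr 1
        · congr 1
          have : -(Complex.I * zp 0 p) * ch x p = -(Complex.I * (zp 0 p * ch x p)) := by ring
          rw [this, Complex.neg_re, Complex.I_mul_re, neg_neg]
        · have : -(Complex.I * (zp 0 p ^ 2 / 2)) * ch x p ^ 2 = -(Complex.I * ((zp 0 p * ch x p) ^ 2 / 2)) := by ring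
          rw [this, Complex.neg_re, Complex.I_mul_re, neg_neg]
      rw [h1]
      exact (Complex.abs_im_le_norm _).trans (happ x)

end Pool.Agent.LibPW
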