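import Mathlib
import Pool.Agent.LibPW.PW_02
import Pool.Agent.LibPW.PW_05
import Pool.Agent.LibPW.PW_06

/-! ROW 07: one block. Let `W = exp ∑ H p`, `A = AB u v Y`.
(a) For real `a1, a2` with `|a1|, |a2| ≤ 45`: `∫ W exp(a1 Re A + a2 Im A) ≤ exp(K Sp u v)` (GsL_crude with `Gs.add`, `Gs.smul`, Gs_La;
`p ≤ v` so `p² ≤ Y`), hence for `0 ≤ c ≤ 45`: `∫ W e^{c‖A‖} ≤ 4 exp(K Sp)` (`e^{c‖A‖} ≤ ∑ e^{±c Re A ± c Im A}`, four terms).
(b) `∫ W exp(β Re A) ≤ exp(∑ ‖b p + β zp 0 p‖²/4 + K Sq)` (GsL_prod).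
With Gr_le, `K (1 + Sp) ≤ N`: `∫ W GB ≤ (1+5^{-N}) (exp(Q) + 8 e^{-2N} e^{K' Sp}) ≤ exp(Q) (1 + 5^{-N}) (1 + 8 e^{-N})`, since
`Q = ∑ ‖..‖²/4 + K Sq ≥ 0`. For the second: `EB ≤ e^{-N} + 22^{-2N} e^{22‖A‖}` (one term of the exponential series), multiply out. -/

set_option autoImplicit false

namespace Pool.Agent.LibPW

open MeasureTheory Filter Topology Pool.Agent.LibMM99 Pool.Agent.LibTG78 Pool.Agent.LibPH45
open scoped ComplexConjugate

theorem pw07_mem {u v : ℝ} {p : ℕ} : p ∈ prm u v ↔ p.Prime ∧ u < (p : ℝ) ∧ (p : ℝ) ≤ v := by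
  unfold prm
  rw [Finset.mem_filter, Finset.mem_Icc]
  constructor
  · rintro ⟨⟨h1, h2⟩, h3, h4⟩
    refine ⟨h3, h4, ?_⟩
    have hv : 0 < ⌊v⌋₊ := lt_of_lt_of_le (Nat.lt_of_lt_of_le Nat.zero_lt_one h1) h2
    exact (Nat.le_floor_iff' (by omega)).1 h2
  · rintro ⟨h1, h2, h3⟩
    exact ⟨⟨h1.one_lt.le, Nat.le_floor h3⟩, h1, h2⟩

theorem pw07_cont (u v Y : ℝ) : Continuous (AB u v Y) := by
  unfold AB La wp
  refine continuous_finsetSum _ fun p _ => continuous_finsetSum _ fun j _ => ?_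
  exact ((continuous_const.mul (continuous_ch p)).pow j).div_const _

theorem pw07_four {c : ℝ} (hc : 0 ≤ c) (z : ℂ) :
    Real.exp (c * ‖z‖) ≤ Real.exp (c * z.re + c * z.im) + Real.exp (c * z.re + -c * z.im) +
      Real.exp (-c * z.re + c * z.im) + Real.exp (-c * z.re + -c * z.im) := by
  have h1 : ‖z‖ ≤ |z.re| + |z.im| := Complex.norm_le_abs_re_add_abs_im z
  have h2 : Real.exp (c * ‖z‖) ≤ Real.exp (c * |z.re| + c * |z.im|) := by
    apply Real.exp_le_exp.2
    nlinarith
  have p1 := Real.exp_pos (c * z.re + c * z.im)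
  have p2 := Real.exp_pos (c * z.re + -c * z.im)
  have p3 := Real.exp_pos (-c * z.re + c * z.im)
  have p4 := Real.exp_pos (-c * z.re + -c * z.im)
  refine h2.trans ?_
  rcases abs_cases z.re with ⟨h3, -⟩ | ⟨h3, -⟩ <;> rcases abs_cases z.im with ⟨h4, -⟩ | ⟨h4, -⟩ <;> rw [h3, h4]
  · linarith
  · have e : c * z.re + c * -z.im = c * z.re + -c * z.im := by ring
    rw [e]
    linarith
  · have e : c * -z.re + c * z.im = -c * z.re + c * z.im := by ring
    rw [e]
    linarith
  · have e : c * -z.re + c * -z.im = -c * z.re + -c * z.im := by ring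
    rw [e]
    linarith

theorem pw07_pow_fact {r : ℝ} (hr : 0 ≤ r) (n : ℕ) : r ^ n / (n.factorial : ℝ) ≤ Real.exp r :=
  (Real.pow_div_factorial_le_exp r hr n)

theorem pw07_e_le : Real.exp 1 ≤ 3 := by
  have := Real.exp_one_lt_d9
  linarith

theorem pw07_q (N : ℕ) : (1 / 5 : ℝ) ^ N ≤ Real.exp (-(N : ℝ)) := by
  have h1 : Real.exp (-(N : ℝ)) = (Real.exp (-1)) ^ N := by
    rw [← Real.exp_nat_mul]
    congr 1
    ring
  rw [h1]
  refine pow_le_pow_left₀ (by norm_num) ?_ N
  rw [Real.exp_neg, inv_eq_one_div]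
  exact one_div_le_one_div_of_le (Real.exp_pos 1) (pw07_e_le.trans (by norm_num))

/-- one term of the exponential series -/
theorem pw07_term {r : ℝ} (hr : 0 ≤ r) (N : ℕ) :
    r ^ (2 * N) / ((2 * N).factorial : ℝ) ≤ Real.exp (-(4 * N : ℝ)) * Real.exp (22 * r) := by
  have h1 := pw07_pow_fact (r := 22 * r) (by positivity) (2 * N)
  rw [mul_pow] at h1
  have h2 : Real.exp (4 * N : ℝ) ≤ 22 ^ (2 * N) := by
    have h3 : Real.exp (4 * N : ℝ) = (Real.exp 2) ^ (2 * N) := by
      rw [← Real.exp_nat_mul]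
      congr 1
      push_cast
      ring
    rw [h3]
    refine pow_le_pow_left₀ (Real.exp_pos _).le ?_ _
    have h4 : Real.exp 2 = Real.exp 1 * Real.exp 1 := by
      rw [← Real.exp_add]
      norm_num
    rw [h4]
    nlinarith [pw07_e_le, Real.exp_pos 1]
  have h5 : 0 ≤ r ^ (2 * N) / ((2 * N).factorial : ℝ) := by positivity
  have h6 : Real.exp (4 * N : ℝ) * (r ^ (2 * N) / ((2 * N).factorial : ℝ)) ≤ Real.exp (22 * r) := by
    calc Real.exp (4 * N : ℝ) * (r ^ (2 * N) / ((2 * N).factorial : ℝ))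
        ≤ 22 ^ (2 * N) * (r ^ (2 * N) / ((2 * N).factorial : ℝ)) := mul_le_mul_of_nonneg_right h2 h5
      _ = 22 ^ (2 * N) * r ^ (2 * N) / ((2 * N).factorial : ℝ) := by ring
      _ ≤ Real.exp (22 * r) := h1
  calc r ^ (2 * N) / ((2 * N).factorial : ℝ)
      = Real.exp (-(4 * N : ℝ)) * (Real.exp (4 * N : ℝ) * (r ^ (2 * N) / ((2 * N).factorial : ℝ))) := by
        rw [← mul_assoc, ← Real.exp_add]
        simp
    _ ≤ Real.exp (-(4 * N : ℝ)) * Real.exp (22 * r) := mul_le_mul_of_nonneg_left h6 (Real.exp_pos _).le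

/-- (a) of the row -/
theorem pw07_two {C : ℝ} (hC : 0 ≤ C) : ∃ K : ℝ, 1 ≤ K ∧ ∀ (u v Y : ℝ) (b : ℕ → ℂ) (H : ℕ → Om → ℝ) (a1 a2 : ℝ),
    0 ≤ v → v ^ 2 ≤ Y → |a1| ≤ 45 → |a2| ≤ 45 → (∀ p ∈ prm u v, Gs C p (b p) (H p)) →
    ∫ x, Real.exp (∑ p ∈ prm u v, H p x) * Real.exp (a1 * (AB u v Y x).re + a2 * (AB u v Y x).im) ∂mu ≤
      Real.exp (K * Sp u v) := by
  obtain ⟨K, hK, h⟩ := GsL_crude (C := C + (2250 + 2250)) (by linarith)
  refine ⟨K, hK, ?_⟩
  intro u v Y b H a1 a2 hv hY h1 h2 hG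
  have h3 := h u v (fun p => b p + (a1 * zp 0 p + a2 * (-(Complex.I * zp 0 p))))
    (fun p x => H p x + (a1 * (La Y p x).re + a2 * (La Y p x).im)) (fun p hp => by
      obtain ⟨hp1, hp2, hp3⟩ := pw07_mem.1 hp
      have hpY : (p : ℝ) ^ 2 ≤ Y := (pow_le_pow_left₀ (Nat.cast_nonneg p) hp3 2).trans hY
      obtain ⟨g1, g2⟩ := Gs_La hp1 hpY
      have g3 := (g1.smul a1).mono (C' := 2250) (by nlinarith)
      have g4 := (g2.smul a2).mono (C' := 2250) (by nlinarith)
      exact (hG p hp).add (g3.add g4))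
  refine le_trans (le_of_eq ?_) h3
  congr 1
  funext x
  rw [← Real.exp_add]
  congr 1
  rw [Finset.sum_add_distrib, Finset.sum_add_distrib, ← Finset.mul_sum, ← Finset.mul_sum]
  unfold AB
  rw [Complex.re_sum, Complex.im_sum]

/-- (b) of the row -/
theorem pw07_main {C : ℝ} (hC : 0 ≤ C) : ∃ K : ℝ, 1 ≤ K ∧ ∀ (u v Y : ℝ) (b : ℕ → ℂ) (H : ℕ → Om → ℝ) (β : ℝ),
    0 ≤ v → v ^ 2 ≤ Y → |β| ≤ 1 → (∀ p ∈ prm u v, Gs C p (b p) (H p)) →
    ∫ x, Real.exp (∑ p ∈ prm u v, H p x) * Real.exp (β * (AB u v Y x).re) ∂mu ≤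
      Real.exp ((∑ p ∈ prm u v, ‖b p + β * zp 0 p‖ ^ 2 / 4) + K * Sq u v) := by
  obtain ⟨K, hK, h⟩ := GsL_prod (C := C + 50) (by linarith)
  refine ⟨K, hK, ?_⟩
  intro u v Y b H β hv hY hβ hG
  have h3 := h u v (fun p => b p + β * zp 0 p)
    (fun p x => H p x + β * (La Y p x).re) (fun p hp => by
      obtain ⟨hp1, hp2, hp3⟩ := pw07_mem.1 hp
      have hpY : (p : ℝ) ^ 2 ≤ Y := (pow_le_pow_left₀ (Nat.cast_nonneg p) hp3 2).trans hY
      obtain ⟨g1, -⟩ := Gs_La hp1 hpY
      have g3 := (g1.smul β).mono (C' := 50) (by nlinarith)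
      exact (hG p hp).add g3)
  refine le_trans (le_of_eq ?_) h3
  congr 1
  funext x
  rw [← Real.exp_add]
  congr 1
  rw [Finset.sum_add_distrib, ← Finset.mul_sum]
  unfold AB
  rw [Complex.re_sum]

/-- (a'), the norm of the truncated logarithm -/
theorem pw07_norm {C : ℝ} (hC : 0 ≤ C) : ∃ K : ℝ, 1 ≤ K ∧ ∀ (u v Y : ℝ) (b : ℕ → ℂ) (H : ℕ → Om → ℝ) (c : ℝ),
    0 ≤ v → v ^ 2 ≤ Y → 0 ≤ c → c ≤ 45 → (∀ p ∈ prm u v, Gs C p (b p) (H p)) →
    ∫ x, Real.exp (∑ p ∈ prm u v, H p x) * Real.exp (c * ‖AB u v Y x‖) ∂mu ≤ 4 * Real.exp (K * Sp u v) := by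
  obtain ⟨K, hK, h⟩ := pw07_two hC
  refine ⟨K, hK, ?_⟩
  intro u v Y b H c hv hY hc0 hc hG
  have hcH : Continuous fun x => ∑ p ∈ prm u v, H p x := continuous_finsetSum _ fun p hp => (hG p hp).cont
  have hA := pw07_cont u v Y
  have hre : Continuous fun x => (AB u v Y x).re := Complex.continuous_re.comp hA
  have him : Continuous fun x => (AB u v Y x).im := Complex.continuous_im.comp hA
  have hc1 : |c| ≤ 45 := by rw [abs_of_nonneg hc0]; exact hc
  have hc2 : |(-c)| ≤ 45 := by rw [abs_neg]; exact hc1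
  have hI : ∀ a1 a2 : ℝ, Integrable (fun x => Real.exp (∑ p ∈ prm u v, H p x) *
      Real.exp (a1 * (AB u v Y x).re + a2 * (AB u v Y x).im)) mu := by
    intro a1 a2
    apply integrable_of_continuous
    exact (Real.continuous_exp.comp hcH).mul
      (Real.continuous_exp.comp ((continuous_const.mul hre).add (continuous_const.mul him)))
  have h1 := h u v Y b H c c hv hY hc1 hc1 hG
  have h2 := h u v Y b H c (-c) hv hY hc1 hc2 hG
  have h3 := h u v Y b H (-c) c hv hY hc2 hc1 hG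
  have h4 := h u v Y b H (-c) (-c) hv hY hc2 hc2 hG
  calc ∫ x, Real.exp (∑ p ∈ prm u v, H p x) * Real.exp (c * ‖AB u v Y x‖) ∂mu
      ≤ ∫ x, (Real.exp (∑ p ∈ prm u v, H p x) * Real.exp (c * (AB u v Y x).re + c * (AB u v Y x).im) +
          Real.exp (∑ p ∈ prm u v, H p x) * Real.exp (c * (AB u v Y x).re + -c * (AB u v Y x).im) +
          Real.exp (∑ p ∈ prm u v, H p x) * Real.exp (-c * (AB u v Y x).re + c * (AB u v Y x).im) +
          Real.exp (∑ p ∈ prm u v, H p x) * Real.exp (-c * (AB u v Y x).re + -c * (AB u v Y x).im)) ∂mu := by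
        refine integral_mono ?_ (((hI c c).add (hI c (-c))).add (hI (-c) c) |>.add (hI (-c) (-c))) ?_
        · apply integrable_of_continuous
          exact (Real.continuous_exp.comp hcH).mul
            (Real.continuous_exp.comp (continuous_const.mul hA.norm))
        · intro x
          have h5 := mul_le_mul_of_nonneg_left (pw07_four hc0 (AB u v Y x))
            (Real.exp_pos (∑ p ∈ prm u v, H p x)).le
          simp only [mul_add] at h5
          exact h5
    _ = (∫ x, Real.exp (∑ p ∈ prm u v, H p x) * Real.exp (c * (AB u v Y x).re + c * (AB u v Y x).im) ∂mu) +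
          (∫ x, Real.exp (∑ p ∈ prm u v, H p x) * Real.exp (c * (AB u v Y x).re + -c * (AB u v Y x).im) ∂mu) +
          (∫ x, Real.exp (∑ p ∈ prm u v, H p x) * Real.exp (-c * (AB u v Y x).re + c * (AB u v Y x).im) ∂mu) +
          ∫ x, Real.exp (∑ p ∈ prm u v, H p x) * Real.exp (-c * (AB u v Y x).re + -c * (AB u v Y x).im) ∂mu := by
        have e1 := integral_add (hI c c) (hI c (-c))
        have e2 := integral_add ((hI c c).add (hI c (-c))) (hI (-c) c)
        have e3 := integral_add (((hI c c).add (hI c (-c))).add (hI (-c) c)) (hI (-c) (-c))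
        simp only [Pi.add_apply] at e1 e2 e3
        rw [e3, e2, e1]
    _ ≤ 4 * Real.exp (K * Sp u v) := by linarith

theorem pw07_Sp_nonneg (u v : ℝ) : 0 ≤ Sp u v := by
  unfold Sp
  exact Finset.sum_nonneg fun p _ => by positivity

theorem pw07_Sq_nonneg (u v : ℝ) : 0 ≤ Sq u v := by
  unfold Sq
  exact Finset.sum_nonneg fun p _ => by positivity

/-- the numerical part -/
theorem pw07_num1 {W ex e22 q n : ℝ} (hW : 0 ≤ W)
    {G : ℝ} (hG : G ≤ (1 + q) * (ex + 2 * n * e22)) :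
    W * G ≤ (1 + q) * (W * ex) + (1 + q) * (2 * n) * (W * e22) := by
  calc W * G ≤ W * ((1 + q) * (ex + 2 * n * e22)) := mul_le_mul_of_nonneg_left hG hW
    _ = _ := by ring

theorem block_bound {C : ℝ} (hC : 0 ≤ C) : ∃ K : ℝ, 1 ≤ K ∧ ∀ (u v Y : ℝ) (N : ℕ) (b : ℕ → ℂ) (H : ℕ → Om → ℝ) (β : ℝ),
    0 ≤ v → v ^ 2 ≤ Y → |β| ≤ 1 → (∀ p ∈ prm u v, Gs C p (b p) (H p)) → K * (1 + Sp u v) ≤ N →
    4 * v / Real.sqrt Y ≤ Real.exp (-(N : ℝ)) →
    ∫ x, Real.exp (∑ p ∈ prm u v, H p x) * GB β N u v Y x ∂mu ≤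
      Real.exp ((∑ p ∈ prm u v, ‖b p + β * zp 0 p‖ ^ 2 / 4) + K * Sq u v) * (1 + K * Real.exp (-(N : ℝ))) ∧
    ∫ x, Real.exp (∑ p ∈ prm u v, H p x) * (GB β N u v Y x * EB N u v Y x) ∂mu ≤
      Real.exp ((∑ p ∈ prm u v, ‖b p + β * zp 0 p‖ ^ 2 / 4) + K * Sq u v) * (K * Real.exp (-(N : ℝ))) := by
  obtain ⟨K1, hK1, hN1⟩ := pw07_norm hC
  obtain ⟨K2, hK2, hM⟩ := pw07_main hC
  refine ⟨K1 + K2 + 42, by linarith, ?_⟩
  intro u v Y N b H β hv hY hβ hG hKN htr
  set K : ℝ := K1 + K2 + 42 with hK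
  have hSp := pw07_Sp_nonneg u v
  have hSq := pw07_Sq_nonneg u v
  have hNpos : (1 : ℝ) ≤ N := by nlinarith
  have hN : 1 ≤ N := by exact_mod_cast hNpos
  have hK1N : K1 * Sp u v ≤ N := by nlinarith
  set n : ℝ := Real.exp (-(N : ℝ)) with hn
  have hn0 : 0 < n := Real.exp_pos _
  have hn1 : n ≤ 1 := by
    rw [hn]
    exact Real.exp_le_one_iff.2 (by linarith)
  set Q : ℝ := (∑ p ∈ prm u v, ‖b p + β * zp 0 p‖ ^ 2 / 4) + K * Sq u v with hQ
  have hQ0 : 0 ≤ Q := by
    rw [hQ]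
    have h1 : 0 ≤ ∑ p ∈ prm u v, ‖b p + β * zp 0 p‖ ^ 2 / 4 := Finset.sum_nonneg fun p _ => by positivity
    have h2 : 0 ≤ K * Sq u v := mul_nonneg (by linarith) hSq
    linarith
  have hEQ : 1 ≤ Real.exp Q := Real.one_le_exp hQ0
  -- the three exponential means
  have hcH : Continuous fun x => ∑ p ∈ prm u v, H p x := continuous_finsetSum _ fun p hp => (hG p hp).cont
  have hA := pw07_cont u v Y
  have hre : Continuous fun x => (AB u v Y x).re := Complex.continuous_re.comp hA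
  have hWc : Continuous fun x => Real.exp (∑ p ∈ prm u v, H p x) := Real.continuous_exp.comp hcH
  have hS1 : Real.exp (K1 * Sp u v) * n ≤ 1 := by
    rw [hn, ← Real.exp_add]
    exact Real.exp_le_one_iff.2 (by linarith)
  have hB : ∫ x, Real.exp (∑ p ∈ prm u v, H p x) * Real.exp (β * (AB u v Y x).re) ∂mu ≤ Real.exp Q := by
    refine (hM u v Y b H β hv hY hβ hG).trans (Real.exp_le_exp.2 ?_)
    rw [hQ]
    have : K2 * Sq u v ≤ K * Sq u v := mul_le_mul_of_nonneg_right (by linarith) hSq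
    linarith
  have hIc : ∀ c : ℝ, Integrable (fun x => Real.exp (∑ p ∈ prm u v, H p x) * Real.exp (c * ‖AB u v Y x‖)) mu := by
    intro c
    apply integrable_of_continuous
    exact hWc.mul (Real.continuous_exp.comp (continuous_const.mul hA.norm))
  have hIβ : Integrable (fun x => Real.exp (∑ p ∈ prm u v, H p x) * Real.exp (β * (AB u v Y x).re)) mu := by
    apply integrable_of_continuous
    exact hWc.mul (Real.continuous_exp.comp (continuous_const.mul hre))
  have hE : ∀ c : ℝ, 0 ≤ c → c ≤ 45 →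
      ∫ x, Real.exp (∑ p ∈ prm u v, H p x) * Real.exp (c * ‖AB u v Y x‖) ∂mu ≤ 4 * Real.exp (K1 * Sp u v) :=
    fun c hc0 hc => hN1 u v Y b H c hv hY hc0 hc hG
  set q : ℝ := (1 / 5 : ℝ) ^ N with hq
  have hq0 : 0 ≤ q := by positivity
  have hqn : q ≤ n := pw07_q N
  have hq1 : q ≤ 1 := hqn.trans hn1
  have hn2 : Real.exp (-(2 * N : ℝ)) = n * n := by
    rw [hn, ← Real.exp_add]
    congr 1
    ring
  have hn4 : Real.exp (-(4 * N : ℝ)) = n * n * (n * n) := by
    rw [hn, ← Real.exp_add, ← Real.exp_add]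
    congr 1
    ring
  -- pointwise bound for GB
  have hGBx : ∀ x, GB β N u v Y x ≤ (1 + q) * (Real.exp (β * (AB u v Y x).re) +
      2 * (n * n) * Real.exp (22 * ‖AB u v Y x‖)) := by
    intro x
    have h1 : |β * (AB u v Y x).re| ≤ ‖AB u v Y x‖ := by
      rw [abs_mul]
      calc |β| * |(AB u v Y x).re| ≤ 1 * ‖AB u v Y x‖ :=
            mul_le_mul hβ (Complex.abs_re_le_norm _) (abs_nonneg _) (by norm_num)
        _ = ‖AB u v Y x‖ := one_mul _
    have h2 := Gr_le hN h1
    rw [hn2] at h2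
    exact h2
  have hGB0 : ∀ x, 0 ≤ GB β N u v Y x := fun x => Gr_nonneg _ (norm_nonneg _)
  have hGBc : Continuous (GB β N u v Y) := by
    unfold GB Gr Ex
    refine continuous_const.mul (Continuous.add ?_ ?_)
    · exact continuous_finsetSum _ fun i _ => ((continuous_const.mul hre).pow i).div_const _
    · exact ((continuous_const.mul hA.norm).div_const _).pow _
  have hEBc : Continuous (EB N u v Y) := by
    unfold EB
    exact continuous_const.add ((hA.norm.pow _).div_const _)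
  have hEBx : ∀ x, EB N u v Y x ≤ n + n * n * (n * n) * Real.exp (22 * ‖AB u v Y x‖) := by
    intro x
    unfold EB
    have h1 := pw07_term (norm_nonneg (AB u v Y x)) N
    rw [hn4] at h1
    exact add_le_add htr h1
  constructor
  · have step : ∫ x, Real.exp (∑ p ∈ prm u v, H p x) * GB β N u v Y x ∂mu ≤
        (1 + q) * ∫ x, Real.exp (∑ p ∈ prm u v, H p x) * Real.exp (β * (AB u v Y x).re) ∂mu +
        (1 + q) * (2 * (n * n)) * ∫ x, Real.exp (∑ p ∈ prm u v, H p x) * Real.exp (22 * ‖AB u v Y x‖) ∂mu := by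
      rw [← integral_const_mul, ← integral_const_mul]
      rw [← integral_add (hIβ.const_mul _) ((hIc 22).const_mul _)]
      refine integral_mono ?_ ((hIβ.const_mul _).add ((hIc 22).const_mul _)) ?_
      · exact integrable_of_continuous (hWc.mul hGBc)
      · intro x
        exact pw07_num1 (Real.exp_pos _).le (hGBx x)
    refine step.trans ?_
    set I1 : ℝ := ∫ x, Real.exp (∑ p ∈ prm u v, H p x) * Real.exp (β * (AB u v Y x).re) ∂mu with hI1
    set I2 : ℝ := ∫ x, Real.exp (∑ p ∈ prm u v, H p x) * Real.exp (22 * ‖AB u v Y x‖) ∂mu with hI2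
    have h2 := hE 22 (by norm_num) (by norm_num)
    rw [← hI2] at h2
    have h3 : n * I2 ≤ 4 := by nlinarith
    have h4 : (2 * (n * n)) * I2 ≤ 8 * n * Real.exp Q := by
      calc (2 * (n * n)) * I2 = 2 * n * (n * I2) := by ring
        _ ≤ 2 * n * 4 := mul_le_mul_of_nonneg_left h3 (by positivity)
        _ = 8 * n * 1 := by ring
        _ ≤ 8 * n * Real.exp Q := mul_le_mul_of_nonneg_left hEQ (by positivity)
    have h5 : I1 + (2 * (n * n)) * I2 ≤ Real.exp Q * (1 + 8 * n) := by linarith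
    calc (1 + q) * I1 + (1 + q) * (2 * (n * n)) * I2 = (1 + q) * (I1 + (2 * (n * n)) * I2) := by ring
      _ ≤ (1 + q) * (Real.exp Q * (1 + 8 * n)) := mul_le_mul_of_nonneg_left h5 (by linarith)
      _ ≤ (1 + n) * (Real.exp Q * (1 + 8 * n)) :=
          mul_le_mul_of_nonneg_right (by linarith) (by positivity)
      _ = Real.exp Q * (1 + (9 + 8 * n) * n) := by ring
      _ ≤ Real.exp Q * (1 + K * n) := by
          refine mul_le_mul_of_nonneg_left ?_ (Real.exp_pos _).le
          have : (9 + 8 * n) * n ≤ K * n := mul_le_mul_of_nonneg_right (by linarith) hn0.le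
          linarith
  · have step : ∫ x, Real.exp (∑ p ∈ prm u v, H p x) * (GB β N u v Y x * EB N u v Y x) ∂mu ≤
        (2 * n) * (∫ x, Real.exp (∑ p ∈ prm u v, H p x) * Real.exp (β * (AB u v Y x).re) ∂mu) +
        (2 * (n * n * (n * n))) * (∫ x, Real.exp (∑ p ∈ prm u v, H p x) * Real.exp (23 * ‖AB u v Y x‖) ∂mu) +
        (4 * (n * n) * n) * (∫ x, Real.exp (∑ p ∈ prm u v, H p x) * Real.exp (22 * ‖AB u v Y x‖) ∂mu) +
        (4 * (n * n) * (n * n * (n * n))) *
          (∫ x, Real.exp (∑ p ∈ prm u v, H p x) * Real.exp (44 * ‖AB u v Y x‖) ∂mu) := by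
      have i1 := hIβ.const_mul (2 * n)
      have i2 := (hIc 23).const_mul (2 * (n * n * (n * n)))
      have i3 := (hIc 22).const_mul (4 * (n * n) * n)
      have i4 := (hIc 44).const_mul (4 * (n * n) * (n * n * (n * n)))
      rw [← integral_const_mul, ← integral_const_mul, ← integral_const_mul, ← integral_const_mul]
      have e1 := integral_add i1 i2
      have e2 := integral_add (i1.add i2) i3
      have e3 := integral_add ((i1.add i2).add i3) i4
      simp only [Pi.add_apply] at e1 e2 e3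
      rw [← e1, ← e2, ← e3]
      refine integral_mono ?_ (((i1.add i2).add i3).add i4) ?_
      · exact integrable_of_continuous (hWc.mul (hGBc.mul hEBc))
      · intro x
        simp only [Pi.add_apply]
        set r : ℝ := ‖AB u v Y x‖ with hr
        set W : ℝ := Real.exp (∑ p ∈ prm u v, H p x) with hW
        have hW0 : 0 ≤ W := (Real.exp_pos _).le
        have g1 := hGBx x
        have g2 := hEBx x
        rw [← hr] at g1 g2
        set ex : ℝ := Real.exp (β * (AB u v Y x).re) with hex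
        have hex0 : 0 < ex := Real.exp_pos _
        have g3 : ex * Real.exp (22 * r) ≤ Real.exp (23 * r) := by
          rw [hex, ← Real.exp_add]
          apply Real.exp_le_exp.2
          have h1 : β * (AB u v Y x).re ≤ r := by
            refine (le_abs_self _).trans ?_
            rw [abs_mul]
            calc |β| * |(AB u v Y x).re| ≤ 1 * ‖AB u v Y x‖ :=
                  mul_le_mul hβ (Complex.abs_re_le_norm _) (abs_nonneg _) (by norm_num)
              _ = r := one_mul _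
          linarith
        have g4 : Real.exp (22 * r) * Real.exp (22 * r) = Real.exp (44 * r) := by
          rw [← Real.exp_add]
          congr 1
          ring
        have he0 : 0 < Real.exp (22 * r) := Real.exp_pos _
        have hb0 : 0 ≤ n + n * n * (n * n) * Real.exp (22 * r) := by positivity
        have ha0 : 0 ≤ ex + 2 * (n * n) * Real.exp (22 * r) := by positivity
        calc W * (GB β N u v Y x * EB N u v Y x)
            ≤ W * (((1 + q) * (ex + 2 * (n * n) * Real.exp (22 * r))) *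
                (n + n * n * (n * n) * Real.exp (22 * r))) := by
              refine mul_le_mul_of_nonneg_left ?_ hW0
              refine (mul_le_mul_of_nonneg_left g2 (hGB0 x)).trans ?_
              exact mul_le_mul_of_nonneg_right g1 hb0
          _ ≤ W * ((2 * (ex + 2 * (n * n) * Real.exp (22 * r))) *
                (n + n * n * (n * n) * Real.exp (22 * r))) := by
              refine mul_le_mul_of_nonneg_left ?_ hW0
              refine mul_le_mul_of_nonneg_right ?_ hb0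
              exact mul_le_mul_of_nonneg_right (by linarith) ha0
          _ = 2 * n * (W * ex) + 2 * (n * n * (n * n)) * (W * (ex * Real.exp (22 * r))) +
                4 * (n * n) * n * (W * Real.exp (22 * r)) +
                4 * (n * n) * (n * n * (n * n)) * (W * (Real.exp (22 * r) * Real.exp (22 * r))) := by ring
          _ ≤ 2 * n * (W * ex) + 2 * (n * n * (n * n)) * (W * Real.exp (23 * r)) +
                4 * (n * n) * n * (W * Real.exp (22 * r)) +
                4 * (n * n) * (n * n * (n * n)) * (W * Real.exp (44 * r)) := by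
              rw [g4]
              gcongr
    refine step.trans ?_
    set I1 : ℝ := ∫ x, Real.exp (∑ p ∈ prm u v, H p x) * Real.exp (β * (AB u v Y x).re) ∂mu with hI1
    set I2 : ℝ := ∫ x, Real.exp (∑ p ∈ prm u v, H p x) * Real.exp (22 * ‖AB u v Y x‖) ∂mu with hI2
    set I3 : ℝ := ∫ x, Real.exp (∑ p ∈ prm u v, H p x) * Real.exp (23 * ‖AB u v Y x‖) ∂mu with hI3
    set I4 : ℝ := ∫ x, Real.exp (∑ p ∈ prm u v, H p x) * Real.exp (44 * ‖AB u v Y x‖) ∂mu with hI4
    have h2 := hE 22 (by norm_num) (by norm_num)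
    have h3 := hE 23 (by norm_num) (by norm_num)
    have h4 := hE 44 (by norm_num) (by norm_num)
    rw [← hI2] at h2
    rw [← hI3] at h3
    rw [← hI4] at h4
    have k2 : n * I2 ≤ 4 := by nlinarith
    have k3 : n * I3 ≤ 4 := by nlinarith
    have k4 : n * I4 ≤ 4 := by nlinarith
    have hnn : n * n ≤ n := by nlinarith
    have hnnn : n * n * n ≤ n := by nlinarith
    have m1 : 2 * n * I1 ≤ 2 * n * Real.exp Q := mul_le_mul_of_nonneg_left hB (by positivity)
    have m3 : 2 * (n * n * (n * n)) * I3 ≤ 8 * n := by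
      calc 2 * (n * n * (n * n)) * I3 = 2 * (n * n * n) * (n * I3) := by ring
        _ ≤ 2 * (n * n * n) * 4 := mul_le_mul_of_nonneg_left k3 (by positivity)
        _ ≤ 8 * n := by linarith
    have m2 : 4 * (n * n) * n * I2 ≤ 16 * n := by
      calc 4 * (n * n) * n * I2 = 4 * (n * n) * (n * I2) := by ring
        _ ≤ 4 * (n * n) * 4 := mul_le_mul_of_nonneg_left k2 (by positivity)
        _ ≤ 16 * n := by linarith
    have m4 : 4 * (n * n) * (n * n * (n * n)) * I4 ≤ 16 * n := by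
      have h5 : n * n * (n * n * n) ≤ n := by
        calc n * n * (n * n * n) ≤ n * (n * n * n) := mul_le_mul_of_nonneg_right hnn (by positivity)
          _ ≤ n * n := mul_le_mul_of_nonneg_left hnnn hn0.le
          _ ≤ n := hnn
      calc 4 * (n * n) * (n * n * (n * n)) * I4 = 4 * (n * n * (n * n * n)) * (n * I4) := by ring
        _ ≤ 4 * (n * n * (n * n * n)) * 4 := mul_le_mul_of_nonneg_left k4 (by positivity)
        _ ≤ 16 * n := by linarith
    have hne : n ≤ n * Real.exp Q := le_mul_of_one_le_right hn0.le hEQ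
    have hKn : 42 * (n * Real.exp Q) ≤ K * (n * Real.exp Q) :=
      mul_le_mul_of_nonneg_right (by linarith) (by positivity)
    calc 2 * n * I1 + 2 * (n * n * (n * n)) * I3 + 4 * (n * n) * n * I2 +
          4 * (n * n) * (n * n * (n * n)) * I4 ≤ 2 * n * Real.exp Q + 8 * n + 16 * n + 16 * n := by linarith
      _ ≤ 42 * (n * Real.exp Q) := by linarith
      _ ≤ K * (n * Real.exp Q) := hKn
      _ = Real.exp Q * (K * n) := by ring

end Pool.Agent.LibPW
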