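import Mathlib
import Pool.Agent.LibPW.Defs
import Pool.Agent.LibPH45.PH_01
import Pool.Agent.LibPH45.PH_02
import Pool.Agent.LibPH45.PH_03
import Pool.Agent.LibPH45.PH_04

/-! ROW 08. `PB_close`: as PH_04 `phase_pointwise` (there `u = 1`, `AB 1 y Y = AY y Y`): La_close summed over `prm u v` (at most `v`
primes) and exp_taylor with `2N`, `|Im A| ≤ ‖A‖`. `conj_uu_blocks`: conj_uu, `prm 1 (v n)` is the disjoint union of the `prm (v i) (v (i+1))`
(`v 0 = 1`, `v` monotone), `XX (v n) = ∑ XB`. `prod_close2`: induction on `n`: `D_{n+1} ≤ D_n (1 + e n) + e n`. -/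

set_option autoImplicit false

namespace Pool.Agent.LibPW

open MeasureTheory Filter Topology Pool.Agent.LibMM99 Pool.Agent.LibTG78 Pool.Agent.LibPH45
open scoped ComplexConjugate

theorem pw08_mem {u v : ℝ} {p : ℕ} : p ∈ prm u v ↔ p.Prime ∧ u < (p : ℝ) ∧ (p : ℝ) ≤ v := by
  unfold prm
  rw [Finset.mem_filter, Finset.mem_Icc]
  constructor
  · rintro ⟨⟨h1, h2⟩, h3, h4⟩
    refine ⟨h3, h4, ?_⟩
    have hv : 0 < ⌊v⌋₊ := lt_of_lt_of_le (Nat.lt_of_lt_of_le Nat.zero_lt_one h1) h2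
    exact (Nat.le_floor_iff' (by omega)).1 h2
  · rintro ⟨h1, h2, h3⟩
    exact ⟨⟨h1.one_lt.le, Nat.le_floor h3⟩, h1, h2⟩

theorem pw08_card {u v : ℝ} (hv : 0 ≤ v) : ((prm u v).card : ℝ) ≤ v := by
  have h1 : prm u v ⊆ Finset.Icc 1 ⌊v⌋₊ := by
    intro p hp
    obtain ⟨h2, -, h3⟩ := pw08_mem.1 hp
    exact Finset.mem_Icc.2 ⟨h2.one_lt.le, Nat.le_floor h3⟩
  calc ((prm u v).card : ℝ) ≤ ((Finset.Icc 1 ⌊v⌋₊).card : ℝ) := by
        exact_mod_cast Finset.card_le_card h1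
    _ = (⌊v⌋₊ : ℝ) := by rw [Nat.card_Icc, Nat.add_sub_cancel]
    _ ≤ v := Nat.floor_le hv

theorem pw08_norm_exp (a : ℝ) : ‖Complex.exp (-(Complex.I * (a : ℂ)))‖ = 1 := by
  rw [Complex.norm_exp]
  simp

theorem pw08_exp (a b : ℝ) : ‖Complex.exp (-(Complex.I * (a : ℂ))) - Complex.exp (-(Complex.I * (b : ℂ)))‖ ≤
    |a - b| := by
  have h1 := Pool.Agent.LibPH45.exp_taylor (a - b) 1
  rw [Finset.sum_range_one, pow_zero, Nat.factorial_zero, Nat.cast_one, div_one, Nat.factorial_one,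
    Nat.cast_one, div_one, pow_one] at h1
  have h2 : Complex.exp (-(Complex.I * (a : ℂ))) - Complex.exp (-(Complex.I * (b : ℂ))) =
      Complex.exp (-(Complex.I * (b : ℂ))) * (Complex.exp (-(Complex.I * ((a - b : ℝ) : ℂ))) - 1) := by
    rw [mul_sub, ← Complex.exp_add, mul_one]
    congr 2
    push_cast
    ring
  rw [h2, norm_mul, pw08_norm_exp, one_mul]
  exact h1

theorem PB_close {u v Y : ℝ} (hv : 1 ≤ v) (hY : 1 ≤ Y) (N : ℕ) (x : Om) :
    ‖Complex.exp (-(Complex.I * ((XB u v x : ℝ) : ℂ))) - PB N u v Y x‖ ≤ EB N u v Y x := by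
  have hY0 : 0 < Real.sqrt Y := Real.sqrt_pos.2 (by linarith)
  have h1 : ‖Complex.exp (-(Complex.I * ((XB u v x : ℝ) : ℂ))) -
      Complex.exp (-(Complex.I * (((AB u v Y x).im : ℝ) : ℂ)))‖ ≤ 4 * v / Real.sqrt Y := by
    refine (pw08_exp _ _).trans ?_
    have h2 : XB u v x - (AB u v Y x).im = ∑ p ∈ prm u v, (Xp p x - (La Y p x).im) := by
      rw [XB, AB, Complex.im_sum, Finset.sum_sub_distrib]
    rw [h2]
    calc |∑ p ∈ prm u v, (Xp p x - (La Y p x).im)| ≤ ∑ p ∈ prm u v, |Xp p x - (La Y p x).im| :=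
          Finset.abs_sum_le_sum_abs _ _
      _ ≤ ∑ _p ∈ prm u v, 4 / Real.sqrt Y :=
          Finset.sum_le_sum fun p hp => La_close (pw08_mem.1 hp).1 hY x
      _ = ((prm u v).card : ℝ) * (4 / Real.sqrt Y) := by rw [Finset.sum_const, nsmul_eq_mul]
      _ ≤ v * (4 / Real.sqrt Y) := mul_le_mul_of_nonneg_right (pw08_card (by linarith)) (by positivity)
      _ = 4 * v / Real.sqrt Y := by ring
  have h3 : ‖Complex.exp (-(Complex.I * (((AB u v Y x).im : ℝ) : ℂ))) - PB N u v Y x‖ ≤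
      ‖AB u v Y x‖ ^ (2 * N) / ((2 * N).factorial : ℝ) := by
    refine (Pool.Agent.LibPH45.exp_taylor _ (2 * N)).trans ?_
    have h4 : |(AB u v Y x).im| ≤ ‖AB u v Y x‖ := Complex.abs_im_le_norm _
    gcongr
  calc ‖Complex.exp (-(Complex.I * ((XB u v x : ℝ) : ℂ))) - PB N u v Y x‖
      ≤ ‖Complex.exp (-(Complex.I * ((XB u v x : ℝ) : ℂ))) -
          Complex.exp (-(Complex.I * (((AB u v Y x).im : ℝ) : ℂ)))‖ +
        ‖Complex.exp (-(Complex.I * (((AB u v Y x).im : ℝ) : ℂ))) - PB N u v Y x‖ :=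
        norm_sub_le_norm_sub_add_norm_sub _ _ _
    _ ≤ 4 * v / Real.sqrt Y + ‖AB u v Y x‖ ^ (2 * N) / ((2 * N).factorial : ℝ) := add_le_add h1 h3
    _ = EB N u v Y x := rfl

theorem sum_blocks {E : Type} [AddCommMonoid E] (f : ℕ → E) {v : ℕ → ℝ} (h0 : v 0 = 1) (hv : Monotone v) (n : ℕ) :
    ∑ p ∈ prm 1 (v n), f p = ∑ i ∈ Finset.range n, ∑ p ∈ prm (v i) (v (i + 1)), f p := by
  classical
  induction n with
  | zero =>
    rw [Finset.sum_range_zero, h0]
    have h1 : prm 1 (1 : ℝ) = ∅ := by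
      refine Finset.eq_empty_of_forall_notMem fun p hp => ?_
      obtain ⟨-, h2, h3⟩ := pw08_mem.1 hp
      exact absurd h2 (not_lt.2 h3)
    rw [h1, Finset.sum_empty]
  | succ n ih =>
    rw [Finset.sum_range_succ, ← ih]
    have h1 : 1 ≤ v n := h0 ▸ hv (Nat.zero_le n)
    have h2 : v n ≤ v (n + 1) := hv (Nat.le_succ n)
    have h3 : prm 1 (v (n + 1)) = prm 1 (v n) ∪ prm (v n) (v (n + 1)) := by
      ext p
      rw [Finset.mem_union, pw08_mem, pw08_mem, pw08_mem]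
      constructor
      · rintro ⟨h4, h5, h6⟩
        rcases le_or_gt (p : ℝ) (v n) with h7 | h7
        · exact Or.inl ⟨h4, h5, h7⟩
        · exact Or.inr ⟨h4, h7, h6⟩
      · rintro (⟨h4, h5, h6⟩ | ⟨h4, h5, h6⟩)
        · exact ⟨h4, h5, h6.trans h2⟩
        · exact ⟨h4, h1.trans_lt h5, h6⟩
    rw [h3, Finset.sum_union]
    rw [Finset.disjoint_left]
    intro p hp hq
    exact absurd (pw08_mem.1 hp).2.2 (not_le.2 (pw08_mem.1 hq).2.1)

theorem conj_uu_blocks {v : ℕ → ℝ} (h0 : v 0 = 1) (hv : Monotone v) (n : ℕ) (x : Om) :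
    conj (uu (v n) x) = ∏ i ∈ Finset.range n, Complex.exp (-(Complex.I * ((XB (v i) (v (i + 1)) x : ℝ) : ℂ))) := by
  rw [conj_uu, ← Complex.exp_sum]
  congr 1
  have h1 : XX (v n) x = ∑ i ∈ Finset.range n, XB (v i) (v (i + 1)) x := by
    unfold XX XB
    exact sum_blocks (fun p => Xp p x) h0 hv n
  rw [h1, Complex.ofReal_sum, Finset.mul_sum, ← Finset.sum_neg_distrib]

theorem prod_close2 (n : ℕ) (a b : ℕ → ℂ) (e : ℕ → ℝ) (ha : ∀ i < n, ‖a i‖ ≤ 1) (he : ∀ i < n, ‖a i - b i‖ ≤ e i) :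
    ‖(∏ i ∈ Finset.range n, a i) - ∏ i ∈ Finset.range n, b i‖ ≤ (∏ i ∈ Finset.range n, (1 + e i)) - 1 := by
  have key : ∀ m : ℕ, m ≤ n → (‖(∏ i ∈ Finset.range m, a i) - ∏ i ∈ Finset.range m, b i‖ ≤
      (∏ i ∈ Finset.range m, (1 + e i)) - 1 ∧ ‖∏ i ∈ Finset.range m, b i‖ ≤ ∏ i ∈ Finset.range m, (1 + e i)) := by
    intro m
    induction m with
    | zero => intro _; simp
    | succ m ih =>
      intro hm
      obtain ⟨h1, h2⟩ := ih (by omega)
      have h3 := ha m (by omega)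
      have h4 := he m (by omega)
      have h5 : ‖b m‖ ≤ 1 + e m := by
        have : b m = a m - (a m - b m) := by ring
        rw [this]
        exact (norm_sub_le _ _).trans (add_le_add h3 h4)
      rw [Finset.prod_range_succ, Finset.prod_range_succ, Finset.prod_range_succ]
      have h0 : 0 ≤ e m := (norm_nonneg _).trans h4
      constructor
      · have h6 : (∏ i ∈ Finset.range m, a i) * a m - (∏ i ∈ Finset.range m, b i) * b m =
            ((∏ i ∈ Finset.range m, a i) - ∏ i ∈ Finset.range m, b i) * a m +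
              (∏ i ∈ Finset.range m, b i) * (a m - b m) := by ring
        rw [h6]
        calc ‖((∏ i ∈ Finset.range m, a i) - ∏ i ∈ Finset.range m, b i) * a m +
              (∏ i ∈ Finset.range m, b i) * (a m - b m)‖
            ≤ ‖(∏ i ∈ Finset.range m, a i) - ∏ i ∈ Finset.range m, b i‖ * ‖a m‖ +
              ‖∏ i ∈ Finset.range m, b i‖ * ‖a m - b m‖ := by
              refine (norm_add_le _ _).trans ?_
              rw [norm_mul, norm_mul]
          _ ≤ ((∏ i ∈ Finset.range m, (1 + e i)) - 1) * 1 + (∏ i ∈ Finset.range m, (1 + e i)) * e m := by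
              refine add_le_add ?_ ?_
              · exact mul_le_mul h1 h3 (norm_nonneg _) ((norm_nonneg _).trans h1)
              · exact mul_le_mul h2 h4 (norm_nonneg _) ((norm_nonneg _).trans h2)
          _ = (∏ i ∈ Finset.range m, (1 + e i)) * (1 + e m) - 1 := by ring
      · rw [norm_mul]
        exact mul_le_mul h2 h5 (norm_nonneg _) ((norm_nonneg _).trans h2)
  exact (key n le_rfl).1

theorem PP_close {K : ℝ} {v Y : ℕ → ℝ} {N : ℕ → ℕ} {n : ℕ} (h : Chain K v Y N n) (x : Om) :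
    ‖conj (uu (v n) x) - PP v Y N n x‖ ≤ EE v Y N n x := by
  rw [conj_uu_blocks h.zero h.mono]
  unfold PP EE
  refine prod_close2 n _ _ (fun i => EB (N i) (v i) (v (i + 1)) (Y i) x) (fun i _ => (pw08_norm_exp _).le) ?_
  intro i hi
  have h1 : 3 ≤ v (i + 1) := h.three i hi
  have h2 := h.sq i hi
  exact PB_close (by linarith) (by nlinarith) (N i) x

end Pool.Agent.LibPW
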