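import Mathlib
import Pool.Agent.LibPW.Defs
import Pool.Agent.LibPH45.PH_05

/-! ROW 09: polynomials. `AB_poly` as PH_05 `AY_poly` (there `u = 1`). `‖AB‖^{2N}`: IsPoly.normPow (length `2 N log Y`). `PB`: as `PhN_poly`
with `2N`. `Ex (2N) (β Re AB)`, `|β| ≤ 1`: `Re AB` is IsPolyR `(log Y + 1)` (IsPoly.re), powers (IsPoly.pow), sum of `2N+1` terms
(IsPoly.sum), each with a coefficient of modulus at most 1. Constants `(1+5^{-N})`, `(4/N)^{2N} ≤ 4^{2N} ≤ e^{3N}`, `1/(2N)!`,
`4v/√Y ≤ 4 ≤ e^2` (`v² ≤ Y`). -/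

set_option autoImplicit false

namespace Pool.Agent.LibPW

open MeasureTheory Filter Topology Pool.Agent.LibMM99 Pool.Agent.LibTG78 Pool.Agent.LibPH45
open scoped ComplexConjugate

theorem pw09_mem {u v : ℝ} {p : ℕ} : p ∈ prm u v ↔ p.Prime ∧ u < (p : ℝ) ∧ (p : ℝ) ≤ v := by
  unfold prm
  rw [Finset.mem_filter, Finset.mem_Icc]
  constructor
  · rintro ⟨⟨h1, h2⟩, h3, h4⟩
    refine ⟨h3, h4, ?_⟩
    have hv : 0 < ⌊v⌋₊ := lt_of_lt_of_le (Nat.lt_of_lt_of_le Nat.zero_lt_one h1) h2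
    exact (Nat.le_floor_iff' (by omega)).1 h2
  · rintro ⟨h1, h2, h3⟩
    exact ⟨⟨h1.one_lt.le, Nat.le_floor h3⟩, h1, h2⟩

/-- a two sided polynomial indexed by an arbitrary finite family -/
theorem pw09_of_sum {ι : Type*} (s : Finset ι) (n m : ι → ℕ) (c : ι → ℂ) {a : ℝ} {Φ : Om → ℂ}
    (h1 : ∀ i ∈ s, 1 ≤ n i ∧ 1 ≤ m i ∧ (n i : ℝ) ≤ Real.exp a ∧ (m i : ℝ) ≤ Real.exp a)
    (h2 : ∑ i ∈ s, ‖c i‖ ≤ Real.exp a)
    (h3 : ∀ x, Φ x = ∑ i ∈ s, c i * ch x (n i) * conj (ch x (m i))) : IsPoly a Φ := by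
  classical
  refine ⟨s.image fun i => (n i, m i), fun q => ∑ i ∈ s with (n i, m i) = q, c i, ?_, ?_, ?_⟩
  · intro q hq
    obtain ⟨i, hi, rfl⟩ := Finset.mem_image.1 hq
    exact h1 i hi
  · refine le_trans ?_ h2
    rw [← Finset.sum_fiberwise_of_maps_to (s := s) (t := s.image fun i => (n i, m i))
      (g := fun i => (n i, m i)) (fun i hi => Finset.mem_image_of_mem _ hi) (fun i => ‖c i‖)]
    exact Finset.sum_le_sum fun q _ => norm_sum_le _ _
  · intro x
    rw [h3 x, ← Finset.sum_fiberwise_of_maps_to (s := s) (t := s.image fun i => (n i, m i))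
      (g := fun i => (n i, m i)) (fun i hi => Finset.mem_image_of_mem _ hi)]
    apply Finset.sum_congr rfl
    intro q _
    rw [Finset.sum_mul, Finset.sum_mul]
    apply Finset.sum_congr rfl
    intro i hi
    obtain ⟨_, rfl⟩ := Finset.mem_filter.1 hi
    rfl

theorem pw09_geom (r : ℝ) (J : ℕ) : (1 - r) * ∑ j ∈ Finset.Icc 1 J, r ^ j = r * (1 - r ^ J) := by
  induction J with
  | zero => simp
  | succ J ih =>
    rw [Finset.sum_Icc_succ_top (by omega), mul_add, ih]
    ring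

theorem pw09_norm {p : ℕ} (hp : p.Prime) : ‖zp 0 p‖ ≤ 71 / 100 := by
  have h1 := norm_zp_zero hp
  have h2 : ((p : ℝ))⁻¹ ≤ 1 / 2 := by
    rw [inv_eq_one_div]
    exact one_div_le_one_div_of_le (by norm_num) (by exact_mod_cast hp.two_le)
  refine abs_le_of_sq_le_sq' ?_ (by norm_num) |>.2
  rw [h1]
  norm_num
  linarith

theorem pw09_inner {p : ℕ} (hp : p.Prime) (J : ℕ) : ∑ j ∈ Finset.Icc 1 J, ‖zp 0 p ^ j / (j : ℂ)‖ ≤ 5 / 2 := by
  have hr := pw09_norm hp
  have hr0 : 0 ≤ ‖zp 0 p‖ := norm_nonneg _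
  have h1 : ∑ j ∈ Finset.Icc 1 J, ‖zp 0 p ^ j / (j : ℂ)‖ ≤ ∑ j ∈ Finset.Icc 1 J, ‖zp 0 p‖ ^ j := by
    refine Finset.sum_le_sum fun j hj => ?_
    have hj1 : (1 : ℝ) ≤ j := by exact_mod_cast (Finset.mem_Icc.1 hj).1
    rw [norm_div, norm_pow, Complex.norm_natCast]
    exact div_le_self (by positivity) hj1
  refine h1.trans ?_
  have h2 := pw09_geom ‖zp 0 p‖ J
  have h3 : ‖zp 0 p‖ * (1 - ‖zp 0 p‖ ^ J) ≤ ‖zp 0 p‖ * 1 :=
    mul_le_mul_of_nonneg_left (by have : 0 ≤ ‖zp 0 p‖ ^ J := by positivity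
                                  linarith) hr0
  have h4 : 0 ≤ ∑ j ∈ Finset.Icc 1 J, ‖zp 0 p‖ ^ j := Finset.sum_nonneg fun j _ => by positivity
  nlinarith

theorem AB_poly {u v Y : ℝ} (hu : 1 ≤ u) (hv : 3 ≤ v) (hY : v ^ 2 ≤ Y) :
    IsPoly (Real.log Y) (AB u v Y) ∧ DependsOn (AB u v Y) (coo u v) := by
  have hY9 : 9 ≤ Y := by nlinarith
  have hY0 : 0 < Y := by linarith
  constructor
  · refine pw09_of_sum ((prm u v).sigma fun p => Finset.Icc 1 (Nat.log p ⌊Y⌋₊)) (fun i => i.1 ^ i.2) (fun _ => 1)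
      (fun i => zp 0 i.1 ^ i.2 / (i.2 : ℂ)) ?_ ?_ ?_
    · rintro ⟨p, j⟩ hi
      rw [Finset.mem_sigma] at hi
      obtain ⟨h1, h2⟩ := hi
      dsimp only at h1 h2 ⊢
      rw [Finset.mem_Icc] at h2
      have hp := (pw09_mem.1 h1).1
      rw [Real.exp_log hY0]
      refine ⟨Nat.one_le_pow _ _ hp.pos, le_rfl, ?_, by push_cast; linarith⟩
      have h3 : p ^ j ≤ ⌊Y⌋₊ := by
        have hfl : ⌊Y⌋₊ ≠ 0 := by
          have : 1 ≤ ⌊Y⌋₊ := Nat.le_floor (by push_cast; linarith)
          omega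
        exact (Nat.pow_le_pow_right hp.pos h2.2).trans (Nat.pow_log_le_self p hfl)
      exact (Nat.cast_le.2 h3).trans (Nat.floor_le hY0.le)
    · rw [Finset.sum_sigma, Real.exp_log hY0]
      calc ∑ p ∈ prm u v, ∑ j ∈ Finset.Icc 1 (Nat.log p ⌊Y⌋₊), ‖zp 0 p ^ j / (j : ℂ)‖
          ≤ ∑ p ∈ prm u v, (5 / 2 : ℝ) := Finset.sum_le_sum fun p hp => pw09_inner (pw09_mem.1 hp).1 _
        _ = (prm u v).card * (5 / 2) := by rw [Finset.sum_const, nsmul_eq_mul]
        _ ≤ v * (5 / 2) := by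
            refine mul_le_mul_of_nonneg_right ?_ (by norm_num)
            have h1 : (prm u v).card ≤ ⌊v⌋₊ := by
              unfold prm
              refine (Finset.card_filter_le _ _).trans ?_
              simp
            calc ((prm u v).card : ℝ) ≤ (⌊v⌋₊ : ℝ) := by exact_mod_cast h1
              _ ≤ v := Nat.floor_le (by linarith)
        _ ≤ Y := by nlinarith
    · intro x
      rw [Finset.sum_sigma]
      unfold AB La
      refine Finset.sum_congr rfl fun p hp => Finset.sum_congr rfl fun j _ => ?_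
      dsimp only
      rw [D2a_ch_pow x (pw09_mem.1 hp).1 j, ch_one, map_one, mul_one]
      unfold wp
      rw [mul_pow]
      ring
  · intro x x' hxy
    unfold AB La wp
    refine Finset.sum_congr rfl fun p hp => Finset.sum_congr rfl fun j _ => ?_
    obtain ⟨h1, h2, h3⟩ := pw09_mem.1 hp
    have h4 : ch x p = ch x' p := dependsOn_ch p (fun i hi => hxy i (by
      rw [h1.primeFactors] at hi
      have : i = p := by simpa using hi
      rw [this]
      exact ⟨h2, h3⟩))
    rw [h4]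

theorem PB_poly {u v Y : ℝ} (hu : 1 ≤ u) (hv : 3 ≤ v) (hY : v ^ 2 ≤ Y) (N : ℕ) :
    IsPoly (20 * N * (Real.log Y + 1)) (PB N u v Y) ∧ DependsOn (PB N u v Y) (coo u v) := by
  obtain ⟨h1, h2⟩ := AB_poly hu hv hY
  have hY9 : 9 ≤ Y := by nlinarith
  have hlog : 0 ≤ Real.log Y := Real.log_nonneg (by linarith)
  constructor
  · have hB : IsPoly (Real.log Y + 1) (fun x => -(Complex.I * (((AB u v Y x).im : ℝ) : ℂ))) := by
      have h3 := (Pool.Agent.LibMM99.IsPoly.const (1 / 2 : ℂ) (a := 0) le_rfl (by norm_num)).mul (h1.conj.sub h1)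
      have e : (fun x => -(Complex.I * (((AB u v Y x).im : ℝ) : ℂ))) =
          fun x => (1 / 2 : ℂ) * ((starRingEnd ℂ) (AB u v Y x) - AB u v Y x) := by
        funext x
        apply Complex.ext
        · simp
        · simp
          ring
      rw [e]
      rw [zero_add] at h3
      exact h3
    have h4 := Pool.Agent.LibMM99.IsPoly.sum (Finset.range (2 * N)) (a := ((2 * N : ℕ) : ℝ) * (Real.log Y + 1))
      (fun n x => (1 / (n.factorial : ℂ)) * (-(Complex.I * (((AB u v Y x).im : ℝ) : ℂ))) ^ n) (fun n hn => by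
        have hn' : n < 2 * N := Finset.mem_range.1 hn
        have h5 := (Pool.Agent.LibMM99.IsPoly.const (1 / (n.factorial : ℂ)) (a := 0) le_rfl (by
          rw [norm_div, norm_one, Complex.norm_natCast, Real.exp_zero]
          refine div_le_one_of_le₀ ?_ (by positivity)
          exact_mod_cast Nat.one_le_iff_ne_zero.2 (Nat.factorial_ne_zero n))).mul (hB.pow n)
        rw [zero_add] at h5
        refine h5.mono ?_
        refine mul_le_mul_of_nonneg_right ?_ (by linarith)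
        exact_mod_cast hn'.le)
    rw [Finset.card_range] at h4
    have e : PB N u v Y = fun x => ∑ n ∈ Finset.range (2 * N),
        (1 / (n.factorial : ℂ)) * (-(Complex.I * (((AB u v Y x).im : ℝ) : ℂ))) ^ n := by
      funext x
      unfold PB
      exact Finset.sum_congr rfl fun n _ => by ring
    rw [e]
    refine h4.mono ?_
    push_cast
    have hN : (0 : ℝ) ≤ N := Nat.cast_nonneg N
    nlinarith [mul_nonneg hN hlog]
  · intro x x' hxy
    unfold PB
    rw [h2 hxy]

theorem pw09_two_le_exp : (2 : ℝ) ≤ Real.exp 1 := by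
  have := Real.add_one_le_exp (1 : ℝ)
  linarith

theorem pw09_four_le_exp : (4 : ℝ) ≤ Real.exp 2 := by
  have h1 : Real.exp 2 = Real.exp 1 * Real.exp 1 := by
    rw [← Real.exp_add]
    norm_num
  have h2 := pw09_two_le_exp
  rw [h1]
  nlinarith

theorem EB_poly {u v Y : ℝ} (hu : 1 ≤ u) (hv : 3 ≤ v) (hY : v ^ 2 ≤ Y) {N : ℕ} (hN : 1 ≤ N) :
    IsPolyR (20 * N * (Real.log Y + 1)) (fun x => 1 + EB N u v Y x) ∧ DependsOn (EB N u v Y) (coo u v) ∧
      ∀ x, 0 ≤ EB N u v Y x := by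
  obtain ⟨h1, h2⟩ := AB_poly hu hv hY
  have hY9 : 9 ≤ Y := by nlinarith
  have hlog : 0 ≤ Real.log Y := Real.log_nonneg (by linarith)
  have hv0 : 0 ≤ v := by linarith
  have hN1 : (1 : ℝ) ≤ N := by exact_mod_cast hN
  have hs : v ≤ Real.sqrt Y := Real.le_sqrt_of_sq_le hY
  have hs0 : 0 < Real.sqrt Y := by linarith
  refine ⟨?_, ?_, ?_⟩
  · set a : ℝ := 2 * N * Real.log Y + 2 with ha
    have ha2 : 2 ≤ a := by
      have : 0 ≤ 2 * (N : ℝ) * Real.log Y := by positivity
      linarith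
    have h3 : IsPolyR a (fun _ => 4 * v / Real.sqrt Y) := by
      refine IsPolyR.const _ (by linarith) ?_
      rw [abs_of_nonneg (by positivity)]
      calc 4 * v / Real.sqrt Y ≤ 4 := by
            rw [div_le_iff₀ hs0]
            linarith
        _ ≤ Real.exp 2 := pw09_four_le_exp
        _ ≤ Real.exp a := Real.exp_le_exp.2 ha2
    have h4 : IsPolyR a (fun x => ‖AB u v Y x‖ ^ (2 * N) / ((2 * N).factorial : ℝ)) := by
      have h5 := h1.normPow N
      have hf1 : (1 : ℝ) ≤ ((2 * N).factorial : ℝ) := by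
        exact_mod_cast Nat.one_le_iff_ne_zero.2 (Nat.factorial_ne_zero (2 * N))
      have h6 := (IsPolyR.const (1 / ((2 * N).factorial : ℝ)) (a := 0) le_rfl (by
        rw [abs_of_nonneg (by positivity), Real.exp_zero]
        exact div_le_one_of_le₀ hf1 (by positivity))).mul h5
      have e : (fun x => ‖AB u v Y x‖ ^ (2 * N) / ((2 * N).factorial : ℝ)) =
          fun x => 1 / ((2 * N).factorial : ℝ) * ‖AB u v Y x‖ ^ (2 * N) := by
        funext x
        ring
      rw [e]
      exact h6.mono (by linarith)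
    have h7 : IsPolyR (a + 1) (fun _ => (1 : ℝ)) := by
      refine IsPolyR.const _ (by linarith) ?_
      rw [abs_one]
      exact Real.one_le_exp (by linarith)
    have h8 := h7.add (h3.add h4)
    have e : (fun x => 1 + EB N u v Y x) =
        fun x => 1 + (4 * v / Real.sqrt Y + ‖AB u v Y x‖ ^ (2 * N) / ((2 * N).factorial : ℝ)) := rfl
    rw [e]
    refine h8.mono ?_
    have h9 : 0 ≤ (N : ℝ) * Real.log Y := by positivity
    rw [ha]
    nlinarith
  · intro x x' hxy
    unfold EB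
    rw [h2 hxy]
  · intro x
    unfold EB
    positivity

theorem GB_poly {β u v Y : ℝ} (hβ : |β| ≤ 1) (hu : 1 ≤ u) (hv : 3 ≤ v) (hY : v ^ 2 ≤ Y) {N : ℕ} (hN : 1 ≤ N) :
    IsPolyR (20 * N * (Real.log Y + 1)) (GB β N u v Y) ∧ DependsOn (GB β N u v Y) (coo u v) := by
  obtain ⟨h1, h2⟩ := AB_poly hu hv hY
  have hY9 : 9 ≤ Y := by nlinarith
  have hlog : 0 ≤ Real.log Y := Real.log_nonneg (by linarith)
  have hN1 : (1 : ℝ) ≤ N := by exact_mod_cast hN
  refine ⟨?_, ?_⟩
  · set L : ℝ := Real.log Y with hL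
    have hre : IsPolyR (L + 1) (fun x => β * (AB u v Y x).re) := by
      have h3 := (IsPolyR.const β (a := 0) le_rfl (by rw [Real.exp_zero]; exact hβ)).mul h1.re
      rw [zero_add] at h3
      exact h3
    have hpow : ∀ i : ℕ, IsPolyR (i * (L + 1)) (fun x => (β * (AB u v Y x).re) ^ i) := by
      intro i
      have h3 := IsPoly.pow hre i
      unfold IsPolyR
      have e : (fun x => (((β * (AB u v Y x).re) ^ i : ℝ) : ℂ)) =
          fun x => ((β * (AB u v Y x).re : ℝ) : ℂ) ^ i := by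
        funext x
        push_cast
        ring
      rw [e]
      exact h3
    have hsum : IsPolyR (((2 * N : ℕ) : ℝ) * (L + 1) + ((2 * N + 1 : ℕ) : ℝ))
        (fun x => Ex (2 * N) (β * (AB u v Y x).re)) := by
      have h4 := IsPolyR.sum (Finset.range (2 * N + 1)) (a := ((2 * N : ℕ) : ℝ) * (L + 1))
        (fun i x => (1 / (i.factorial : ℝ)) * (β * (AB u v Y x).re) ^ i) (fun i hi => by
          have hi' : i ≤ 2 * N := Nat.lt_succ_iff.1 (Finset.mem_range.1 hi)
          have hf1 : (1 : ℝ) ≤ (i.factorial : ℝ) := by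
            exact_mod_cast Nat.one_le_iff_ne_zero.2 (Nat.factorial_ne_zero i)
          have h5 := (IsPolyR.const (1 / (i.factorial : ℝ)) (a := 0) le_rfl (by
            rw [abs_of_nonneg (by positivity), Real.exp_zero]
            exact div_le_one_of_le₀ hf1 (by positivity))).mul (hpow i)
          rw [zero_add] at h5
          refine h5.mono ?_
          refine mul_le_mul_of_nonneg_right ?_ (by linarith)
          exact_mod_cast hi')
      rw [Finset.card_range] at h4
      have e : (fun x => Ex (2 * N) (β * (AB u v Y x).re)) =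
          fun x => ∑ i ∈ Finset.range (2 * N + 1), (1 / (i.factorial : ℝ)) * (β * (AB u v Y x).re) ^ i := by
        funext x
        unfold Ex
        exact Finset.sum_congr rfl fun i _ => by ring
      rw [e]
      exact h4
    have hnorm : IsPolyR (4 * N + 2 * N * L) (fun x => (4 * ‖AB u v Y x‖ / N) ^ (2 * N)) := by
      have h5 := h1.normPow N
      have h6 := (IsPolyR.const ((4 / (N : ℝ)) ^ (2 * N)) (a := 4 * N) (by positivity) (by
        rw [abs_of_nonneg (by positivity)]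
        have h7 : 4 / (N : ℝ) ≤ Real.exp 2 := (div_le_self (by norm_num) hN1).trans pw09_four_le_exp
        calc (4 / (N : ℝ)) ^ (2 * N) ≤ Real.exp 2 ^ (2 * N) := pow_le_pow_left₀ (by positivity) h7 _
          _ = Real.exp (4 * N) := by
            rw [← Real.exp_nat_mul]
            congr 1
            push_cast
            ring)).mul h5
      have e : (fun x => (4 * ‖AB u v Y x‖ / N) ^ (2 * N)) =
          fun x => (4 / (N : ℝ)) ^ (2 * N) * ‖AB u v Y x‖ ^ (2 * N) := by
        funext x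
        rw [← mul_pow]
        congr 1
        ring
      rw [e]
      exact h6
    have hb0 : 0 ≤ (N : ℝ) * L := by positivity
    set b : ℝ := 2 * N * L + 4 * N + 1 with hb
    have h7 := (hsum.mono (b := b) (by push_cast; rw [hb]; linarith)).add (hnorm.mono (b := b) (by rw [hb]; linarith))
    have h8 := (IsPolyR.const (1 + (1 / 5 : ℝ) ^ N) (a := 1) (by norm_num) (by
      rw [abs_of_nonneg (by positivity)]
      have h9 : (1 / 5 : ℝ) ^ N ≤ 1 := pow_le_one₀ (by norm_num) (by norm_num)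
      linarith [pw09_two_le_exp])).mul h7
    have e : GB β N u v Y = fun x => (1 + (1 / 5 : ℝ) ^ N) *
        (Ex (2 * N) (β * (AB u v Y x).re) + (4 * ‖AB u v Y x‖ / N) ^ (2 * N)) := rfl
    rw [e]
    refine h8.mono ?_
    rw [hb]
    nlinarith
  · intro x x' hxy
    unfold GB
    rw [h2 hxy]

end Pool.Agent.LibPW
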