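import Mathlib
import Pool.Agent.LibPW.PW_02
import Pool.Agent.LibPW.PW_08
import Pool.Agent.LibPW.PW_09

/-! ROW 10: polynomials over all blocks: IsPoly.prod, IsPoly.mul, IsPoly.sub (EE is a product minus 1), DependsOn of products and
`coo (v i) (v (i+1)) ⊆ coo 1 (v n)`. `GG_mul`: Gr_mul in each block (`|Re A| ≤ ‖A‖`, `N i ≥ 1` because `K ≥ 1`), product. -/

set_option autoImplicit false

namespace Pool.Agent.LibPW

open MeasureTheory Filter Topology Pool.Agent.LibMM99 Pool.Agent.LibTG78 Pool.Agent.LibPH45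
open scoped ComplexConjugate

/-- total length -/
noncomputable def len (Y : ℕ → ℝ) (N : ℕ → ℕ) (n : ℕ) : ℝ := ∑ i ∈ Finset.range n, 20 * N i * (Real.log (Y i) + 1)

theorem pw10_one_le {K : ℝ} {v Y : ℕ → ℝ} {N : ℕ → ℕ} {n : ℕ} (h : Chain K v Y N n) (i : ℕ) :
    1 ≤ v i := by
  rw [← h.zero]
  exact h.mono (Nat.zero_le i)

theorem pw10_coo {K : ℝ} {v Y : ℕ → ℝ} {N : ℕ → ℕ} {n : ℕ} (h : Chain K v Y N n) {i : ℕ}
    (hi : i < n) : coo (v i) (v (i + 1)) ⊆ coo 1 (v n) := by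
  intro p hp
  exact ⟨lt_of_le_of_lt (pw10_one_le h i) hp.1, hp.2.trans (h.mono hi)⟩

theorem pw10_N {K : ℝ} (hK : 1 ≤ K) {v Y : ℕ → ℝ} {N : ℕ → ℕ} {n : ℕ} (h : Chain K v Y N n) {i : ℕ}
    (hi : i < n) : 1 ≤ N i := by
  have h1 := h.deg i hi
  have h2 : 0 ≤ Sp (v i) (v (i + 1)) := Finset.sum_nonneg fun p _ => by positivity
  have h3 : (1 : ℝ) ≤ N i := by nlinarith
  exact_mod_cast h3

theorem pw10_dep {ι : Type} (s : Finset ι) {E : Type} [CommMonoid E] (f : ι → Om → E) (S : Set ℕ)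
    (h : ∀ i ∈ s, DependsOn (f i) S) : DependsOn (fun x => ∏ i ∈ s, f i x) S := by
  intro x y hxy
  exact Finset.prod_congr rfl fun i hi => h i hi hxy

theorem pw10_mono {E : Type} {f : Om → E} {S S' : Set ℕ} (h : DependsOn f S) (hS : S ⊆ S') :
    DependsOn f S' := fun _ _ hxy => h fun i hi => hxy i (hS hi)

theorem pw10_prodR {ι : Type} (s : Finset ι) (a : ι → ℝ) (Φ : ι → Om → ℝ)
    (h : ∀ i ∈ s, IsPolyR (a i) (Φ i)) : IsPolyR (∑ i ∈ s, a i) (fun x => ∏ i ∈ s, Φ i x) := by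
  have h1 := IsPoly.prod s a (fun i x => ((Φ i x : ℝ) : ℂ)) h
  unfold IsPolyR
  have e : (fun x => ((∏ i ∈ s, Φ i x : ℝ) : ℂ)) = fun x => ∏ i ∈ s, ((Φ i x : ℝ) : ℂ) := by
    funext x
    push_cast
    rfl
  rw [e]
  exact h1

theorem PP_poly {K : ℝ} (hK : 1 ≤ K) {v Y : ℕ → ℝ} {N : ℕ → ℕ} {n : ℕ} (h : Chain K v Y N n) :
    IsPoly (len Y N n) (PP v Y N n) ∧ DependsOn (PP v Y N n) (coo 1 (v n)) := by
  constructor
  · exact IsPoly.prod (Finset.range n) (fun i => 20 * N i * (Real.log (Y i) + 1))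
      (fun i => PB (N i) (v i) (v (i + 1)) (Y i)) fun i hi =>
        (PB_poly (pw10_one_le h i) (h.three i (Finset.mem_range.1 hi)) (h.sq i (Finset.mem_range.1 hi)) (N i)).1
  · exact pw10_dep (Finset.range n) (fun i => PB (N i) (v i) (v (i + 1)) (Y i)) _ fun i hi =>
      pw10_mono (PB_poly (pw10_one_le h i) (h.three i (Finset.mem_range.1 hi))
        (h.sq i (Finset.mem_range.1 hi)) (N i)).2 (pw10_coo h (Finset.mem_range.1 hi))

theorem GE_poly {K : ℝ} (hK : 1 ≤ K) {v Y : ℕ → ℝ} {N : ℕ → ℕ} {n : ℕ} (h : Chain K v Y N n) {β : ℝ} (hβ : |β| ≤ 1) :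
    IsPolyR (2 * len Y N n + 1) (fun x => GG β v Y N n x * EE v Y N n x) ∧
      DependsOn (fun x => GG β v Y N n x * EE v Y N n x) (coo 1 (v n)) ∧
      (∀ x, 0 ≤ EE v Y N n x) ∧ (∀ x, 0 ≤ GG β v Y N n x) ∧ Continuous (EE v Y N n) := by
  have hE : ∀ i ∈ Finset.range n, IsPolyR (20 * N i * (Real.log (Y i) + 1))
      (fun x => 1 + EB (N i) (v i) (v (i + 1)) (Y i) x) ∧
      DependsOn (EB (N i) (v i) (v (i + 1)) (Y i)) (coo (v i) (v (i + 1))) ∧
      ∀ x, 0 ≤ EB (N i) (v i) (v (i + 1)) (Y i) x := fun i hi =>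
    EB_poly (pw10_one_le h i) (h.three i (Finset.mem_range.1 hi)) (h.sq i (Finset.mem_range.1 hi))
      (pw10_N hK h (Finset.mem_range.1 hi))
  have hG : ∀ i ∈ Finset.range n, IsPolyR (20 * N i * (Real.log (Y i) + 1))
      (GB β (N i) (v i) (v (i + 1)) (Y i)) ∧
      DependsOn (GB β (N i) (v i) (v (i + 1)) (Y i)) (coo (v i) (v (i + 1))) := fun i hi =>
    GB_poly hβ (pw10_one_le h i) (h.three i (Finset.mem_range.1 hi))
      (h.sq i (Finset.mem_range.1 hi)) (pw10_N hK h (Finset.mem_range.1 hi))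
  have pE : IsPolyR (len Y N n) (fun x => ∏ i ∈ Finset.range n, (1 + EB (N i) (v i) (v (i + 1)) (Y i) x)) :=
    pw10_prodR (Finset.range n) (fun i => 20 * N i * (Real.log (Y i) + 1))
      (fun i x => 1 + EB (N i) (v i) (v (i + 1)) (Y i) x) fun i hi => (hE i hi).1
  have pG : IsPolyR (len Y N n) (GG β v Y N n) :=
    pw10_prodR (Finset.range n) (fun i => 20 * N i * (Real.log (Y i) + 1))
      (fun i => GB β (N i) (v i) (v (i + 1)) (Y i)) fun i hi => (hG i hi).1
  have dE : DependsOn (EE v Y N n) (coo 1 (v n)) := by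
    intro x y hxy
    unfold EE
    congr 1
    refine Finset.prod_congr rfl fun i hi => ?_
    rw [pw10_mono (hE i hi).2.1 (pw10_coo h (Finset.mem_range.1 hi)) hxy]
  have dG : DependsOn (GG β v Y N n) (coo 1 (v n)) :=
    pw10_dep (Finset.range n) (fun i => GB β (N i) (v i) (v (i + 1)) (Y i)) _ fun i hi =>
      pw10_mono (hG i hi).2 (pw10_coo h (Finset.mem_range.1 hi))
  have hlen : 0 ≤ len Y N n := by
    refine Finset.sum_nonneg fun i hi => ?_
    have h3 := h.three i (Finset.mem_range.1 hi)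
    have h4 := h.sq i (Finset.mem_range.1 hi)
    have h5 : (1 : ℝ) ≤ Y i := by nlinarith
    have h6 := Real.log_nonneg h5
    positivity
  refine ⟨?_, ?_, ?_, ?_, ?_⟩
  · have h1 := pG.mul pE
    have h1' : Pool.Agent.LibMM99.IsPoly (2 * len Y N n) (fun x =>
        ((GG β v Y N n x * ∏ i ∈ Finset.range n, (1 + EB (N i) (v i) (v (i + 1)) (Y i) x) : ℝ) : ℂ)) :=
      IsPolyR.mono h1 (by linarith)
    have h1'' : Pool.Agent.LibMM99.IsPoly (2 * len Y N n) (fun x => ((GG β v Y N n x : ℝ) : ℂ)) :=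
      IsPolyR.mono pG (by linarith)
    have h2 := Pool.Agent.LibMM99.IsPoly.sub h1' h1''
    unfold IsPolyR
    have e : (fun x => ((GG β v Y N n x * EE v Y N n x : ℝ) : ℂ)) = fun x =>
        (((GG β v Y N n x * ∏ i ∈ Finset.range n, (1 + EB (N i) (v i) (v (i + 1)) (Y i) x) : ℝ)) : ℂ) -
          ((GG β v Y N n x : ℝ) : ℂ) := by
      funext x
      unfold EE
      push_cast
      ring
    rw [e]
    exact h2
  · intro x y hxy
    have h1 := dG hxy
    have h2 := dE hxy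
    simp only
    rw [h1, h2]
  · intro x
    unfold EE
    have h1 : 1 ≤ ∏ i ∈ Finset.range n, (1 + EB (N i) (v i) (v (i + 1)) (Y i) x) := by
      have h2 := Finset.prod_le_prod (s := Finset.range n) (f := fun _ => (1 : ℝ))
        (g := fun i => 1 + EB (N i) (v i) (v (i + 1)) (Y i) x) (fun _ _ => zero_le_one)
        (fun i hi => by have := (hE i hi).2.2 x; linarith)
      simpa using h2
    linarith
  · intro x
    exact Finset.prod_nonneg fun i _ => Gr_nonneg _ (norm_nonneg _)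
  · have h1 := pE.continuous
    exact h1.sub continuous_const

theorem GG_mul {K : ℝ} (hK : 1 ≤ K) {v Y : ℕ → ℝ} {N : ℕ → ℕ} {n : ℕ} (h : Chain K v Y N n) (x : Om) :
    1 ≤ GG 1 v Y N n x * GG (-1) v Y N n x ∧ 1 ≤ GG 0 v Y N n x := by
  constructor
  · unfold GG
    rw [← Finset.prod_mul_distrib]
    have h2 := Finset.prod_le_prod (s := Finset.range n) (f := fun _ => (1 : ℝ))
      (g := fun i => GB 1 (N i) (v i) (v (i + 1)) (Y i) x * GB (-1) (N i) (v i) (v (i + 1)) (Y i) x)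
      (fun _ _ => zero_le_one) (fun i hi => by
        unfold GB
        have h3 := Gr_mul (pw10_N hK h (Finset.mem_range.1 hi))
          (x := (AB (v i) (v (i + 1)) (Y i) x).re) (r := ‖AB (v i) (v (i + 1)) (Y i) x‖)
          (Complex.abs_re_le_norm _)
        rw [one_mul, neg_one_mul]
        exact h3)
    simpa using h2
  · unfold GG
    have h2 := Finset.prod_le_prod (s := Finset.range n) (f := fun _ => (1 : ℝ))
      (g := fun i => GB 0 (N i) (v i) (v (i + 1)) (Y i) x)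
      (fun _ _ => zero_le_one) (fun i _ => by
        unfold GB
        rw [zero_mul]
        exact one_le_Gr_zero _ (norm_nonneg _))
    simpa using h2

end Pool.Agent.LibPW
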