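import Mathlib
import Pool.Agent.LibPW.PW_08
import Pool.Agent.LibMM99.T03

/-! ROW 11: independence of the blocks under `mu`: induction on `n` with integral_mul_indep (the first `n` blocks depend on `coo 1 (v n)`,
the last one on `coo (v n) (v (n+1))`), `exp` of the sum over `prm 1 (v (n+1))` splits by sum_blocks. -/

set_option autoImplicit false

namespace Pool.Agent.LibPW

open MeasureTheory Filter Topology Pool.Agent.LibMM99 Pool.Agent.LibTG78 Pool.Agent.LibPH45
open scoped ComplexConjugate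

theorem pw11_coo_mono {a b c d : ℝ} (h1 : c ≤ a) (h2 : b ≤ d) : coo a b ⊆ coo c d :=
  fun _ hp => ⟨h1.trans_lt hp.1, hp.2.trans h2⟩

theorem pw11_coo_disjoint {a b c d : ℝ} (h : b ≤ c) : Disjoint (coo a b) (coo c d) :=
  Set.disjoint_left.2 fun _ hp hq => absurd hq.1 (not_lt.2 (hp.2.trans h))

theorem pw11_prm_coo {u v : ℝ} {p : ℕ} (hp : p ∈ prm u v) : p ∈ coo u v := by
  unfold prm at hp
  simp only [Finset.mem_filter, Finset.mem_Icc] at hp
  exact ⟨hp.2.2, (Nat.le_floor_iff' hp.2.1.ne_zero).1 hp.1.2⟩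

theorem pw11_dep_mul {f g : Om → ℝ} {S : Set ℕ} (hf : DependsOn f S) (hg : DependsOn g S) :
    DependsOn (fun x => f x * g x) S := by
  intro x y h
  show f x * g x = f y * g y
  rw [hf h, hg h]

theorem pw11_dep_exp {H : ℕ → Om → ℝ} {u v : ℝ}
    (hH : ∀ p ∈ prm u v, DependsOn (H p) ({p} : Set ℕ)) :
    DependsOn (fun x => Real.exp (∑ p ∈ prm u v, H p x)) (coo u v) := by
  intro x y h
  show Real.exp (∑ p ∈ prm u v, H p x) = Real.exp (∑ p ∈ prm u v, H p y)
  congr 1
  refine Finset.sum_congr rfl fun p hp => hH p hp ?_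
  intro i hi
  rw [Set.mem_singleton_iff.1 hi]
  exact h p (pw11_prm_coo hp)

theorem pw11_dep_prod {v : ℕ → ℝ} (hv : Monotone v) {n : ℕ} {f : ℕ → Om → ℝ}
    (hf : ∀ i < n, DependsOn (f i) (coo (v i) (v (i + 1)))) :
    DependsOn (fun x => ∏ i ∈ Finset.range n, f i x) (coo (v 0) (v n)) := by
  intro x y h
  show ∏ i ∈ Finset.range n, f i x = ∏ i ∈ Finset.range n, f i y
  refine Finset.prod_congr rfl fun i hi => ?_
  have hi' := Finset.mem_range.1 hi
  exact hf i hi' fun p hp => h p (pw11_coo_mono (hv (Nat.zero_le i)) (hv hi') hp)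

theorem pw11_prm_mono {a b c d : ℝ} (h1 : c ≤ a) (h2 : b ≤ d) : prm a b ⊆ prm c d := by
  intro p hp
  unfold prm at hp ⊢
  simp only [Finset.mem_filter, Finset.mem_Icc] at hp ⊢
  exact ⟨⟨hp.1.1, hp.1.2.trans (Nat.floor_le_floor h2)⟩, hp.2.1, h1.trans_lt hp.2.2⟩

theorem blocks_indep {v : ℕ → ℝ} (h0 : v 0 = 1) (hv : Monotone v) (n : ℕ) (H f : ℕ → Om → ℝ)
    (hH : ∀ p ∈ prm 1 (v n), Continuous (H p) ∧ DependsOn (H p) ({p} : Set ℕ))
    (hf : ∀ i < n, Continuous (f i) ∧ DependsOn (f i) (coo (v i) (v (i + 1)))) :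
    ∫ x, Real.exp (∑ p ∈ prm 1 (v n), H p x) * ∏ i ∈ Finset.range n, f i x ∂mu =
      ∏ i ∈ Finset.range n, ∫ x, Real.exp (∑ p ∈ prm (v i) (v (i + 1)), H p x) * f i x ∂mu := by
  induction n with
  | zero =>
    have h1 : ∀ x, ∑ p ∈ prm 1 (v 0), H p x = 0 := fun x => by
      rw [sum_blocks (fun p => H p x) h0 hv 0, Finset.sum_range_zero]
    simp [h1]
  | succ n ih =>
    have hsub : prm 1 (v n) ⊆ prm 1 (v (n + 1)) := pw11_prm_mono le_rfl (hv (Nat.le_succ n))
    have hsub2 : prm (v n) (v (n + 1)) ⊆ prm 1 (v (n + 1)) :=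
      pw11_prm_mono (h0 ▸ hv (Nat.zero_le n)) le_rfl
    have ih' := ih (fun p hp => hH p (hsub hp)) (fun i hi => hf i (hi.trans (Nat.lt_succ_self n)))
    rw [Finset.prod_range_succ, ← ih']
    have e : ∀ x, Real.exp (∑ p ∈ prm 1 (v (n + 1)), H p x) * ∏ i ∈ Finset.range (n + 1), f i x =
        (Real.exp (∑ p ∈ prm 1 (v n), H p x) * ∏ i ∈ Finset.range n, f i x) *
          (Real.exp (∑ p ∈ prm (v n) (v (n + 1)), H p x) * f n x) := by
      intro x
      have h1 : ∑ p ∈ prm 1 (v (n + 1)), H p x =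
          ∑ p ∈ prm 1 (v n), H p x + ∑ p ∈ prm (v n) (v (n + 1)), H p x := by
        rw [sum_blocks (fun p => H p x) h0 hv (n + 1), sum_blocks (fun p => H p x) h0 hv n,
          Finset.sum_range_succ]
      rw [h1, Real.exp_add, Finset.prod_range_succ]
      ring
    simp only [e]
    refine integral_mul_indep (S := coo 1 (v n)) (T := coo (v n) (v (n + 1))) ?_ ?_ ?_ ?_
      (pw11_coo_disjoint le_rfl)
    · refine Continuous.mul ?_ ?_
      · exact Real.continuous_exp.comp (continuous_finset_sum _ fun p hp => (hH p (hsub hp)).1)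
      · exact continuous_finset_prod _ fun i hi =>
          (hf i ((Finset.mem_range.1 hi).trans (Nat.lt_succ_self n))).1
    · refine Continuous.mul ?_ (hf n (Nat.lt_succ_self n)).1
      exact Real.continuous_exp.comp (continuous_finset_sum _ fun p hp => (hH p (hsub2 hp)).1)
    · refine pw11_dep_mul (pw11_dep_exp fun p hp => (hH p (hsub hp)).2) ?_
      have := pw11_dep_prod hv (n := n) (f := f)
        (fun i hi => (hf i (hi.trans (Nat.lt_succ_self n))).2)
      rwa [h0] at this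
    · exact pw11_dep_mul (pw11_dep_exp fun p hp => (hH p (hsub2 hp)).2)
        (hf n (Nat.lt_succ_self n)).2

end Pool.Agent.LibPW
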