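import Mathlib
import Pool.Agent.LibPW.PW_07
import Pool.Agent.LibPW.PW_10
import Pool.Agent.LibPW.PW_11

/-! ROW 12: all blocks. `GG (∏(1 + E) - 1) = ∏ G_i (1 + E_i) - ∏ G_i`, so by blocks_indep the integral is `∏ (a_i + d_i) - ∏ a_i`,
`a_i = ∫ W_i G_i ≤ B_i := exp(q_i + K1 Sq_i) (1 + K1 e^{-N_i})`, `0 ≤ d_i = ∫ W_i G_i E_i ≤ B_i K1 e^{-N_i}` (block_bound).
prod_diff: `∏(a+d) - ∏ a ≤ ∏(B+D) - ∏ B` for `0 ≤ a ≤ B`, `0 ≤ d ≤ D` and `∏(B + D) ≤ ∏ B exp(∑ D/B)`. `∑ Sq_i = Sq 1 (v n) ≤ 3`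
(Sq_le: `∑_{n ≥ 2} n^{-3/2} ≤ 2`), `exp(x) - 1 ≤ x e^x`, `∑ e^{-N_i} ≤ 1`. -/

set_option autoImplicit false

namespace Pool.Agent.LibPW

open MeasureTheory Filter Topology Pool.Agent.LibMM99 Pool.Agent.LibTG78 Pool.Agent.LibPH45
open scoped ComplexConjugate

theorem pw12_step {a b : ℝ} (ha : 0 < a) (hab : a ≤ b) (h : b ^ 2 = a ^ 2 + 1) :
    (b ^ 2 * b)⁻¹ ≤ 2 / a - 2 / b := by
  have hb : 0 < b := by linarith
  have h1 : 2 / a - 2 / b = 2 * (b - a) / (a * b) := by field_simp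
  have h2 : (b - a) * (b + a) = 1 := by nlinarith
  have h3 : b - a = 1 / (b + a) := by
    rw [eq_div_iff (by linarith)]
    exact h2
  rw [h1, h3]
  have h4 : 2 * (1 / (b + a)) / (a * b) = 2 / ((b + a) * (a * b)) := by field_simp
  rw [h4, ← one_div, div_le_div_iff₀ (by positivity) (by positivity)]
  have h5 : (b + a) * (a * b) ≤ (b + b) * (b * b) :=
    mul_le_mul (by linarith) (mul_le_mul_of_nonneg_right hab hb.le) (by positivity) (by positivity)
  nlinarith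

theorem pw12_sum (m : ℕ) : ∑ n ∈ Finset.range m, (((n + 2 : ℕ) : ℝ) * Real.sqrt ((n + 2 : ℕ) : ℝ))⁻¹ ≤
    2 - 2 / Real.sqrt ((m + 1 : ℕ) : ℝ) := by
  induction m with
  | zero => simp
  | succ m ih =>
    rw [Finset.sum_range_succ]
    have h1 := pw12_step (a := Real.sqrt ((m + 1 : ℕ) : ℝ)) (b := Real.sqrt ((m + 2 : ℕ) : ℝ))
      (Real.sqrt_pos.2 (by positivity)) (Real.sqrt_le_sqrt (by push_cast; linarith)) (by
        rw [Real.sq_sqrt (by positivity), Real.sq_sqrt (by positivity)]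
        push_cast
        ring)
    rw [Real.sq_sqrt (by positivity)] at h1
    have h2 : m + 1 + 1 = m + 2 := rfl
    rw [h2]
    linarith

theorem Sq_le (v : ℝ) : Sq 1 v ≤ 3 := by
  have h1 : Sq 1 v ≤ ∑ n ∈ Finset.range ⌊v⌋₊, (((n + 2 : ℕ) : ℝ) * Real.sqrt ((n + 2 : ℕ) : ℝ))⁻¹ := by
    unfold Sq
    rw [← Finset.sum_image (s := Finset.range ⌊v⌋₊) (g := fun n => n + 2)
      (f := fun n : ℕ => ((n : ℝ) * Real.sqrt (n : ℝ))⁻¹) (fun a _ b _ hab => by
        have : a + 2 = b + 2 := hab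
        omega)]
    apply Finset.sum_le_sum_of_subset_of_nonneg
    · intro p hp
      rw [D2b_mem_prm] at hp
      have h2 := hp.1.two_le
      have h3 : p ≤ ⌊v⌋₊ := Nat.le_floor hp.2.2
      rw [Finset.mem_image]
      exact ⟨p - 2, Finset.mem_range.2 (by omega), by omega⟩
    · intro j _ _
      positivity
  have h2 := pw12_sum ⌊v⌋₊
  have h3 : (0 : ℝ) ≤ 2 / Real.sqrt ((⌊v⌋₊ + 1 : ℕ) : ℝ) := by positivity
  linarith

theorem prod_diff (n : ℕ) (a d B D : ℕ → ℝ) (ha : ∀ i < n, 0 ≤ a i ∧ a i ≤ B i) (hd : ∀ i < n, 0 ≤ d i ∧ d i ≤ B i * D i) :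
    (∏ i ∈ Finset.range n, (a i + d i)) - ∏ i ∈ Finset.range n, a i ≤
      (∏ i ∈ Finset.range n, B i) * (Real.exp (∑ i ∈ Finset.range n, D i) - 1) := by
  suffices H : (∏ i ∈ Finset.range n, (a i + d i)) - ∏ i ∈ Finset.range n, a i ≤
      (∏ i ∈ Finset.range n, B i) * (Real.exp (∑ i ∈ Finset.range n, D i) - 1) ∧
      0 ≤ (∏ i ∈ Finset.range n, (a i + d i)) - ∏ i ∈ Finset.range n, a i ∧
      0 ≤ ∏ i ∈ Finset.range n, a i ∧ ∏ i ∈ Finset.range n, a i ≤ ∏ i ∈ Finset.range n, B i from H.1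
  induction n with
  | zero => simp
  | succ n ih =>
    obtain ⟨i1, i2, i3, i4⟩ := ih (fun i hi => ha i (by omega)) (fun i hi => hd i (by omega))
    obtain ⟨a1, a2⟩ := ha n (by omega)
    obtain ⟨d1, d2⟩ := hd n (by omega)
    simp only [Finset.prod_range_succ, Finset.sum_range_succ]
    set A := ∏ i ∈ Finset.range n, a i
    set P := ∏ i ∈ Finset.range n, (a i + d i)
    set Q := ∏ i ∈ Finset.range n, B i
    set S := ∑ i ∈ Finset.range n, D i
    have hP : 0 ≤ P := by linarith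
    have hQ : 0 ≤ Q := by linarith
    have hPQ : P ≤ Q * Real.exp S := by nlinarith
    have hB : 0 ≤ B n := by linarith
    have hBD : 0 ≤ B n * D n := by linarith
    have h1 : (P - A) * a n ≤ Q * (Real.exp S - 1) * B n := mul_le_mul i1 a2 a1 (by linarith)
    have h2 : P * d n ≤ Q * Real.exp S * (B n * D n) := mul_le_mul hPQ d2 d1 (by positivity)
    have h3 : Real.exp S * (1 + D n) ≤ Real.exp (S + D n) := by
      rw [Real.exp_add]
      exact mul_le_mul_of_nonneg_left (by have := Real.add_one_le_exp (D n); linarith) (Real.exp_pos S).le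
    have h4 : Q * B n * (Real.exp S * (1 + D n)) ≤ Q * B n * Real.exp (S + D n) :=
      mul_le_mul_of_nonneg_left h3 (mul_nonneg hQ hB)
    refine ⟨?_, ?_, mul_nonneg i3 a1, mul_le_mul i4 a2 a1 hQ⟩
    · have e1 : P * (a n + d n) - A * a n = (P - A) * a n + P * d n := by ring
      have e2 : Q * B n * (Real.exp (S + D n) - 1) = Q * B n * Real.exp (S + D n) - Q * B n := by ring
      have e3 : Q * (Real.exp S - 1) * B n + Q * Real.exp S * (B n * D n) =
          Q * B n * (Real.exp S * (1 + D n)) - Q * B n := by ring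
      rw [e1, e2]
      linarith
    · have e1 : P * (a n + d n) - A * a n = (P - A) * a n + P * d n := by ring
      rw [e1]
      exact add_nonneg (mul_nonneg i2 a1) (mul_nonneg hP d1)

theorem pw12_sub {v : ℕ → ℝ} (h0 : v 0 = 1) (hv : Monotone v) {n i : ℕ} (hi : i < n) {p : ℕ}
    (hp : p ∈ prm (v i) (v (i + 1))) : p ∈ prm 1 (v n) := by
  rw [D2b_mem_prm] at hp ⊢
  have h1 : (1 : ℝ) ≤ v i := by rw [← h0]; exact hv (Nat.zero_le i)
  have h2 : v (i + 1) ≤ v n := hv hi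
  exact ⟨hp.1, by linarith [hp.2.1], hp.2.2.trans h2⟩

theorem chain_bound {C : ℝ} (hC : 0 ≤ C) : ∃ K : ℝ, 1 ≤ K ∧ ∀ (v Y : ℕ → ℝ) (N : ℕ → ℕ) (n : ℕ), Chain K v Y N n →
    ∀ (b : ℕ → ℂ) (H : ℕ → Om → ℝ) (β : ℝ), |β| ≤ 1 → (∀ p ∈ prm 1 (v n), Gs C p (b p) (H p)) →
    ∫ x, Real.exp (∑ p ∈ prm 1 (v n), H p x) * (GG β v Y N n x * EE v Y N n x) ∂mu ≤
      K * Real.exp (∑ p ∈ prm 1 (v n), ‖b p + β * zp 0 p‖ ^ 2 / 4) * NS N n := by
  obtain ⟨K1, hK1, hblock⟩ := block_bound hC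
  have hE1 : (1 : ℝ) ≤ Real.exp (5 * K1) := Real.one_le_exp (by linarith)
  refine ⟨K1 * Real.exp (5 * K1), by nlinarith, ?_⟩
  intro v Y N n hch b H β hβ hG
  have h0 := hch.zero
  have hv := hch.mono
  have hKK : K1 ≤ K1 * Real.exp (5 * K1) := by nlinarith
  have hSp : ∀ i, 0 ≤ Sp (v i) (v (i + 1)) := fun i => Finset.sum_nonneg fun p _ => by positivity
  have hdeg : ∀ i < n, K1 * (1 + Sp (v i) (v (i + 1))) ≤ N i := fun i hi =>
    (mul_le_mul_of_nonneg_right hKK (by have := hSp i; linarith)).trans (hch.deg i hi)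
  have hN : ∀ i < n, 1 ≤ N i := by
    intro i hi
    have h1 := hdeg i hi
    have h2 : (1 : ℝ) ≤ N i := by nlinarith [hSp i]
    exact_mod_cast h2
  have hu : ∀ i, 1 ≤ v i := fun i => by rw [← h0]; exact hv (Nat.zero_le i)
  have hGBc : ∀ i < n, Continuous (GB β (N i) (v i) (v (i + 1)) (Y i)) ∧
      DependsOn (GB β (N i) (v i) (v (i + 1)) (Y i)) (coo (v i) (v (i + 1))) := fun i hi =>
    ⟨(GB_poly hβ (hu i) (hch.three i hi) (hch.sq i hi) (hN i hi)).1.continuous,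
      (GB_poly hβ (hu i) (hch.three i hi) (hch.sq i hi) (hN i hi)).2⟩
  have hEBc : ∀ i < n, Continuous (fun x => 1 + EB (N i) (v i) (v (i + 1)) (Y i) x) ∧
      DependsOn (EB (N i) (v i) (v (i + 1)) (Y i)) (coo (v i) (v (i + 1))) ∧
      ∀ x, 0 ≤ EB (N i) (v i) (v (i + 1)) (Y i) x := fun i hi =>
    ⟨(EB_poly (hu i) (hch.three i hi) (hch.sq i hi) (hN i hi)).1.continuous,
      (EB_poly (hu i) (hch.three i hi) (hch.sq i hi) (hN i hi)).2⟩
  have hEBc' : ∀ i < n, Continuous (EB (N i) (v i) (v (i + 1)) (Y i)) := by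
    intro i hi
    have h1 : Continuous fun x => (1 + EB (N i) (v i) (v (i + 1)) (Y i) x) - 1 := (hEBc i hi).1.sub continuous_const
    have h2 : (fun x => (1 + EB (N i) (v i) (v (i + 1)) (Y i) x) - 1) = EB (N i) (v i) (v (i + 1)) (Y i) := by
      funext x
      ring
    rwa [h2] at h1
  have hGB0 : ∀ i, ∀ x, 0 ≤ GB β (N i) (v i) (v (i + 1)) (Y i) x := fun i x =>
    Gr_nonneg _ (norm_nonneg _)
  have hHc : ∀ p ∈ prm 1 (v n), Continuous (H p) ∧ DependsOn (H p) ({p} : Set ℕ) := fun p hp =>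
    ⟨(hG p hp).cont, (hG p hp).dep⟩
  have hHi : ∀ i < n, ∀ p ∈ prm (v i) (v (i + 1)), Gs C p (b p) (H p) := fun i hi p hp =>
    hG p (pw12_sub h0 hv hi hp)
  have hWc : ∀ i < n, Continuous fun x => Real.exp (∑ p ∈ prm (v i) (v (i + 1)), H p x) := fun i hi =>
    Real.continuous_exp.comp (continuous_finsetSum _ fun p hp => (hHi i hi p hp).cont)
  have hWn : Continuous fun x => Real.exp (∑ p ∈ prm 1 (v n), H p x) :=
    Real.continuous_exp.comp (continuous_finsetSum _ fun p hp => (hG p hp).cont)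
  -- the two products
  obtain ⟨a, ha⟩ : ∃ a : ℕ → ℝ, a = fun i => ∫ x, Real.exp (∑ p ∈ prm (v i) (v (i + 1)), H p x) *
      GB β (N i) (v i) (v (i + 1)) (Y i) x ∂mu := ⟨_, rfl⟩
  obtain ⟨d, hd⟩ : ∃ d : ℕ → ℝ, d = fun i => ∫ x, Real.exp (∑ p ∈ prm (v i) (v (i + 1)), H p x) *
      (GB β (N i) (v i) (v (i + 1)) (Y i) x * EB (N i) (v i) (v (i + 1)) (Y i) x) ∂mu := ⟨_, rfl⟩
  obtain ⟨q, hq⟩ : ∃ q : ℕ → ℝ, q = fun i => ∑ p ∈ prm (v i) (v (i + 1)), ‖b p + β * zp 0 p‖ ^ 2 / 4 := ⟨_, rfl⟩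
  have hA : ∫ x, Real.exp (∑ p ∈ prm 1 (v n), H p x) * GG β v Y N n x ∂mu = ∏ i ∈ Finset.range n, a i := by
    rw [ha]
    exact blocks_indep h0 hv n H (fun i => GB β (N i) (v i) (v (i + 1)) (Y i)) hHc hGBc
  have hP : ∫ x, Real.exp (∑ p ∈ prm 1 (v n), H p x) * (GG β v Y N n x * (1 + EE v Y N n x)) ∂mu =
      ∏ i ∈ Finset.range n, (a i + d i) := by
    have h1 : ∀ x, GG β v Y N n x * (1 + EE v Y N n x) = ∏ i ∈ Finset.range n,
        (GB β (N i) (v i) (v (i + 1)) (Y i) x * (1 + EB (N i) (v i) (v (i + 1)) (Y i) x)) := by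
      intro x
      unfold GG EE
      rw [Finset.prod_mul_distrib]
      ring
    simp_rw [h1]
    rw [blocks_indep h0 hv n H (fun i x => GB β (N i) (v i) (v (i + 1)) (Y i) x *
      (1 + EB (N i) (v i) (v (i + 1)) (Y i) x)) hHc (fun i hi => ⟨(hGBc i hi).1.mul (hEBc i hi).1, fun x y hxy => by
        have e1 := (hGBc i hi).2 hxy
        have e2 := (hEBc i hi).2.1 hxy
        simp only [e1, e2]⟩)]
    refine Finset.prod_congr rfl fun i hi => ?_
    have hi' := Finset.mem_range.1 hi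
    rw [ha, hd]
    simp only
    have I1 : Integrable (fun x => Real.exp (∑ p ∈ prm (v i) (v (i + 1)), H p x) *
        GB β (N i) (v i) (v (i + 1)) (Y i) x) mu :=
      integrable_of_continuous ((hWc i hi').mul (hGBc i hi').1)
    have I2 : Integrable (fun x => Real.exp (∑ p ∈ prm (v i) (v (i + 1)), H p x) *
        (GB β (N i) (v i) (v (i + 1)) (Y i) x * EB (N i) (v i) (v (i + 1)) (Y i) x)) mu :=
      integrable_of_continuous ((hWc i hi').mul ((hGBc i hi').1.mul (hEBc' i hi')))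
    rw [← integral_add I1 I2]
    refine integral_congr_ae (Eventually.of_forall fun x => ?_)
    simp only
    ring
  have hGGc : Continuous (GG β v Y N n) := by
    unfold GG
    exact continuous_finsetProd _ fun i hi => (hGBc i (Finset.mem_range.1 hi)).1
  have hEEc : Continuous (EE v Y N n) := by
    unfold EE
    exact (continuous_finsetProd _ fun i hi => (hEBc i (Finset.mem_range.1 hi)).1).sub continuous_const
  have hdiff : ∫ x, Real.exp (∑ p ∈ prm 1 (v n), H p x) * (GG β v Y N n x * EE v Y N n x) ∂mu =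
      (∏ i ∈ Finset.range n, (a i + d i)) - ∏ i ∈ Finset.range n, a i := by
    have I1 : Integrable (fun x => Real.exp (∑ p ∈ prm 1 (v n), H p x) * (GG β v Y N n x * (1 + EE v Y N n x))) mu :=
      integrable_of_continuous (hWn.mul (hGGc.mul (continuous_const.add hEEc)))
    have I2 : Integrable (fun x => Real.exp (∑ p ∈ prm 1 (v n), H p x) * GG β v Y N n x) mu :=
      integrable_of_continuous (hWn.mul hGGc)
    rw [← hA, ← hP, ← integral_sub I1 I2]
    refine integral_congr_ae (Eventually.of_forall fun x => ?_)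
    simp only
    ring
  obtain ⟨B, hB⟩ : ∃ B : ℕ → ℝ, B = fun i => Real.exp (q i + K1 * Sq (v i) (v (i + 1))) *
      (1 + K1 * Real.exp (-(N i : ℝ))) := ⟨_, rfl⟩
  obtain ⟨D, hD⟩ : ∃ D : ℕ → ℝ, D = fun i => K1 * Real.exp (-(N i : ℝ)) := ⟨_, rfl⟩
  have hbl : ∀ i < n, a i ≤ B i ∧ d i ≤ B i * D i := by
    intro i hi
    obtain ⟨h1, h2⟩ := hblock (v i) (v (i + 1)) (Y i) (N i) b H β (by have := hch.three i hi; linarith)
      (hch.sq i hi) hβ (hHi i hi) (hdeg i hi) (hch.trunc i hi)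
    rw [ha, hd, hB, hD]
    simp only
    rw [hq]
    simp only
    refine ⟨h1, h2.trans ?_⟩
    refine mul_le_mul_of_nonneg_right ?_ (by positivity)
    have h3 : (0 : ℝ) ≤ K1 * Real.exp (-(N i : ℝ)) := by positivity
    have h4 := Real.exp_pos ((∑ p ∈ prm (v i) (v (i + 1)), ‖b p + β * zp 0 p‖ ^ 2 / 4) + K1 * Sq (v i) (v (i + 1)))
    nlinarith
  have ha0 : ∀ i, 0 ≤ a i := fun i => by
    rw [ha]
    exact integral_nonneg fun x => mul_nonneg (Real.exp_pos _).le (hGB0 i x)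
  have hd0 : ∀ i < n, 0 ≤ d i := fun i hi => by
    rw [hd]
    exact integral_nonneg fun x => mul_nonneg (Real.exp_pos _).le (mul_nonneg (hGB0 i x) ((hEBc i hi).2.2 x))
  have hmain := prod_diff n a d B D (fun i hi => ⟨ha0 i, (hbl i hi).1⟩) (fun i hi => ⟨hd0 i hi, (hbl i hi).2⟩)
  rw [hdiff]
  refine hmain.trans ?_
  -- bounds for the two factors
  have hNS0 : 0 ≤ NS N n := Finset.sum_nonneg fun i _ => (Real.exp_pos _).le
  have hNS1 : NS N n ≤ 1 := hch.small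
  have hDs : ∑ i ∈ Finset.range n, D i = K1 * NS N n := by
    rw [hD]
    unfold NS
    rw [Finset.mul_sum]
  have hexp : Real.exp (K1 * NS N n) - 1 ≤ K1 * NS N n * Real.exp K1 := by
    have h1 : Real.exp (K1 * NS N n) - 1 ≤ K1 * NS N n * Real.exp (K1 * NS N n) := by
      have h2 := Real.add_one_le_exp (-(K1 * NS N n))
      have h3 : Real.exp (-(K1 * NS N n)) * Real.exp (K1 * NS N n) = 1 := by
        rw [← Real.exp_add]; simp
      nlinarith [Real.exp_pos (K1 * NS N n)]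
    refine h1.trans (mul_le_mul_of_nonneg_left (Real.exp_le_exp.2 (by nlinarith)) (by positivity))
  have hBprod : ∏ i ∈ Finset.range n, B i ≤
      Real.exp (∑ p ∈ prm 1 (v n), ‖b p + β * zp 0 p‖ ^ 2 / 4) * Real.exp (4 * K1) := by
    rw [hB, Finset.prod_mul_distrib, ← Real.exp_sum, Finset.sum_add_distrib, ← Finset.mul_sum]
    have h1 : ∑ i ∈ Finset.range n, q i = ∑ p ∈ prm 1 (v n), ‖b p + β * zp 0 p‖ ^ 2 / 4 := by
      rw [hq]
      exact (sum_blocks _ h0 hv n).symm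
    have h2 : ∑ i ∈ Finset.range n, Sq (v i) (v (i + 1)) = Sq 1 (v n) := by
      unfold Sq
      exact (sum_blocks _ h0 hv n).symm
    rw [h1, h2]
    have h3 : ∏ i ∈ Finset.range n, (1 + K1 * Real.exp (-(N i : ℝ))) ≤ Real.exp K1 := by
      have h4 : ∏ i ∈ Finset.range n, (1 + K1 * Real.exp (-(N i : ℝ))) ≤
          ∏ i ∈ Finset.range n, Real.exp (K1 * Real.exp (-(N i : ℝ))) := by
        refine Finset.prod_le_prod (fun i _ => by positivity) fun i _ => ?_
        have := Real.add_one_le_exp (K1 * Real.exp (-(N i : ℝ)))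
        linarith
      refine h4.trans ?_
      rw [← Real.exp_sum, ← Finset.mul_sum]
      apply Real.exp_le_exp.2
      have h5 : ∑ i ∈ Finset.range n, Real.exp (-(N i : ℝ)) = NS N n := rfl
      rw [h5]
      nlinarith
    have h6 := Sq_le (v n)
    have h7 : Real.exp ((∑ p ∈ prm 1 (v n), ‖b p + β * zp 0 p‖ ^ 2 / 4) + K1 * Sq 1 (v n)) ≤
        Real.exp (∑ p ∈ prm 1 (v n), ‖b p + β * zp 0 p‖ ^ 2 / 4) * Real.exp (3 * K1) := by
      rw [← Real.exp_add]
      apply Real.exp_le_exp.2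
      nlinarith
    calc Real.exp ((∑ p ∈ prm 1 (v n), ‖b p + β * zp 0 p‖ ^ 2 / 4) + K1 * Sq 1 (v n)) *
          ∏ i ∈ Finset.range n, (1 + K1 * Real.exp (-(N i : ℝ)))
        ≤ Real.exp (∑ p ∈ prm 1 (v n), ‖b p + β * zp 0 p‖ ^ 2 / 4) * Real.exp (3 * K1) * Real.exp K1 :=
          mul_le_mul h7 h3 (Finset.prod_nonneg fun i _ => by positivity) (by positivity)
      _ = Real.exp (∑ p ∈ prm 1 (v n), ‖b p + β * zp 0 p‖ ^ 2 / 4) * Real.exp (4 * K1) := by
          rw [mul_assoc, ← Real.exp_add]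
          congr 2
          ring
  rw [hDs]
  have hB0 : 0 ≤ ∏ i ∈ Finset.range n, B i := Finset.prod_nonneg fun i _ => by rw [hB]; positivity
  calc (∏ i ∈ Finset.range n, B i) * (Real.exp (K1 * NS N n) - 1)
      ≤ (∏ i ∈ Finset.range n, B i) * (K1 * NS N n * Real.exp K1) := mul_le_mul_of_nonneg_left hexp hB0
    _ ≤ (Real.exp (∑ p ∈ prm 1 (v n), ‖b p + β * zp 0 p‖ ^ 2 / 4) * Real.exp (4 * K1)) *
          (K1 * NS N n * Real.exp K1) := mul_le_mul_of_nonneg_right hBprod (by positivity)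
    _ = K1 * Real.exp (5 * K1) * Real.exp (∑ p ∈ prm 1 (v n), ‖b p + β * zp 0 p‖ ^ 2 / 4) * NS N n := by
        have h1 : Real.exp (5 * K1) = Real.exp (4 * K1) * Real.exp K1 := by
          rw [← Real.exp_add]
          congr 1
          ring
        rw [h1]
        ring

end Pool.Agent.LibPW
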