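import Mathlib
import Pool.Agent.LibPW.Defs
import Pool.Agent.LibTG78.D3a
import Pool.Agent.LibPH45.PH_12
import Pool.Agent.LibPH45.PH_10
import Pool.Agent.LibMM99.T09

/-! ROW 13: Mertens. LibMaier.mertens_first, DR_sub (see LibMM99/T09: `t09_sum_eq`, `sum_inv_prime_le`) give both bounds.
`exp_quad`: `‖b p‖² ≤ (|τ|/√p + D log p/(√p L))² ≤ τ²/p + (2|τ|D + D²) (log p/p)/L` (`log p ≤ L`), `∑ log p/p ≤ L + C`
(sum_log_prime_le). `nz_upper`: `nz s 1 (exp L) = ∏ (1 - ‖zp s p‖²) ≤ exp(-∑ ‖zp s p‖²)`, `‖zp s p‖² = p^{-1-2 Re s} ≥ p^{-1}(1 - 3‖s‖ log p)`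
(D3a_sq), `‖s‖ ≤ 1/(20L)`, lower Mertens. `nz4_upper`: `Gsum 2 r ≥ 1 + 4r + 9r² ≥ exp(4r)`?  (no: use `Gsum 2 r = (1+r)/(1-r)^3 ≥
exp(4r - r²/2)`, or `Gsum 2 r ≥ 1 + 4 r ≥ exp(4r - 8r²)`; `Gsum 2 r = ∑ (a+1)² r^a`.) `zp_diff` = PH_12 `P12_shift`. -/

set_option autoImplicit false

namespace Pool.Agent.LibPW

open MeasureTheory Filter Topology Pool.Agent.LibMM99 Pool.Agent.LibTG78 Pool.Agent.LibPH45 Pool.Agent.LibFG78
open scoped ComplexConjugate

theorem pw13_sp {v : ℝ} (hv : 1 ≤ v) : Sp 1 v = LibMaier.RN ⌊v⌋₊ := by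
  unfold Sp
  rw [t09_sum_eq hv]
  have h1 : LibMaier.RN ⌊(1:ℝ)⌋₊ = 0 := by
    rw [Nat.floor_one]
    unfold LibMaier.RN LibMaier.PN
    refine Finset.sum_eq_zero fun p hp => ?_
    rw [Finset.mem_filter, Finset.mem_Icc] at hp
    have := hp.2.two_le
    omega
  rw [h1, sub_zero]

theorem mertens2 : ∃ C : ℝ, 1 ≤ C ∧ ∀ L : ℝ, 1 ≤ L → |Sp 1 (Real.exp L) - Real.log L| ≤ C := by
  obtain ⟨K, hK0, hK⟩ := LibMaier.mertens_first
  refine ⟨1 + 2 * K + |LibMaier.DR (Real.exp 1)|, ?_, fun L hL => ?_⟩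
  · have := abs_nonneg (LibMaier.DR (Real.exp 1))
    linarith
  have h1 : (1 : ℝ) < Real.exp 1 := Real.one_lt_exp_iff.2 one_pos
  have h2 := LibMaier.DR_sub hK h1 (Real.exp_le_exp.2 hL)
  rw [Real.log_exp, div_one] at h2
  have h3 : Sp 1 (Real.exp L) - Real.log L = LibMaier.DR (Real.exp L) := by
    rw [pw13_sp (Real.one_le_exp (by linarith))]
    unfold LibMaier.DR
    rw [Real.log_exp]
  rw [h3]
  have h4 : LibMaier.DR (Real.exp L) = (LibMaier.DR (Real.exp L) - LibMaier.DR (Real.exp 1)) + LibMaier.DR (Real.exp 1) := by ring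
  rw [h4]
  refine (abs_add_le _ _).trans ?_
  linarith

/-- a block `(e^L, e^{2L}]` has a bounded sum -/
theorem Sp_double : ∃ C : ℝ, 1 ≤ C ∧ ∀ L : ℝ, 1 ≤ L → Sp (Real.exp L) (Real.exp (2 * L)) ≤ C := by
  obtain ⟨K, hK0, hK⟩ := LibMaier.mertens_first
  refine ⟨1 + 2 * K, by linarith, fun L hL => ?_⟩
  have h1 : (1 : ℝ) < Real.exp L := Real.one_lt_exp_iff.2 (by linarith)
  have h0 : Real.exp L ≤ Real.exp (2 * L) := Real.exp_le_exp.2 (by linarith)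
  have h2 := LibMaier.DR_sub hK h1 h0
  rw [Real.log_exp] at h2
  have h3 : 2 * K / L ≤ 2 * K := div_le_self (by linarith) hL
  unfold Sp
  rw [t09_sum_eq h0]
  have h4 := (abs_le.1 h2).2
  unfold LibMaier.DR at h4
  rw [Real.log_exp, Real.log_exp, Real.log_mul (by norm_num) (by linarith)] at h4
  have h5 : Real.log 2 ≤ 1 := by
    have := Real.log_two_lt_d9
    linarith
  linarith

theorem exp_quad (τ D : ℝ) (hD : 0 ≤ D) : ∃ C : ℝ, 1 ≤ C ∧ ∀ (L : ℝ) (b : ℕ → ℂ), 1 ≤ L →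
    (∀ p ∈ prm 1 (Real.exp L), ‖b p - τ * zp 0 p‖ ≤ D / L * (Real.log p * (Real.sqrt p)⁻¹)) →
    Real.exp (∑ p ∈ prm 1 (Real.exp L), ‖b p‖ ^ 2 / 4) ≤ C * L ^ (τ ^ 2 / 4) := by
  obtain ⟨C1, hC1, h1⟩ := mertens2
  obtain ⟨C2, hC2, h2⟩ := sum_log_prime_le
  refine ⟨Real.exp ((τ ^ 2 * C1 + (2 * |τ| * D + D ^ 2) * (1 + C2)) / 4), Real.one_le_exp (by positivity), ?_⟩
  intro L b hL hb
  have hL0 : 0 < L := by linarith
  have hS1 := h1 L hL
  have hS2 := h2 (Real.exp L) (Real.one_le_exp hL0.le)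
  rw [Real.log_exp] at hS2
  have hpt : ∀ p ∈ prm 1 (Real.exp L), ‖b p‖ ^ 2 / 4 ≤
      (τ ^ 2 * (p : ℝ)⁻¹ + ((2 * |τ| * D + D ^ 2) / L) * (Real.log p / p)) / 4 := by
    intro p hp
    obtain ⟨hpp, -, hpL⟩ := D2b_mem_prm.1 hp
    have hp0 : (0 : ℝ) < p := by exact_mod_cast hpp.pos
    obtain ⟨hr0, hr1, hrr⟩ := P12_r hpp
    have hlog0 : 0 ≤ Real.log p := Real.log_natCast_nonneg p
    have hlog : Real.log p ≤ L := by
      rw [← Real.log_exp L]
      exact Real.log_le_log hp0 hpL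
    have hz : ‖zp 0 p‖ = (Real.sqrt p)⁻¹ := by
      have h1 := norm_zp_zero hpp
      rw [← Real.sqrt_inv, ← h1, Real.sqrt_sq (norm_nonneg _)]
    have h3 : ‖b p‖ ≤ |τ| * (Real.sqrt p)⁻¹ + D / L * (Real.log p * (Real.sqrt p)⁻¹) := by
      have e : b p = τ * zp 0 p + (b p - τ * zp 0 p) := by ring
      rw [e]
      refine (norm_add_le _ _).trans ?_
      rw [norm_mul, hz, Complex.norm_real, Real.norm_eq_abs]
      have := hb p hp
      linarith
    set r := (Real.sqrt p)⁻¹ with hr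
    set l := Real.log p with hl
    have h4 : ‖b p‖ ^ 2 ≤ (|τ| * r + D / L * (l * r)) ^ 2 := by
      exact pow_le_pow_left₀ (norm_nonneg _) h3 2
    have h5 : (|τ| * r + D / L * (l * r)) ^ 2 = (|τ| ^ 2 + 2 * |τ| * D / L * l + (D ^ 2 / L * l) * (l / L)) * (r * r) := by
      field_simp
      ring
    have h6 : l / L ≤ 1 := by rwa [div_le_one hL0]
    have h7 : (D ^ 2 / L * l) * (l / L) ≤ (D ^ 2 / L * l) * 1 := by gcongr
    have h8 : ‖b p‖ ^ 2 ≤ (|τ| ^ 2 + 2 * |τ| * D / L * l + D ^ 2 / L * l) * (r * r) := by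
      refine h4.trans ?_
      rw [h5]
      refine mul_le_mul_of_nonneg_right ?_ (by positivity)
      linarith
    rw [hrr, sq_abs] at h8
    have h9 : (τ ^ 2 + 2 * |τ| * D / L * l + D ^ 2 / L * l) * (p : ℝ)⁻¹ = τ ^ 2 * (p : ℝ)⁻¹ + ((2 * |τ| * D + D ^ 2) / L) * (l / p) := by
      field_simp
      ring
    linarith
  have h3 := Finset.sum_le_sum hpt
  have h3' : ∑ p ∈ prm 1 (Real.exp L), (τ ^ 2 * (p : ℝ)⁻¹ + ((2 * |τ| * D + D ^ 2) / L) * (Real.log p / p)) / 4 =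
      (τ ^ 2 * ∑ p ∈ prm 1 (Real.exp L), (p : ℝ)⁻¹ + ((2 * |τ| * D + D ^ 2) / L) * ∑ p ∈ prm 1 (Real.exp L), Real.log p / p) / 4 := by
    rw [← Finset.sum_div, Finset.sum_add_distrib, ← Finset.mul_sum, ← Finset.mul_sum]
  rw [h3'] at h3
  have h4 : ∑ p ∈ prm 1 (Real.exp L), (p : ℝ)⁻¹ ≤ Real.log L + C1 := by
    have := (abs_le.1 hS1).2
    unfold Sp at this
    linarith
  have h5 : ((2 * |τ| * D + D ^ 2) / L) * ∑ p ∈ prm 1 (Real.exp L), Real.log p / p ≤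
      (2 * |τ| * D + D ^ 2) * (1 + C2) := by
    have h6 : L + C2 ≤ L * (1 + C2) := by nlinarith
    calc _ ≤ ((2 * |τ| * D + D ^ 2) / L) * (L * (1 + C2)) := by
          apply mul_le_mul_of_nonneg_left (hS2.trans h6) (by positivity)
      _ = _ := by field_simp
  have h7 : τ ^ 2 * ∑ p ∈ prm 1 (Real.exp L), (p : ℝ)⁻¹ ≤ τ ^ 2 * (Real.log L + C1) :=
    mul_le_mul_of_nonneg_left h4 (sq_nonneg _)
  have h8 : ∑ p ∈ prm 1 (Real.exp L), ‖b p‖ ^ 2 / 4 ≤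
      (τ ^ 2 * C1 + (2 * |τ| * D + D ^ 2) * (1 + C2)) / 4 + Real.log L * (τ ^ 2 / 4) := by
    linarith
  calc _ ≤ Real.exp ((τ ^ 2 * C1 + (2 * |τ| * D + D ^ 2) * (1 + C2)) / 4 + Real.log L * (τ ^ 2 / 4)) := Real.exp_le_exp.2 h8
    _ = _ := by rw [Real.exp_add, Real.rpow_def_of_pos hL0]

/-- lower Mertens for the shifted squares -/
theorem pw13_low : ∃ C : ℝ, 1 ≤ C ∧ ∀ (s : ℂ) (L : ℝ), Adm s L →
    Real.log L - C ≤ ∑ p ∈ prm 1 (Real.exp L), ‖zp s p‖ ^ 2 := by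
  obtain ⟨C1, hC1, h1⟩ := mertens2
  obtain ⟨C2, hC2, h2⟩ := sum_log_prime_le
  refine ⟨C1 + (1 + C2), by linarith, fun s L h => ?_⟩
  have hL := h.1
  have hL0 : 0 < L := by linarith
  have hS1 := h1 L hL
  have hS2 := h2 (Real.exp L) (Real.one_le_exp hL0.le)
  rw [Real.log_exp] at hS2
  have hpt : ∀ p ∈ prm 1 (Real.exp L), (p : ℝ)⁻¹ - (1 / L) * (Real.log p / p) ≤ ‖zp s p‖ ^ 2 := by
    intro p hp
    obtain ⟨hpp, -, hpL⟩ := D2b_mem_prm.1 hp
    have hp0 : (0 : ℝ) < p := by exact_mod_cast hpp.pos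
    have hlog0 : 0 ≤ Real.log p := Real.log_natCast_nonneg p
    rw [D3a_norm s hpp.pos]
    have h3 : Real.log p * (-1 - 2 * s.re) = -Real.log p + -(2 * s.re * Real.log p) := by ring
    rw [h3, Real.exp_add, Real.exp_neg, Real.exp_log hp0]
    have h4 := Real.add_one_le_exp (-(2 * s.re * Real.log p))
    have h5 : |s.re| ≤ 1 / (20 * L) := (Complex.abs_re_le_norm s).trans h.2
    have h6 : 1 / (20 * L) ≤ 1 / (2 * L) := by
      apply one_div_le_one_div_of_le (by positivity)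
      linarith
    have h7 : 2 * s.re * Real.log p ≤ (1 / L) * Real.log p := by
      have : 2 * s.re ≤ 1 / L := by
        have h8 := le_abs_self s.re
        have h9 : 2 * (1 / (2 * L)) = 1 / L := by field_simp
        linarith
      exact mul_le_mul_of_nonneg_right this hlog0
    have h10 : 1 - (1 / L) * Real.log p ≤ Real.exp (-(2 * s.re * Real.log p)) := by linarith
    calc (p : ℝ)⁻¹ - (1 / L) * (Real.log p / p) = (p : ℝ)⁻¹ * (1 - (1 / L) * Real.log p) := by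
          field_simp
      _ ≤ _ := mul_le_mul_of_nonneg_left h10 (by positivity)
  have h3 := Finset.sum_le_sum hpt
  rw [Finset.sum_sub_distrib, ← Finset.mul_sum] at h3
  have h4 : Real.log L - C1 ≤ ∑ p ∈ prm 1 (Real.exp L), (p : ℝ)⁻¹ := by
    have := (abs_le.1 hS1).1
    unfold Sp at this
    linarith
  have h5 : (1 / L) * ∑ p ∈ prm 1 (Real.exp L), Real.log p / p ≤ 1 + C2 := by
    have h6 : L + C2 ≤ L * (1 + C2) := by nlinarith
    calc _ ≤ (1 / L) * (L * (1 + C2)) := by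
          apply mul_le_mul_of_nonneg_left (hS2.trans h6) (by positivity)
      _ = _ := by field_simp
  linarith

theorem nz_upper : ∃ C : ℝ, 1 ≤ C ∧ ∀ (s : ℂ) (L : ℝ), Adm s L → nz s 1 (Real.exp L) ≤ C / L := by
  obtain ⟨C1, hC1, h1⟩ := pw13_low
  refine ⟨Real.exp C1, Real.one_le_exp (by linarith), fun s L h => ?_⟩
  have hL0 : 0 < L := by linarith [h.1]
  have h2 := h1 s L h
  unfold nz
  calc ∏ p ∈ prm 1 (Real.exp L), (1 - ‖zp s p‖ ^ 2) ≤ ∏ p ∈ prm 1 (Real.exp L), Real.exp (-‖zp s p‖ ^ 2) := by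
        refine Finset.prod_le_prod (fun p hp => ?_) fun p _ => ?_
        · obtain ⟨hpp, -, hpL⟩ := D2b_mem_prm.1 hp
          have h3 := (P12_bd h hpp hpL).2
          nlinarith [norm_nonneg (zp s p)]
        · have := Real.add_one_le_exp (-‖zp s p‖ ^ 2)
          linarith
    _ = Real.exp (-∑ p ∈ prm 1 (Real.exp L), ‖zp s p‖ ^ 2) := by
        rw [← Real.exp_sum, Finset.sum_neg_distrib]
    _ ≤ Real.exp (C1 - Real.log L) := Real.exp_le_exp.2 (by linarith)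
    _ = _ := by rw [Real.exp_sub, Real.exp_log hL0]

theorem pw13_sq (L : ℝ) : ∑ p ∈ prm 1 (Real.exp L), ((p : ℝ) ^ 2)⁻¹ ≤ 2 := by
  have h1 := sum_Ioo_inv_sq_le (α := ℝ) 0 (⌊Real.exp L⌋₊ + 1)
  refine (Finset.sum_le_sum_of_subset_of_nonneg ?_ fun _ _ _ => by positivity).trans (h1.trans (by norm_num))
  intro p hp
  simp only [prm, Finset.mem_filter, Finset.mem_Icc] at hp
  rw [Finset.mem_Ioo]
  omega

theorem nz4_upper : ∃ C : ℝ, 1 ≤ C ∧ ∀ (s : ℂ) (L : ℝ), Adm s L → nz4 s 1 (Real.exp L) ≤ C / L ^ 4 := by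
  obtain ⟨C1, hC1, h1⟩ := pw13_low
  refine ⟨Real.exp (4 * C1 + 48), Real.one_le_exp (by linarith), fun s L h => ?_⟩
  have hL0 : 0 < L := by linarith [h.1]
  have h2 := h1 s L h
  have hsq := pw13_sq L
  unfold nz4
  calc ∏ p ∈ prm 1 (Real.exp L), (LibZM.Gsum 2 (‖zp s p‖ ^ 2))⁻¹ ≤
        ∏ p ∈ prm 1 (Real.exp L), Real.exp (-(4 * ‖zp s p‖ ^ 2) + 24 * ((p : ℝ) ^ 2)⁻¹) := by
        refine Finset.prod_le_prod (fun p hp => ?_) fun p hp => ?_
        · obtain ⟨hpp, -, hpL⟩ := D2b_mem_prm.1 hp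
          have h3 := (P12_bd h hpp hpL).2
          have h4 := LibZM.Gsum_ge (κ := 2) (by norm_num) (z := ‖zp s p‖ ^ 2) (by positivity)
            (by nlinarith [norm_nonneg (zp s p)])
          have h5 : 0 < LibZM.Gsum 2 (‖zp s p‖ ^ 2) := lt_of_lt_of_le (by positivity) h4
          positivity
        · obtain ⟨hpp, -, hpL⟩ := D2b_mem_prm.1 hp
          have hp0 : (0 : ℝ) < p := by exact_mod_cast hpp.pos
          have h3 := (P12_bd h hpp hpL).2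
          have h4 := LibZM.Gsum_ge (κ := 2) (by norm_num) (z := ‖zp s p‖ ^ 2) (by positivity)
            (by nlinarith [norm_nonneg (zp s p)])
          have h6 := D3a_small h hpp.two_le hpL
          set r := ‖zp s p‖ ^ 2 with hr
          have hr0 : 0 ≤ r := by positivity
          have h5 : 0 < 1 + (2 : ℝ) ^ 2 * r := by positivity
          have h7 : (LibZM.Gsum 2 r)⁻¹ ≤ (1 + 4 * r)⁻¹ := by
            apply inv_anti₀ (by positivity)
            have : (1 : ℝ) + 2 ^ 2 * r = 1 + 4 * r := by norm_num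
            linarith
          have h8 : (1 + 4 * r)⁻¹ = 1 + -(4 * r / (1 + 4 * r)) := by
            field_simp
            ring
          have h9 : 4 * r - 16 * r ^ 2 ≤ 4 * r / (1 + 4 * r) := by
            rw [le_div_iff₀ (by positivity)]
            nlinarith [mul_nonneg hr0 (mul_nonneg hr0 hr0)]
          have h10 : r ^ 2 ≤ 3 / 2 * ((p : ℝ) ^ 2)⁻¹ := by
            have : r ^ 2 ≤ (6 / 5 / (p : ℝ)) ^ 2 := pow_le_pow_left₀ hr0 h6 2
            have e : (6 / 5 / (p : ℝ)) ^ 2 = 36 / 25 * ((p : ℝ) ^ 2)⁻¹ := by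
              rw [div_pow, div_eq_mul_inv]; norm_num
            have h11 : 0 ≤ ((p : ℝ) ^ 2)⁻¹ := by positivity
            linarith
          have h12 := Real.add_one_le_exp (-(4 * r) + 24 * ((p : ℝ) ^ 2)⁻¹)
          refine h7.trans ?_
          rw [h8]
          linarith
    _ = Real.exp (-(4 * ∑ p ∈ prm 1 (Real.exp L), ‖zp s p‖ ^ 2) + 24 * ∑ p ∈ prm 1 (Real.exp L), ((p : ℝ) ^ 2)⁻¹) := by
        rw [← Real.exp_sum, Finset.sum_add_distrib, Finset.sum_neg_distrib, ← Finset.mul_sum, ← Finset.mul_sum]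
    _ ≤ Real.exp ((4 * C1 + 48) - 4 * Real.log L) := Real.exp_le_exp.2 (by linarith)
    _ = _ := by
        rw [Real.exp_sub, mul_comm 4 (Real.log L), Real.exp_mul, Real.exp_log hL0]
        norm_num

/-- the normalising product of the main functional -/
theorem pw13_fac {α γ : ℂ} {L : ℝ} (hα : Adm α L) (hγ : Adm γ L) {p : ℕ} (hp : p ∈ prm 1 (Real.exp L)) :
    ‖1 - zp α p * zp γ p‖ ≤ Real.exp (-(p : ℝ)⁻¹ + (1 / L) * (Real.log p / p)) := by
  obtain ⟨hpp, -, hpL⟩ := D2b_mem_prm.1 hp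
  have hL : 1 ≤ L := hα.1
  have hL0 : 0 < L := by linarith
  have hp0 : (0 : ℝ) < p := by exact_mod_cast hpp.pos
  have hp1 : (1 : ℝ) ≤ p := by exact_mod_cast hpp.one_lt.le
  have hlog0 : 0 ≤ Real.log p := Real.log_natCast_nonneg p
  have ba := P12_bd hα hpp hpL
  have sa := P12_shift hα hpp hpL
  have sc := P12_shift hγ hpp hpL
  obtain ⟨hr0, hr1, hrr⟩ := P12_r hpp
  have hz : ‖zp 0 p‖ = (Real.sqrt p)⁻¹ := by
    have h1 := norm_zp_zero hpp
    rw [← Real.sqrt_inv, ← h1, Real.sqrt_sq (norm_nonneg _)]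
  have hz2 : zp 0 p * zp 0 p = (((p : ℝ)⁻¹ : ℝ) : ℂ) := by
    have h1 := D3a_sq 0 hpp.pos
    have h2 := norm_zp_zero hpp
    rw [h2] at h1
    rw [← sq, h1]
    simp
  have e : 1 - zp α p * zp γ p = (((1 - (p : ℝ)⁻¹ : ℝ)) : ℂ) - (zp α p * (zp γ p - zp 0 p) + (zp α p - zp 0 p) * zp 0 p) := by
    push_cast
    have : (((p : ℝ)⁻¹ : ℝ) : ℂ) = (p : ℂ)⁻¹ := by push_cast; rfl
    rw [← this, ← hz2]
    ring
  set r := (Real.sqrt p)⁻¹ with hr
  set l := Real.log p with hl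
  have h1 : ‖zp α p * (zp γ p - zp 0 p) + (zp α p - zp 0 p) * zp 0 p‖ ≤ (1 / L) * (l / p) := by
    refine (norm_add_le _ _).trans ?_
    rw [norm_mul, norm_mul, hz]
    have i1 : ‖zp α p‖ * ‖zp γ p - zp 0 p‖ ≤ (11 / 10 * r) * (2 * ‖γ‖ * l * r) :=
      mul_le_mul ba.1 sc (norm_nonneg _) (by positivity)
    have i2 : ‖zp α p - zp 0 p‖ * r ≤ (2 * ‖α‖ * l * r) * r := mul_le_mul_of_nonneg_right sa hr0.le
    have i3 : (11 / 10 * r) * (2 * ‖γ‖ * l * r) = 11 / 5 * ‖γ‖ * (l * (r * r)) := by ring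
    have i4 : (2 * ‖α‖ * l * r) * r = 2 * ‖α‖ * (l * (r * r)) := by ring
    have i5 : l / p = l * (r * r) := by rw [hrr, div_eq_mul_inv]
    have i6 : 11 / 5 * ‖γ‖ + 2 * ‖α‖ ≤ 1 / L := by
      have a1 := hα.2
      have a2 := hγ.2
      have a3 : 1 / L = 20 * (1 / (20 * L)) := by field_simp
      have a4 : 0 ≤ 1 / (20 * L) := by positivity
      rw [a3]
      nlinarith
    have i7 : 0 ≤ l * (r * r) := by positivity
    rw [i5]
    calc _ ≤ (11 / 5 * ‖γ‖ + 2 * ‖α‖) * (l * (r * r)) := by linarith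
      _ ≤ _ := mul_le_mul_of_nonneg_right i6 i7
  have h2 : ‖1 - zp α p * zp γ p‖ ≤ (1 - (p : ℝ)⁻¹) + (1 / L) * (l / p) := by
    rw [e]
    refine (norm_sub_le _ _).trans ?_
    rw [Complex.norm_real, Real.norm_eq_abs, abs_of_nonneg (by
      have : (p : ℝ)⁻¹ ≤ 1 := inv_le_one_of_one_le₀ hp1
      linarith)]
    linarith
  have h3 := Real.add_one_le_exp (-(p : ℝ)⁻¹ + (1 / L) * (l / p))
  linarith

theorem norm_upper : ∃ C : ℝ, 1 ≤ C ∧ ∀ (α β γ : ℂ) (L : ℝ), Adm α L → Adm β L → Adm γ L →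
    ‖∏ p ∈ prm 1 (Real.exp L), ((1 - zp α p * zp γ p) * (1 - zp β p * zp γ p))‖ ≤ C / L ^ 2 := by
  obtain ⟨C1, hC1, h1⟩ := mertens2
  obtain ⟨C2, hC2, h2⟩ := sum_log_prime_le
  refine ⟨Real.exp (2 * (C1 + (1 + C2))), Real.one_le_exp (by positivity), fun α β γ L hα hβ hγ => ?_⟩
  have hL := hα.1
  have hL0 : 0 < L := by linarith
  have hS1 := h1 L hL
  have hS2 := h2 (Real.exp L) (Real.one_le_exp hL0.le)
  rw [Real.log_exp] at hS2
  have h4 : Real.log L - C1 ≤ ∑ p ∈ prm 1 (Real.exp L), (p : ℝ)⁻¹ := by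
    have := (abs_le.1 hS1).1
    unfold Sp at this
    linarith
  have h5 : (1 / L) * ∑ p ∈ prm 1 (Real.exp L), Real.log p / p ≤ 1 + C2 := by
    have h6 : L + C2 ≤ L * (1 + C2) := by nlinarith
    calc _ ≤ (1 / L) * (L * (1 + C2)) := by
          apply mul_le_mul_of_nonneg_left (hS2.trans h6) (by positivity)
      _ = _ := by field_simp
  rw [norm_prod]
  calc ∏ p ∈ prm 1 (Real.exp L), ‖(1 - zp α p * zp γ p) * (1 - zp β p * zp γ p)‖ ≤
        ∏ p ∈ prm 1 (Real.exp L), Real.exp (2 * (-(p : ℝ)⁻¹ + (1 / L) * (Real.log p / p))) := by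
        refine Finset.prod_le_prod (fun _ _ => norm_nonneg _) fun p hp => ?_
        rw [norm_mul, two_mul, Real.exp_add]
        exact mul_le_mul (pw13_fac hα hγ hp) (pw13_fac hβ hγ hp) (norm_nonneg _) (Real.exp_pos _).le
    _ = Real.exp (2 * (-(∑ p ∈ prm 1 (Real.exp L), (p : ℝ)⁻¹) + (1 / L) * ∑ p ∈ prm 1 (Real.exp L), Real.log p / p)) := by
        rw [← Real.exp_sum, ← Finset.mul_sum, Finset.sum_add_distrib, Finset.sum_neg_distrib, ← Finset.mul_sum]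
    _ ≤ Real.exp (2 * (C1 + (1 + C2)) - 2 * Real.log L) := Real.exp_le_exp.2 (by linarith)
    _ = _ := by
        have e : Real.exp (2 * Real.log L) = L ^ 2 := by
          rw [mul_comm 2 (Real.log L), Real.exp_mul, Real.exp_log hL0]
          norm_num
        rw [Real.exp_sub, e]

end Pool.Agent.LibPW
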