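import Mathlib
import Pool.Agent.LibPW.PW_12
import Pool.Agent.LibPW.PW_13
import Pool.Agent.LibTG78.B05
import Pool.Agent.LibFG78.B05

/-! ROW 14: means over the tilted measures. `integral_nu` (LibTG78/B05, LibFG78/B05): `∫ f dν = nz ∫ f ‖ZZ‖² dμ`; norm_ZZ (PH_08):
`‖ZZ s 1 y x‖ = exp ∑ log ‖(1 - zp s p * ch x p)⁻¹‖`; chain_bound with `H p = 2 log ..` (Gs_log, Gs.smul; `b p = 2 zp s p`), resp. 4, resp. 0
(Gs.zero), resp. the sum of three; P12_shift: `‖zp s p - zp 0 p‖ ≤ 2‖s‖ log p/√p ≤ (1/(10 L)) log p/√p`; exp_quad with `τ = 2 + β`, resp.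
`4 + β`, `β`, 3, 1; nz_upper, nz4_upper. For `three` and `one` first use `1 ≤ GG 0` (GG_mul) and `0 ≤ EE`. -/

set_option autoImplicit false

namespace Pool.Agent.LibPW

open MeasureTheory Filter Topology Pool.Agent.LibMM99 Pool.Agent.LibTG78 Pool.Agent.LibPH45 Pool.Agent.LibFG78
open scoped ComplexConjugate

theorem pw14_chain {K K' : ℝ} (hK : K ≤ K') {v Y : ℕ → ℝ} {N : ℕ → ℕ} {n : ℕ} (h : Chain K' v Y N n) :
    Chain K v Y N n := by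
  refine ⟨h.zero, h.mono, h.three, h.sq, ?_, h.trunc, h.small⟩
  intro i hi
  refine le_trans ?_ (h.deg i hi)
  have h0 : 0 ≤ Sp (v i) (v (i + 1)) := Finset.sum_nonneg fun p _ => by positivity
  exact mul_le_mul_of_nonneg_right hK (by linarith)

theorem pw14_NS (N : ℕ → ℕ) (n : ℕ) : 0 ≤ NS N n := Finset.sum_nonneg fun _ _ => (Real.exp_pos _).le

theorem pw14_core {C : ℝ} (hC : 0 ≤ C) (τ β : ℝ) (hβ : |β| ≤ 1) {D : ℝ} (hD : 0 ≤ D) :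
    ∃ K C' : ℝ, 1 ≤ K ∧ 1 ≤ C' ∧ ∀ (L : ℝ) (v Y : ℕ → ℝ) (N : ℕ → ℕ) (n : ℕ) (b : ℕ → ℂ) (H : ℕ → Om → ℝ), 1 ≤ L →
      Chain K v Y N n → v n = Real.exp L → (∀ p ∈ prm 1 (Real.exp L), Gs C p (b p) (H p)) →
      (∀ p ∈ prm 1 (Real.exp L), ‖b p - ((τ - β : ℝ) : ℂ) * zp 0 p‖ ≤ D / L * (Real.log p * (Real.sqrt p)⁻¹)) →
      ∫ x, Real.exp (∑ p ∈ prm 1 (Real.exp L), H p x) * (GG β v Y N n x * EE v Y N n x) ∂mu ≤
        C' * L ^ (τ ^ 2 / 4) * NS N n := by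
  obtain ⟨K, hK1, hK⟩ := chain_bound hC
  obtain ⟨C1, hC1, hq⟩ := exp_quad τ D hD
  refine ⟨K, K * C1, hK1, ?_, ?_⟩
  · nlinarith
  intro L v Y N n b H hL hch hv hGs hb
  have h1 := hK v Y N n hch b H β hβ (by rw [hv]; exact hGs)
  rw [hv] at h1
  have h2 := hq L (fun p => b p + β * zp 0 p) hL (by
    intro p hp
    have h3 := hb p hp
    have h4 : b p + (β : ℂ) * zp 0 p - (τ : ℂ) * zp 0 p = b p - ((τ - β : ℝ) : ℂ) * zp 0 p := by
      push_cast; ring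
    rw [h4]
    exact h3)
  refine h1.trans ?_
  have h5 : K * Real.exp (∑ p ∈ prm 1 (Real.exp L), ‖b p + (β : ℂ) * zp 0 p‖ ^ 2 / 4) ≤ K * C1 * L ^ (τ ^ 2 / 4) := by
    rw [mul_assoc]
    exact mul_le_mul_of_nonneg_left h2 (by linarith)
  exact mul_le_mul_of_nonneg_right h5 (pw14_NS N n)

theorem pw14_shift {s : ℂ} {L : ℝ} (h : Adm s L) {p : ℕ} (hp : p ∈ prm 1 (Real.exp L)) :
    ‖zp s p - zp 0 p‖ ≤ 1 / (10 * L) * (Real.log p * (Real.sqrt p)⁻¹) := by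
  obtain ⟨hpp, hpL⟩ := P08_mem hp (Real.exp_pos L).le
  have h1 := P12_shift h hpp hpL
  obtain ⟨hL, hs⟩ := h
  have h2 : 0 ≤ Real.log p * (Real.sqrt p)⁻¹ := mul_nonneg (Real.log_natCast_nonneg p) (by positivity)
  have h3 : 2 * ‖s‖ ≤ 1 / (10 * L) := by
    have e : 1 / (10 * L) = 2 * (1 / (20 * L)) := by field_simp; norm_num
    rw [e]; linarith
  calc ‖zp s p - zp 0 p‖ ≤ 2 * ‖s‖ * Real.log p * (Real.sqrt p)⁻¹ := h1
    _ = 2 * ‖s‖ * (Real.log p * (Real.sqrt p)⁻¹) := by ring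
    _ ≤ _ := mul_le_mul_of_nonneg_right h3 h2

theorem pw14_zero {L : ℝ} (hL : 1 ≤ L) : Adm 0 L := ⟨hL, by rw [norm_zero]; positivity⟩

/-- the power `c` of the absolute value of the Euler product -/
theorem pw14_pow (c : ℕ) {β : ℝ} (hβ : |β| ≤ 1) : ∃ K C' : ℝ, 1 ≤ K ∧ 1 ≤ C' ∧ ∀ (s : ℂ) (L : ℝ) (v Y : ℕ → ℝ)
    (N : ℕ → ℕ) (n : ℕ), Adm s L → Chain K v Y N n → v n = Real.exp L →
      ∫ x, ‖ZZ s 1 (Real.exp L) x‖ ^ c * (GG β v Y N n x * EE v Y N n x) ∂mu ≤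
        C' * L ^ (((c : ℝ) + β) ^ 2 / 4) * NS N n := by
  obtain ⟨K, C', hK, hC', hc⟩ := pw14_core (C := |(c : ℝ)| * 50) (by positivity) ((c : ℝ) + β) β hβ
    (D := (c : ℝ) / 10) (by positivity)
  refine ⟨K, C', hK, hC', ?_⟩
  intro s L v Y N n hs hch hv
  have h1 := hc L v Y N n (fun p => (((c : ℝ) : ℝ) : ℂ) * zp s p)
    (fun p x => (c : ℝ) * Real.log ‖(1 - zp s p * ch x p)⁻¹‖) hs.1 hch hv
    (fun p hp => (Gs_log hs hp).smul (c : ℝ)) (by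
      intro p hp
      have h2 := pw14_shift hs hp
      have e : (((c : ℝ) : ℝ) : ℂ) * zp s p - (((c : ℝ) + β - β : ℝ) : ℂ) * zp 0 p = ((c : ℝ) : ℂ) * (zp s p - zp 0 p) := by
        push_cast; ring
      rw [e, norm_mul, Complex.norm_real, Real.norm_eq_abs, abs_of_nonneg (by positivity)]
      have hL : 0 < L := lt_of_lt_of_le one_pos hs.1
      calc (c : ℝ) * ‖zp s p - zp 0 p‖ ≤ (c : ℝ) * (1 / (10 * L) * (Real.log p * (Real.sqrt p)⁻¹)) :=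
            mul_le_mul_of_nonneg_left h2 (by positivity)
        _ = (c : ℝ) / 10 / L * (Real.log p * (Real.sqrt p)⁻¹) := by field_simp)
  have e1 : ∀ x, Real.exp (∑ p ∈ prm 1 (Real.exp L), (c : ℝ) * Real.log ‖(1 - zp s p * ch x p)⁻¹‖) =
      ‖ZZ s 1 (Real.exp L) x‖ ^ c := by
    intro x
    rw [norm_ZZ hs x, ← Finset.mul_sum, ← Real.exp_nat_mul]
  simp only [e1] at h1
  exact h1

theorem mean_mu : ∃ K C : ℝ, 1 ≤ K ∧ 1 ≤ C ∧ ∀ (L : ℝ) (v Y : ℕ → ℝ) (N : ℕ → ℕ) (n : ℕ), 1 ≤ L → Chain K v Y N n →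
    v n = Real.exp L → ∫ x, GG 1 v Y N n x * EE v Y N n x ∂mu ≤ C * L ^ (1 / 4 : ℝ) * NS N n := by
  obtain ⟨K, C', hK, hC', hc⟩ := pw14_pow 0 (β := 1) (by norm_num)
  refine ⟨K, C', hK, hC', ?_⟩
  intro L v Y N n hL hch hv
  have h1 := hc 0 L v Y N n (pw14_zero hL) hch hv
  simp only [pow_zero, one_mul] at h1
  have e : (((0 : ℕ) : ℝ) + 1) ^ 2 / 4 = (1 / 4 : ℝ) := by norm_num
  rw [e] at h1
  exact h1

theorem pw14_rpow {L : ℝ} (hL : 1 ≤ L) {a b : ℝ} (k : ℕ) (h : a - k = b) : L ^ a / L ^ k = L ^ b := by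
  rw [← h, Real.rpow_sub (by linarith), Real.rpow_natCast]

theorem mean_nu : ∃ K C : ℝ, 1 ≤ K ∧ 1 ≤ C ∧ ∀ (s : ℂ) (L : ℝ) (v Y : ℕ → ℝ) (N : ℕ → ℕ) (n : ℕ), Adm s L → Chain K v Y N n →
    v n = Real.exp L → ∫ x, GG 1 v Y N n x * EE v Y N n x ∂(nu s L) ≤ C * L ^ (5 / 4 : ℝ) * NS N n ∧
      ∫ x, GG (-1) v Y N n x * EE v Y N n x ∂(nu s L) ≤ C * L ^ (-(3 / 4) : ℝ) * NS N n := by
  obtain ⟨K1, C1, hK1, hC1, hc1⟩ := pw14_pow 2 (β := 1) (by norm_num)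
  obtain ⟨K2, C2, hK2, hC2, hc2⟩ := pw14_pow 2 (β := -1) (by norm_num)
  obtain ⟨C3, hC3, hn⟩ := nz_upper
  refine ⟨max K1 K2, C3 * max C1 C2, hK1.trans (le_max_left _ _), ?_, ?_⟩
  · have : 1 ≤ max C1 C2 := hC1.trans (le_max_left _ _)
    nlinarith
  intro s L v Y N n hs hch hv
  have hL : 1 ≤ L := hs.1
  have hL0 : 0 < L := by linarith
  have hNS := pw14_NS N n
  have hz := hn s L hs
  have hz0 : 0 < nz s 1 (Real.exp L) := nz_pos hs le_rfl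
  have hcc1 := pw14_chain (le_max_left K1 K2) hch
  have hcc2 := pw14_chain (le_max_right K1 K2) hch
  have h1 := hc1 s L v Y N n hs hcc1 hv
  have h2 := hc2 s L v Y N n hs hcc2 hv
  have c1 : Continuous fun x => GG 1 v Y N n x * EE v Y N n x :=
    (GE_poly hK1 hcc1 (β := 1) (by norm_num)).1.continuous
  have c2 : Continuous fun x => GG (-1) v Y N n x * EE v Y N n x :=
    (GE_poly hK2 hcc2 (β := -1) (by norm_num)).1.continuous
  have key : ∀ {I a e : ℝ} {C : ℝ}, 1 ≤ C → C ≤ max C1 C2 → I ≤ C * L ^ a * NS N n → a - (1 : ℕ) = e →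
      nz s 1 (Real.exp L) * I ≤ C3 * max C1 C2 * L ^ e * NS N n := by
    intro I a e C hC hCm hI hae
    calc nz s 1 (Real.exp L) * I ≤ nz s 1 (Real.exp L) * (C * L ^ a * NS N n) := mul_le_mul_of_nonneg_left hI hz0.le
      _ ≤ C3 / L * (C * L ^ a * NS N n) := mul_le_mul_of_nonneg_right hz (by positivity)
      _ = C3 * C * (L ^ a / L ^ 1) * NS N n := by rw [pow_one]; field_simp
      _ = C3 * C * L ^ e * NS N n := by rw [pw14_rpow hL 1 hae]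
      _ ≤ C3 * max C1 C2 * L ^ e * NS N n := by gcongr
  constructor
  · rw [Pool.Agent.LibTG78.integral_nu hs c1]
    exact key hC1 (le_max_left _ _) h1 (by norm_num)
  · rw [Pool.Agent.LibTG78.integral_nu hs c2]
    exact key hC2 (le_max_right _ _) h2 (by norm_num)

theorem mean_nu4 : ∃ K C : ℝ, 1 ≤ K ∧ 1 ≤ C ∧ ∀ (s : ℂ) (L : ℝ) (v Y : ℕ → ℝ) (N : ℕ → ℕ) (n : ℕ), Adm s L → Chain K v Y N n →
    v n = Real.exp L → ∫ x, GG (-1) v Y N n x * EE v Y N n x ∂(nu4 s L) ≤ C * L ^ (-(7 / 4) : ℝ) * NS N n := by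
  obtain ⟨K2, C2, hK2, hC2, hc2⟩ := pw14_pow 4 (β := -1) (by norm_num)
  obtain ⟨C3, hC3, hn⟩ := nz4_upper
  refine ⟨K2, C3 * C2, hK2, by nlinarith, ?_⟩
  intro s L v Y N n hs hch hv
  have hL : 1 ≤ L := hs.1
  have hL0 : 0 < L := by linarith
  have hNS := pw14_NS N n
  have hz := hn s L hs
  have hz0 : 0 < nz4 s 1 (Real.exp L) := Pool.Agent.LibFG78.nz_pos hs le_rfl
  have h2 := hc2 s L v Y N n hs hch hv
  have c2 : Continuous fun x => GG (-1) v Y N n x * EE v Y N n x :=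
    (GE_poly hK2 hch (β := -1) (by norm_num)).1.continuous
  rw [Pool.Agent.LibFG78.integral_nu hs c2]
  have hae : (((4 : ℕ) : ℝ) + -1) ^ 2 / 4 - (4 : ℕ) = (-(7 / 4) : ℝ) := by norm_num
  generalize (((4 : ℕ) : ℝ) + -1) ^ 2 / 4 = a at h2 hae
  calc nz4 s 1 (Real.exp L) * ∫ x, ‖ZZ s 1 (Real.exp L) x‖ ^ 4 * (GG (-1) v Y N n x * EE v Y N n x) ∂mu
      ≤ nz4 s 1 (Real.exp L) * (C2 * L ^ a * NS N n) := mul_le_mul_of_nonneg_left h2 hz0.le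
    _ ≤ C3 / L ^ 4 * (C2 * L ^ a * NS N n) := mul_le_mul_of_nonneg_right hz (by positivity)
    _ = C3 * C2 * (L ^ a / L ^ 4) * NS N n := by field_simp
    _ = C3 * C2 * L ^ (-(7 / 4) : ℝ) * NS N n := by rw [pw14_rpow hL 4 hae]

theorem mean_three : ∃ K C : ℝ, 1 ≤ K ∧ 1 ≤ C ∧ ∀ (α β γ : ℂ) (L : ℝ) (v Y : ℕ → ℝ) (N : ℕ → ℕ) (n : ℕ), Adm α L → Adm β L →
    Adm γ L → Chain K v Y N n → v n = Real.exp L →
    ∫ x, ‖ZZ α 1 (Real.exp L) x‖ * ‖ZZ β 1 (Real.exp L) x‖ * ‖ZZ γ 1 (Real.exp L) x‖ * EE v Y N n x ∂mu ≤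
      C * L ^ (9 / 4 : ℝ) * NS N n := by
  obtain ⟨K, C', hK, hC', hc⟩ := pw14_core (C := 50 + 50 + 50) (by norm_num) 3 0 (by norm_num) (D := 1) (by norm_num)
  refine ⟨K, C', hK, hC', ?_⟩
  intro α β γ L v Y N n hα hβ hγ hch hv
  have hL : 1 ≤ L := hα.1
  have hL0 : 0 < L := by linarith
  have h1 := hc L v Y N n (fun p => zp α p + zp β p + zp γ p)
    (fun p x => Real.log ‖(1 - zp α p * ch x p)⁻¹‖ + Real.log ‖(1 - zp β p * ch x p)⁻¹‖ +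
      Real.log ‖(1 - zp γ p * ch x p)⁻¹‖) hL hch hv
    (fun p hp => ((Gs_log hα hp).add (Gs_log hβ hp)).add (Gs_log hγ hp)) (by
      intro p hp
      have h2 := pw14_shift hα hp
      have h3 := pw14_shift hβ hp
      have h4 := pw14_shift hγ hp
      have e : zp α p + zp β p + zp γ p - (((3 : ℝ) - 0 : ℝ) : ℂ) * zp 0 p =
          (zp α p - zp 0 p) + (zp β p - zp 0 p) + (zp γ p - zp 0 p) := by
        push_cast; ring
      rw [e]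
      refine (norm_add₃_le).trans ?_
      have h5 : 0 ≤ 1 / (10 * L) * (Real.log p * (Real.sqrt p)⁻¹) :=
        mul_nonneg (by positivity) (mul_nonneg (Real.log_natCast_nonneg p) (by positivity))
      have h6 : 1 / L * (Real.log p * (Real.sqrt p)⁻¹) = 10 * (1 / (10 * L) * (Real.log p * (Real.sqrt p)⁻¹)) := by
        field_simp
      rw [h6]
      linarith)
  have e1 : ∀ x, Real.exp (∑ p ∈ prm 1 (Real.exp L), (Real.log ‖(1 - zp α p * ch x p)⁻¹‖ +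
      Real.log ‖(1 - zp β p * ch x p)⁻¹‖ + Real.log ‖(1 - zp γ p * ch x p)⁻¹‖)) =
      ‖ZZ α 1 (Real.exp L) x‖ * ‖ZZ β 1 (Real.exp L) x‖ * ‖ZZ γ 1 (Real.exp L) x‖ := by
    intro x
    rw [norm_ZZ hα x, norm_ZZ hβ x, norm_ZZ hγ x, Finset.sum_add_distrib, Finset.sum_add_distrib, Real.exp_add,
      Real.exp_add]
  simp only [e1] at h1
  have e2 : ((3 : ℝ) ^ 2 / 4) = 9 / 4 := by norm_num
  rw [e2] at h1
  refine le_trans ?_ h1
  obtain ⟨g1, -, g3, -, g5⟩ := GE_poly hK hch (β := 0) (by norm_num)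
  have cZ : Continuous fun x => ‖ZZ α 1 (Real.exp L) x‖ * ‖ZZ β 1 (Real.exp L) x‖ * ‖ZZ γ 1 (Real.exp L) x‖ :=
    ((continuous_ZZ hα le_rfl).norm.mul (continuous_ZZ hβ le_rfl).norm).mul (continuous_ZZ hγ le_rfl).norm
  refine integral_mono (integrable_of_continuous (cZ.mul g5)) (integrable_of_continuous (cZ.mul g1.continuous)) ?_
  intro x
  refine mul_le_mul_of_nonneg_left ?_ (by positivity)
  have h7 := (GG_mul hK hch x).2
  calc EE v Y N n x = 1 * EE v Y N n x := (one_mul _).symm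
    _ ≤ GG 0 v Y N n x * EE v Y N n x := mul_le_mul_of_nonneg_right h7 (g3 x)

theorem mean_one : ∃ K C : ℝ, 1 ≤ K ∧ 1 ≤ C ∧ ∀ (L : ℝ) (v Y : ℕ → ℝ) (N : ℕ → ℕ) (n : ℕ), 1 ≤ L →
    Chain K v Y N n → v n = Real.exp L →
    ∫ x, ‖ZZ 0 1 (Real.exp L) x‖ * EE v Y N n x ∂mu ≤ C * L ^ (1 / 4 : ℝ) * NS N n := by
  obtain ⟨K, C', hK, hC', hc⟩ := pw14_pow 1 (β := 0) (by norm_num)
  refine ⟨K, C', hK, hC', ?_⟩
  intro L v Y N n hL hch hv
  have h1 := hc 0 L v Y N n (pw14_zero hL) hch hv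
  simp only [pow_one] at h1
  have e : (((1 : ℕ) : ℝ) + 0) ^ 2 / 4 = (1 / 4 : ℝ) := by norm_num
  rw [e] at h1
  refine le_trans ?_ h1
  obtain ⟨g1, -, g3, -, g5⟩ := GE_poly hK hch (β := 0) (by norm_num)
  have cZ : Continuous fun x => ‖ZZ 0 1 (Real.exp L) x‖ := (continuous_ZZ (pw14_zero hL) le_rfl).norm
  refine integral_mono (integrable_of_continuous (cZ.mul g5)) (integrable_of_continuous (cZ.mul g1.continuous)) ?_
  intro x
  refine mul_le_mul_of_nonneg_left ?_ (norm_nonneg _)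
  have h7 := (GG_mul hK hch x).2
  calc EE v Y N n x = 1 * EE v Y N n x := (one_mul _).symm
    _ ≤ GG 0 v Y N n x * EE v Y N n x := mul_le_mul_of_nonneg_right h7 (g3 x)

end Pool.Agent.LibPW
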