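import Mathlib
import Pool.Agent.LibPW.Defs
import Pool.Agent.LibTG78.D5a
import Pool.Agent.LibFG78.NT4

/-! ROW 15: upper bounds for the second and the fourth moment with a nonnegative polynomial weight. `T2_bound`: D5_poly (LibTG78) at `T` and at
`2T` (`log(2T) ≤ 2 log T`, `∫ |F| = ∫ F`, `∫ F dν_0 ≤ A`, `L ≤ log T`). `T4_bound`: mom4 (LibFG78/NT4) with `d = 1/T`:
`e^{-2t/T} ≥ e^{-4}` on `[0, 2T]`, the integrand is nonnegative and integrable on `(0, ∞)` (integrability: as in the proof of mom4 or from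
LibPH.fourth_crude (LibPH/Q01) and the boundedness of `F`). Take `δ` the smaller exponent; `T^{-3δ} ≤ T^{-δ}`. -/

set_option autoImplicit false

namespace Pool.Agent.LibPW

open MeasureTheory Filter Topology Pool.Agent.LibMM99 Pool.Agent.LibTG78 Pool.Agent.LibPH45 Pool.Agent.LibFG78
open scoped ComplexConjugate

theorem T2_bound : ∃ C δ T0 : ℝ, 1 ≤ C ∧ 0 < δ ∧ 3 ≤ T0 ∧ ∀ (a L A T : ℝ) (F : Om → ℝ), 1 ≤ L → L ≤ Real.log T → T0 ≤ T →
    a ≤ δ * Real.log T → IsPolyR a F → DependsOn F (coo 1 (Real.exp L)) → (∀ x, 0 ≤ F x) →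
    (∀ s : ℂ, Adm s L → ∫ x, F x ∂(nu s L) ≤ A) →
    (1 / T) * (∫ t in (0 : ℝ)..T, ‖riemannZeta (1 / 2 + t * Complex.I)‖ ^ 2 * F (xt t)) ≤
      C * Real.log T * A + C * T ^ (-δ) ∧
    (1 / T) * (∫ t in (0 : ℝ)..(2 * T), ‖riemannZeta (1 / 2 + t * Complex.I)‖ ^ 2 * F (xt t)) ≤
      C * Real.log T * A + C * T ^ (-δ) := by
  obtain ⟨C1, δ, T1, hC1, hδ, hT1, hD⟩ := D5_poly
  refine ⟨4 + 2 * C1, δ, max T1 3, by linarith, hδ, le_max_right _ _, ?_⟩
  intro a L A T F hL hLT hT ha hF hdep hF0 hA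
  have hT1' : T1 ≤ T := (le_max_left _ _).trans hT
  have hT3 : 3 ≤ T := (le_max_right _ _).trans hT
  have hT0 : 0 < T := by linarith
  have hl1 : 1 ≤ Real.log T := hL.trans hLT
  have hA' : ∀ s : ℂ, Adm s L → ∫ x, |F x| ∂(nu s L) ≤ A := by
    intro s hs
    have e : (fun x => |F x|) = F := funext fun x => abs_of_nonneg (hF0 x)
    rw [e]
    exact hA s hs
  have hadm0 : Adm 0 L := ⟨hL, by rw [norm_zero]; positivity⟩
  have hI0 := hA 0 hadm0
  have hI1 : 0 ≤ ∫ x, F x ∂(nu 0 L) := integral_nonneg hF0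
  have hA0 : 0 ≤ A := hI1.trans hI0
  have key : ∀ S : ℝ, T ≤ S →
      (1 / S) * (∫ t in (0 : ℝ)..S, ‖riemannZeta (1 / 2 + t * Complex.I)‖ ^ 2 * F (xt t)) ≤
        Real.log S * A + C1 * Real.log T * A + C1 * T ^ (-δ) := by
    intro S hS
    have hS0 : 0 < S := by linarith
    have hlog : Real.log T ≤ Real.log S := Real.log_le_log hT0 hS
    have h1 := hD a L A S F hL (hT1'.trans hS) (ha.trans (mul_le_mul_of_nonneg_left hlog hδ.le)) hF hdep hA'
    have h2 := (abs_le.1 h1).2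
    have h3 : Real.log S * ∫ x, F x ∂(nu 0 L) ≤ Real.log S * A :=
      mul_le_mul_of_nonneg_left hI0 (by linarith)
    have h4 : C1 * L * A ≤ C1 * Real.log T * A :=
      mul_le_mul_of_nonneg_right (mul_le_mul_of_nonneg_left hLT hC1.le) hA0
    have h5 : S ^ (-(3 * δ)) ≤ T ^ (-δ) := by
      calc S ^ (-(3 * δ)) ≤ S ^ (-δ) :=
            Real.rpow_le_rpow_of_exponent_le (by linarith) (by linarith)
        _ ≤ T ^ (-δ) := Real.rpow_le_rpow_of_nonpos hT0 hS (by linarith)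
    have h6 : C1 * S ^ (-(3 * δ)) ≤ C1 * T ^ (-δ) := mul_le_mul_of_nonneg_left h5 hC1.le
    linarith
  have hTd : 0 ≤ T ^ (-δ) := by positivity
  have hlA : 0 ≤ Real.log T * A := mul_nonneg (by linarith) hA0
  have hcTd : 0 ≤ C1 * T ^ (-δ) := mul_nonneg hC1.le hTd
  have hcA : 0 ≤ C1 * (Real.log T * A) := mul_nonneg hC1.le hlA
  constructor
  · have h1 := key T le_rfl
    nlinarith
  · have h1 := key (2 * T) (by linarith)
    have h2 : Real.log (2 * T) ≤ 2 * Real.log T := by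
      rw [Real.log_mul (by norm_num) hT0.ne']
      have : Real.log 2 ≤ Real.log T := Real.log_le_log (by norm_num) (by linarith)
      linarith
    have h3 : Real.log (2 * T) * A ≤ 2 * Real.log T * A := mul_le_mul_of_nonneg_right h2 hA0
    obtain ⟨Q, hQ⟩ : ∃ Q : ℝ, Q = ∫ t in (0 : ℝ)..(2 * T), ‖riemannZeta (1 / 2 + t * Complex.I)‖ ^ 2 * F (xt t) :=
      ⟨_, rfl⟩
    rw [← hQ] at h1 ⊢
    have h4 : (1 / T) * Q = 2 * ((1 / (2 * T)) * Q) := by
      field_simp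
    rw [h4]
    nlinarith

/-- continuous functions on the torus are bounded -/
theorem pw15_bdd {F : Om → ℝ} (hF : Continuous F) : ∃ B : ℝ, ∀ x, ‖F x‖ ≤ B := by
  obtain ⟨B, hB⟩ := (isCompact_univ (X := Om)).exists_bound_of_continuousOn hF.continuousOn
  exact ⟨B, fun x => hB x (Set.mem_univ x)⟩

theorem T4_bound : ∃ C δ T0 : ℝ, 1 ≤ C ∧ 0 < δ ∧ 3 ≤ T0 ∧ ∀ (a L A T : ℝ) (F : Om → ℝ), 1 ≤ L → L ≤ Real.log T → T0 ≤ T →
    a ≤ δ * Real.log T → IsPolyR a F → DependsOn F (coo 1 (Real.exp L)) → (∀ x, 0 ≤ F x) →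
    (∀ s : ℂ, Adm s L → ∫ x, F x ∂(nu4 s L) ≤ A) →
    (1 / T) * (∫ t in (0 : ℝ)..(2 * T), ‖riemannZeta (1 / 2 + t * Complex.I)‖ ^ 4 * F (xt t)) ≤
      C * Real.log T ^ 4 * A + C * T ^ (-δ) := by
  obtain ⟨C1, η, d0, hC1, hη, hd0, hd1, hM⟩ := mom4
  obtain ⟨C2, _, hI4⟩ := LibF4.I4_half
  refine ⟨Real.exp 4 * (1 + C1), η, max (1 / d0) 3, ?_, hη, le_max_right _ _, ?_⟩
  · have h1 : 1 ≤ Real.exp 4 := Real.one_le_exp (by norm_num)
    nlinarith
  intro a L A T F hL hLT hT ha hF hdep hF0 hA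
  have hTd : 1 / d0 ≤ T := (le_max_left _ _).trans hT
  have hT3 : 3 ≤ T := (le_max_right _ _).trans hT
  have hT0 : 0 < T := by linarith
  have hl1 : 1 ≤ Real.log T := hL.trans hLT
  have hA' : ∀ s : ℂ, Adm s L → ∫ x, |F x| ∂(nu4 s L) ≤ A := by
    intro s hs
    have e : (fun x => |F x|) = F := funext fun x => abs_of_nonneg (hF0 x)
    rw [e]
    exact hA s hs
  have hadm0 : Adm 0 L := ⟨hL, by rw [norm_zero]; positivity⟩
  have hI0 := hA 0 hadm0
  have hI1 : 0 ≤ ∫ x, F x ∂(nu4 0 L) := integral_nonneg hF0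
  have hA0 : 0 ≤ A := hI1.trans hI0
  have hd : (0 : ℝ) < 1 / T := by positivity
  have hdd0 : 1 / T ≤ d0 := by
    rw [div_le_iff₀ hT0]
    rw [div_le_iff₀ hd0] at hTd
    linarith
  have hlog : Real.log (1 / (1 / T)) = Real.log T := by rw [one_div_one_div]
  have h1 := hM a L A (1 / T) F hL hd hdd0 (by rw [hlog]; exact ha) (by rw [hlog]; exact hLT) hF hdep hA'
  rw [hlog] at h1
  have h2 := (abs_le.1 h1).2
  have hint := (hI4 (1 / T) hd (hdd0.trans hd1) 1 1 le_rfl le_rfl).1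
  obtain ⟨B, hB⟩ := pw15_bdd hF.continuous
  have hFc : Continuous fun t : ℝ => F (xt t) := hF.continuous.comp continuous_xt
  have hint2 : IntegrableOn (fun t : ℝ => ‖riemannZeta (1 / 2 + t * Complex.I)‖ ^ 4 * Real.exp (-(2 * (1 / T) * t)) *
      F (xt t)) (Set.Ioi 0) := by
    refine Integrable.mul_bdd (c := B) ?_ hFc.aestronglyMeasurable (Eventually.of_forall fun t => hB _)
    refine hint.congr (Eventually.of_forall fun t => ?_)
    simp only [NT4_crit]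
  obtain ⟨J, hJ⟩ : ∃ J : ℝ, J = ∫ t in Set.Ioi (0 : ℝ), ‖riemannZeta (1 / 2 + t * Complex.I)‖ ^ 4 *
    Real.exp (-(2 * (1 / T) * t)) * F (xt t) := ⟨_, rfl⟩
  rw [← hJ] at h2
  have hexp : ∀ t ∈ Set.Ioc (0 : ℝ) (2 * T), Real.exp (-4) ≤ Real.exp (-(2 * (1 / T) * t)) := by
    intro t ht
    apply Real.exp_le_exp.2
    have h3 : 2 * (1 / T) * t ≤ 2 * (1 / T) * (2 * T) := mul_le_mul_of_nonneg_left ht.2 (by positivity)
    have h4 : 2 * (1 / T) * (2 * T) = 4 := by field_simp; norm_num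
    linarith
  have h3 : Real.exp (-4) * (∫ t in (0 : ℝ)..(2 * T), ‖riemannZeta (1 / 2 + t * Complex.I)‖ ^ 4 * F (xt t)) ≤ J := by
    rw [intervalIntegral.integral_of_le (by linarith), ← integral_const_mul, hJ]
    have h5 : ∫ t in Set.Ioc (0 : ℝ) (2 * T), Real.exp (-4) * (‖riemannZeta (1 / 2 + t * Complex.I)‖ ^ 4 * F (xt t)) ≤
        ∫ t in Set.Ioc (0 : ℝ) (2 * T), ‖riemannZeta (1 / 2 + t * Complex.I)‖ ^ 4 * Real.exp (-(2 * (1 / T) * t)) *
          F (xt t) := by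
      apply setIntegral_mono_on
      · have hc : Continuous fun t : ℝ => Real.exp (-4) * (‖riemannZeta (1 / 2 + t * Complex.I)‖ ^ 4 * F (xt t)) :=
          continuous_const.mul ((D5_zeta_cont.norm.pow 4).mul hFc)
        exact (hc.integrableOn_Icc (a := 0) (b := 2 * T)).mono_set Set.Ioc_subset_Icc_self
      · exact hint2.mono_set (fun t ht => ht.1)
      · exact measurableSet_Ioc
      · intro t ht
        have h6 := hexp t ht
        have h7 : 0 ≤ ‖riemannZeta (1 / 2 + t * Complex.I)‖ ^ 4 * F (xt t) := mul_nonneg (by positivity) (hF0 _)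
        calc _ ≤ Real.exp (-(2 * (1 / T) * t)) * (‖riemannZeta (1 / 2 + t * Complex.I)‖ ^ 4 * F (xt t)) :=
              mul_le_mul_of_nonneg_right h6 h7
          _ = _ := by ring
    refine h5.trans (setIntegral_mono_set hint2 ?_ ?_)
    · exact Eventually.of_forall fun t => mul_nonneg (mul_nonneg (by positivity) (Real.exp_pos _).le) (hF0 _)
    · exact Filter.Eventually.of_forall (fun t (ht : t ∈ Set.Ioc (0 : ℝ) (2 * T)) => (ht.1 : t ∈ Set.Ioi (0 : ℝ)))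
  have h4 : (∫ t in (0 : ℝ)..(2 * T), ‖riemannZeta (1 / 2 + t * Complex.I)‖ ^ 4 * F (xt t)) ≤ Real.exp 4 * J := by
    have h5 : Real.exp 4 * Real.exp (-4) = 1 := by rw [← Real.exp_add]; norm_num
    calc _ = Real.exp 4 * (Real.exp (-4) *
          (∫ t in (0 : ℝ)..(2 * T), ‖riemannZeta (1 / 2 + t * Complex.I)‖ ^ 4 * F (xt t))) := by
          rw [← mul_assoc, h5, one_mul]
      _ ≤ _ := mul_le_mul_of_nonneg_left h3 (Real.exp_pos _).le
  have hTη : (1 / T) ^ η = T ^ (-η) := by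
    rw [one_div, Real.inv_rpow hT0.le, Real.rpow_neg hT0.le]
  rw [hTη] at h2
  have h5 : 1 / (4 * Real.pi ^ 2) * Real.log T ^ 4 * ∫ x, F x ∂(nu4 0 L) ≤ Real.log T ^ 4 * A := by
    have h6 : 1 / (4 * Real.pi ^ 2) ≤ 1 := by
      rw [div_le_one (by positivity)]
      nlinarith [Real.pi_gt_three]
    have h7 : 1 / (4 * Real.pi ^ 2) * Real.log T ^ 4 ≤ 1 * Real.log T ^ 4 :=
      mul_le_mul_of_nonneg_right h6 (by positivity)
    calc _ ≤ (1 * Real.log T ^ 4) * A := mul_le_mul h7 hI0 hI1 (by positivity)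
      _ = _ := by ring
  have h6 : C1 * L * Real.log T ^ 3 * A ≤ C1 * Real.log T ^ 4 * A := by
    have : C1 * L * Real.log T ^ 3 ≤ C1 * Real.log T * Real.log T ^ 3 := by gcongr
    calc _ ≤ (C1 * Real.log T * Real.log T ^ 3) * A := mul_le_mul_of_nonneg_right this hA0
      _ = _ := by ring
  have h7 : 1 / T * J ≤ (1 + C1) * Real.log T ^ 4 * A + (1 + C1) * T ^ (-η) := by
    have : 0 ≤ T ^ (-η) := by positivity
    nlinarith
  calc (1 / T) * (∫ t in (0 : ℝ)..(2 * T), ‖riemannZeta (1 / 2 + t * Complex.I)‖ ^ 4 * F (xt t)) ≤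
        (1 / T) * (Real.exp 4 * J) := mul_le_mul_of_nonneg_left h4 hd.le
    _ = Real.exp 4 * (1 / T * J) := by ring
    _ ≤ Real.exp 4 * ((1 + C1) * Real.log T ^ 4 * A + (1 + C1) * T ^ (-η)) :=
        mul_le_mul_of_nonneg_left h7 (Real.exp_pos _).le
    _ = _ := by ring

end Pool.Agent.LibPW
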