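import Mathlib
import Pool.Agent.LibPW.PW_10
import Pool.Agent.LibPW.PW_14
import Pool.Agent.LibPW.PW_15

/-! ROW 16: the error integrals. -/

set_option autoImplicit false

namespace Pool.Agent.LibPW

open MeasureTheory Filter Topology Pool.Agent.LibMM99 Pool.Agent.LibTG78 Pool.Agent.LibPH45 Pool.Agent.LibFG78
open scoped ComplexConjugate

theorem pw16_amgm {a g g' : ℝ} (ha : 0 ≤ a) (hg : 0 ≤ g) (hg' : 0 ≤ g') (h : 1 ≤ g * g') :
    a ≤ 1 / 2 * (g + a ^ 2 * g') := by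
  have h1 : (2 * a) ^ 2 ≤ (g + a ^ 2 * g') ^ 2 := by
    have h2 : a ^ 2 * 1 ≤ a ^ 2 * (g * g') := mul_le_mul_of_nonneg_left h (sq_nonneg a)
    nlinarith [sq_nonneg (g - a ^ 2 * g')]
  have h3 : 2 * a ≤ g + a ^ 2 * g' := by
    have h4 : 0 ≤ g + a ^ 2 * g' := by positivity
    exact (pow_le_pow_iff_left₀ (by positivity) h4 two_ne_zero).1 h1
  linarith

theorem pw16_pow {L : ℝ} (hL : 1 ≤ L) : L ^ (5 / 4 : ℝ) = L ^ (1 / 4 : ℝ) * L ∧
    L ^ (-(7 / 4) : ℝ) = L ^ (1 / 4 : ℝ) / L ^ 2 ∧ L ^ (-(3 / 4) : ℝ) = L ^ (1 / 4 : ℝ) / L := by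
  have hL0 : 0 < L := by linarith
  refine ⟨?_, ?_, ?_⟩
  · have e : (5 / 4 : ℝ) = 1 / 4 + 1 := by norm_num
    rw [e, Real.rpow_add hL0, Real.rpow_one]
  · have e : (-(7 / 4) : ℝ) = 1 / 4 - (2 : ℕ) := by norm_num
    rw [e, Real.rpow_sub hL0, Real.rpow_natCast]
  · have e : (-(3 / 4) : ℝ) = 1 / 4 - 1 := by norm_num
    rw [e, Real.rpow_sub hL0, Real.rpow_one]

theorem pw16_rpow {T δ δ' : ℝ} (hT : 1 ≤ T) (h : δ ≤ δ') : T ^ (-δ') ≤ T ^ (-δ) :=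
  Real.rpow_le_rpow_of_exponent_le hT (by linarith)

theorem third_err : ∃ K C δ T0 : ℝ, 1 ≤ K ∧ 1 ≤ C ∧ 0 < δ ∧ 3 ≤ T0 ∧ ∀ (L T : ℝ) (v Y : ℕ → ℝ) (N : ℕ → ℕ) (n : ℕ), 1 ≤ L →
    L ≤ Real.log T → T0 ≤ T → Chain K v Y N n → v n = Real.exp L → 2 * len Y N n + 1 ≤ δ * Real.log T →
    (1 / T) * (∫ t in (0 : ℝ)..(2 * T), ‖riemannZeta (1 / 2 + t * Complex.I)‖ ^ 3 * EE v Y N n (xt t)) ≤
      C * (Real.log T ^ 2 * L ^ (1 / 4 : ℝ)) * ((Real.log T / L) ^ 2 * NS N n) + C * T ^ (-δ) := by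
  obtain ⟨K1, C1, hK1, hC1, hnu⟩ := mean_nu
  obtain ⟨K2, C2, hK2, hC2, hnu4⟩ := mean_nu4
  obtain ⟨C3, δ3, T3, hC3, hδ3, hT3, h2⟩ := T2_bound
  obtain ⟨C4, δ4, T4, hC4, hδ4, hT4, h4⟩ := T4_bound
  refine ⟨max K1 K2, C3 * C1 + C4 * C2 + C3 + C4, min δ3 δ4, max T3 T4, hK1.trans (le_max_left _ _), ?_,
    lt_min hδ3 hδ4, hT3.trans (le_max_left _ _), ?_⟩
  · have : 0 ≤ C3 * C1 := by positivity
    have : 0 ≤ C4 * C2 := by positivity
    linarith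
  intro L T v Y N n hL hLT hT hch hv hlen
  have hT0 : 3 ≤ T := (hT3.trans (le_max_left _ _)).trans hT
  have hTp : 0 < T := by linarith
  have hl1 : 1 ≤ Real.log T := hL.trans hLT
  have hNS := pw14_NS N n
  have hc1 := pw14_chain (le_max_left K1 K2) hch
  have hc2 := pw14_chain (le_max_right K1 K2) hch
  have g1 := GE_poly hK1 hc1 (β := 1) (by norm_num)
  have g2 := GE_poly hK2 hc2 (β := -1) (by norm_num)
  have hlen3 : 2 * len Y N n + 1 ≤ δ3 * Real.log T :=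
    hlen.trans (mul_le_mul_of_nonneg_right (min_le_left _ _) (by linarith))
  have hlen4 : 2 * len Y N n + 1 ≤ δ4 * Real.log T :=
    hlen.trans (mul_le_mul_of_nonneg_right (min_le_right _ _) (by linarith))
  have b1 := (h2 (2 * len Y N n + 1) L (C1 * L ^ (5 / 4 : ℝ) * NS N n) T _ hL hLT ((le_max_left _ _).trans hT) hlen3 g1.1
    (by rw [← hv]; exact g1.2.1) (fun x => mul_nonneg (g1.2.2.2.1 x) (g1.2.2.1 x))
    (fun s hs => (hnu s L v Y N n hs hc1 hv).1)).2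
  have b2 := h4 (2 * len Y N n + 1) L (C2 * L ^ (-(7 / 4) : ℝ) * NS N n) T _ hL hLT ((le_max_right _ _).trans hT) hlen4 g2.1
    (by rw [← hv]; exact g2.2.1) (fun x => mul_nonneg (g2.2.2.2.1 x) (g2.2.2.1 x))
    (fun s hs => hnu4 s L v Y N n hs hc2 hv)
  have hzc : Continuous fun t : ℝ => riemannZeta (1 / 2 + t * Complex.I) := D5_zeta_cont
  have hE : Continuous fun t : ℝ => EE v Y N n (xt t) := g1.2.2.2.2.comp continuous_xt
  have hG1 : Continuous fun t : ℝ => GG 1 v Y N n (xt t) * EE v Y N n (xt t) := g1.1.continuous.comp continuous_xt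
  have hG2 : Continuous fun t : ℝ => GG (-1) v Y N n (xt t) * EE v Y N n (xt t) := g2.1.continuous.comp continuous_xt
  have i0 : IntervalIntegrable (fun t : ℝ => ‖riemannZeta (1 / 2 + t * Complex.I)‖ ^ 3 * EE v Y N n (xt t)) volume 0 (2 * T) :=
    ((hzc.norm.pow 3).mul hE).intervalIntegrable _ _
  have i1 : IntervalIntegrable (fun t : ℝ => ‖riemannZeta (1 / 2 + t * Complex.I)‖ ^ 2 *
      (GG 1 v Y N n (xt t) * EE v Y N n (xt t))) volume 0 (2 * T) :=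
    ((hzc.norm.pow 2).mul hG1).intervalIntegrable _ _
  have i2 : IntervalIntegrable (fun t : ℝ => ‖riemannZeta (1 / 2 + t * Complex.I)‖ ^ 4 *
      (GG (-1) v Y N n (xt t) * EE v Y N n (xt t))) volume 0 (2 * T) :=
    ((hzc.norm.pow 4).mul hG2).intervalIntegrable _ _
  have hmono := intervalIntegral.integral_mono_on (μ := volume) (by linarith : (0 : ℝ) ≤ 2 * T) i0
    ((i1.add i2).const_mul (1 / 2)) (fun t _ => by
      have hp := (GG_mul hK1 hc1 (xt t)).1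
      have a1 := pw16_amgm (norm_nonneg (riemannZeta (1 / 2 + t * Complex.I))) (g1.2.2.2.1 (xt t))
        (g2.2.2.2.1 (xt t)) hp
      have a2 : 0 ≤ ‖riemannZeta (1 / 2 + t * Complex.I)‖ ^ 2 * EE v Y N n (xt t) :=
        mul_nonneg (by positivity) (g1.2.2.1 (xt t))
      have a3 := mul_le_mul_of_nonneg_left a1 a2
      linarith [a3])
  rw [intervalIntegral.integral_const_mul] at hmono
  rw [intervalIntegral.integral_add i1 i2] at hmono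
  obtain ⟨I0, hI0⟩ : ∃ I0, I0 = ∫ t in (0 : ℝ)..(2 * T), ‖riemannZeta (1 / 2 + t * Complex.I)‖ ^ 3 * EE v Y N n (xt t) := ⟨_, rfl⟩
  obtain ⟨I1, hI1⟩ : ∃ I1, I1 = ∫ t in (0 : ℝ)..(2 * T), ‖riemannZeta (1 / 2 + t * Complex.I)‖ ^ 2 *
      (GG 1 v Y N n (xt t) * EE v Y N n (xt t)) := ⟨_, rfl⟩
  obtain ⟨I2, hI2⟩ : ∃ I2, I2 = ∫ t in (0 : ℝ)..(2 * T), ‖riemannZeta (1 / 2 + t * Complex.I)‖ ^ 4 *
      (GG (-1) v Y N n (xt t) * EE v Y N n (xt t)) := ⟨_, rfl⟩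
  rw [← hI0, ← hI1, ← hI2] at hmono
  rw [← hI1] at b1
  rw [← hI2] at b2
  rw [← hI0]
  have h0 : (1 / T) * I0 ≤ 1 / 2 * ((1 / T) * I1 + (1 / T) * I2) := by
    have := mul_le_mul_of_nonneg_left hmono (by positivity : 0 ≤ 1 / T)
    linarith
  obtain ⟨p1, p2, _⟩ := pw16_pow hL
  rw [p1] at b1
  rw [p2] at b2
  have hL0 : 0 < L := by linarith
  have hR : 0 ≤ L ^ (1 / 4 : ℝ) := by positivity
  have r3 : T ^ (-δ3) ≤ T ^ (-min δ3 δ4) := pw16_rpow (by linarith) (min_le_left _ _)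
  have r4 : T ^ (-δ4) ≤ T ^ (-min δ3 δ4) := pw16_rpow (by linarith) (min_le_right _ _)
  have hR0 : 0 ≤ T ^ (-min δ3 δ4) := by positivity
  obtain ⟨R, hRe⟩ : ∃ R, R = L ^ (1 / 4 : ℝ) := ⟨_, rfl⟩
  obtain ⟨l, hl⟩ : ∃ l, l = Real.log T := ⟨_, rfl⟩
  obtain ⟨W, hW⟩ : ∃ W, W = T ^ (-min δ3 δ4) := ⟨_, rfl⟩
  obtain ⟨S, hS⟩ : ∃ S, S = NS N n := ⟨_, rfl⟩
  rw [← hRe] at b1 b2 hR ⊢
  rw [← hl] at b1 b2 hl1 hLT ⊢
  rw [← hW] at r3 r4 hR0 ⊢
  rw [← hS] at b1 b2 hNS ⊢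
  have hM : 0 ≤ (l ^ 2 * R) * ((l / L) ^ 2 * S) := by positivity
  have k1 : l * (R * L * S) ≤ (l ^ 2 * R) * ((l / L) ^ 2 * S) := by
    have e : (l ^ 2 * R) * ((l / L) ^ 2 * S) = l * (R * S) * (l ^ 3 / L ^ 2) := by
      field_simp
    have e2 : l * (R * L * S) = l * (R * S) * L := by ring
    rw [e, e2]
    refine mul_le_mul_of_nonneg_left ?_ (by positivity)
    rw [le_div_iff₀ (by positivity)]
    have : L ^ 3 ≤ l ^ 3 := pow_le_pow_left₀ hL0.le hLT 3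
    calc L * L ^ 2 = L ^ 3 := by ring
      _ ≤ l ^ 3 := this
  have k2 : l ^ 4 * (R / L ^ 2 * S) = (l ^ 2 * R) * ((l / L) ^ 2 * S) := by
    field_simp
  have b1' : (1 / T) * I1 ≤ C3 * C1 * ((l ^ 2 * R) * ((l / L) ^ 2 * S)) + C3 * W := by
    have e : C3 * l * (C1 * (R * L) * S) = C3 * C1 * (l * (R * L * S)) := by ring
    rw [e] at b1
    have := mul_le_mul_of_nonneg_left k1 (by positivity : 0 ≤ C3 * C1)
    have := mul_le_mul_of_nonneg_left r3 (by positivity : 0 ≤ C3)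
    linarith
  have b2' : (1 / T) * I2 ≤ C4 * C2 * ((l ^ 2 * R) * ((l / L) ^ 2 * S)) + C4 * W := by
    have e : C4 * l ^ 4 * (C2 * (R / L ^ 2) * S) = C4 * C2 * (l ^ 4 * (R / L ^ 2 * S)) := by ring
    rw [e, k2] at b2
    have := mul_le_mul_of_nonneg_left r4 (by positivity : 0 ≤ C4)
    linarith
  obtain ⟨M, hMe⟩ : ∃ M, M = (l ^ 2 * R) * ((l / L) ^ 2 * S) := ⟨_, rfl⟩
  have eM : (C3 * C1 + C4 * C2 + C3 + C4) * (l ^ 2 * R) * ((l / L) ^ 2 * S) =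
      (C3 * C1 + C4 * C2 + C3 + C4) * M := by rw [hMe]; ring
  rw [eM]
  rw [← hMe] at b1' b2' hM
  have q1 : 0 ≤ C3 * C1 * M := by positivity
  have q2 : 0 ≤ C4 * C2 * M := by positivity
  have q3 : 0 ≤ (C3 + C4) * M := by positivity
  have q4 : 0 ≤ (C3 * C1 + C4 * C2) * W := by positivity
  have q5 : 0 ≤ (C3 + C4) * W := by positivity
  linarith

theorem first_err : ∃ K C δ T0 : ℝ, 1 ≤ K ∧ 1 ≤ C ∧ 0 < δ ∧ 3 ≤ T0 ∧ ∀ (L T : ℝ) (v Y : ℕ → ℝ) (N : ℕ → ℕ) (n : ℕ), 1 ≤ L →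
    L ≤ Real.log T → T0 ≤ T → Chain K v Y N n → v n = Real.exp L → 2 * len Y N n + 1 ≤ δ * Real.log T →
    (1 / T) * (∫ t in (0 : ℝ)..T, ‖riemannZeta (1 / 2 + t * Complex.I)‖ * EE v Y N n (xt t)) ≤
      C * L ^ (1 / 4 : ℝ) * ((Real.log T / L) * NS N n) + C * T ^ (-δ) := by
  obtain ⟨K1, C1, hK1, hC1, hnu⟩ := mean_nu
  obtain ⟨K2, C2, hK2, hC2, hmu⟩ := mean_mu
  obtain ⟨C3, δ3, T3, hC3, hδ3, hT3, h2⟩ := T2_bound
  refine ⟨max K1 K2, C3 * C1 + C2 + C3 + 2, min δ3 (1 / 3), T3, hK1.trans (le_max_left _ _), ?_,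
    lt_min hδ3 (by norm_num), hT3, ?_⟩
  · have : 0 ≤ C3 * C1 := by positivity
    linarith
  intro L T v Y N n hL hLT hT hch hv hlen
  have hT0 : 3 ≤ T := hT3.trans hT
  have hTp : 0 < T := by linarith
  have hl1 : 1 ≤ Real.log T := hL.trans hLT
  have hNS := pw14_NS N n
  have hc1 := pw14_chain (le_max_left K1 K2) hch
  have hc2 := pw14_chain (le_max_right K1 K2) hch
  have g1 := GE_poly hK1 hc1 (β := 1) (by norm_num)
  have g2 := GE_poly hK1 hc1 (β := -1) (by norm_num)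
  have hlen3 : 2 * len Y N n + 1 ≤ δ3 * Real.log T :=
    hlen.trans (mul_le_mul_of_nonneg_right (min_le_left _ _) (by linarith))
  have b2 := (h2 (2 * len Y N n + 1) L (C1 * L ^ (-(3 / 4) : ℝ) * NS N n) T _ hL hLT hT hlen3 g2.1
    (by rw [← hv]; exact g2.2.1) (fun x => mul_nonneg (g2.2.2.2.1 x) (g2.2.2.1 x))
    (fun s hs => (hnu s L v Y N n hs hc1 hv).2)).1
  have b1 := (abs_le.1 (g1.1.compare hTp)).2
  have b0 := hmu L v Y N n hL hc2 hv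
  have hzc : Continuous fun t : ℝ => riemannZeta (1 / 2 + t * Complex.I) := D5_zeta_cont
  have hE : Continuous fun t : ℝ => EE v Y N n (xt t) := g1.2.2.2.2.comp continuous_xt
  have hG1 : Continuous fun t : ℝ => GG 1 v Y N n (xt t) * EE v Y N n (xt t) := g1.1.continuous.comp continuous_xt
  have hG2 : Continuous fun t : ℝ => GG (-1) v Y N n (xt t) * EE v Y N n (xt t) := g2.1.continuous.comp continuous_xt
  have i0 : IntervalIntegrable (fun t : ℝ => ‖riemannZeta (1 / 2 + t * Complex.I)‖ * EE v Y N n (xt t)) volume 0 T :=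
    (hzc.norm.mul hE).intervalIntegrable _ _
  have i1 : IntervalIntegrable (fun t : ℝ => GG 1 v Y N n (xt t) * EE v Y N n (xt t)) volume 0 T :=
    hG1.intervalIntegrable _ _
  have i2 : IntervalIntegrable (fun t : ℝ => ‖riemannZeta (1 / 2 + t * Complex.I)‖ ^ 2 *
      (GG (-1) v Y N n (xt t) * EE v Y N n (xt t))) volume 0 T :=
    ((hzc.norm.pow 2).mul hG2).intervalIntegrable _ _
  have hmono := intervalIntegral.integral_mono_on (μ := volume) hTp.le i0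
    ((i1.add i2).const_mul (1 / 2)) (fun t _ => by
      have hp := (GG_mul hK1 hc1 (xt t)).1
      have a1 := pw16_amgm (norm_nonneg (riemannZeta (1 / 2 + t * Complex.I))) (g1.2.2.2.1 (xt t))
        (g2.2.2.2.1 (xt t)) hp
      have a3 := mul_le_mul_of_nonneg_right a1 (g1.2.2.1 (xt t))
      linarith [a3])
  rw [intervalIntegral.integral_const_mul] at hmono
  rw [intervalIntegral.integral_add i1 i2] at hmono
  obtain ⟨I0, hI0⟩ : ∃ I0, I0 = ∫ t in (0 : ℝ)..T, ‖riemannZeta (1 / 2 + t * Complex.I)‖ * EE v Y N n (xt t) := ⟨_, rfl⟩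
  obtain ⟨I1, hI1⟩ : ∃ I1, I1 = ∫ t in (0 : ℝ)..T, GG 1 v Y N n (xt t) * EE v Y N n (xt t) := ⟨_, rfl⟩
  obtain ⟨I2, hI2⟩ : ∃ I2, I2 = ∫ t in (0 : ℝ)..T, ‖riemannZeta (1 / 2 + t * Complex.I)‖ ^ 2 *
      (GG (-1) v Y N n (xt t) * EE v Y N n (xt t)) := ⟨_, rfl⟩
  rw [← hI0, ← hI1, ← hI2] at hmono
  rw [← hI1] at b1
  rw [← hI2] at b2
  rw [← hI0]
  have h0 : (1 / T) * I0 ≤ 1 / 2 * ((1 / T) * I1 + (1 / T) * I2) := by
    have := mul_le_mul_of_nonneg_left hmono (by positivity : 0 ≤ 1 / T)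
    linarith
  obtain ⟨_, _, p3⟩ := pw16_pow hL
  rw [p3] at b2
  have hL0 : 0 < L := by linarith
  have hR : 0 ≤ L ^ (1 / 4 : ℝ) := by positivity
  have r3 : T ^ (-δ3) ≤ T ^ (-min δ3 (1 / 3)) := pw16_rpow (by linarith) (min_le_left _ _)
  have hR0 : 0 ≤ T ^ (-min δ3 (1 / 3)) := by positivity
  have r5 : Real.exp (2 * (2 * len Y N n + 1)) / T ≤ T ^ (-min δ3 (1 / 3)) := by
    have s1 : 2 * (2 * len Y N n + 1) - Real.log T ≤ -min δ3 (1 / 3) * Real.log T := by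
      have s2 : min δ3 (1 / 3) * Real.log T ≤ 1 / 3 * Real.log T :=
        mul_le_mul_of_nonneg_right (min_le_right _ _) (by linarith)
      linarith
    have s3 : Real.exp (2 * (2 * len Y N n + 1)) / T = Real.exp (2 * (2 * len Y N n + 1) - Real.log T) := by
      rw [Real.exp_sub, Real.exp_log hTp]
    rw [s3, Real.rpow_def_of_pos hTp, mul_comm (Real.log T)]
    exact Real.exp_le_exp.2 s1
  have r6 : 2 * Real.exp (2 * (2 * len Y N n + 1)) / T ≤ 2 * T ^ (-min δ3 (1 / 3)) := by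
    have : 2 * Real.exp (2 * (2 * len Y N n + 1)) / T = 2 * (Real.exp (2 * (2 * len Y N n + 1)) / T) := by ring
    rw [this]
    linarith
  obtain ⟨R, hRe⟩ : ∃ R, R = L ^ (1 / 4 : ℝ) := ⟨_, rfl⟩
  obtain ⟨l, hl⟩ : ∃ l, l = Real.log T := ⟨_, rfl⟩
  obtain ⟨W, hW⟩ : ∃ W, W = T ^ (-min δ3 (1 / 3)) := ⟨_, rfl⟩
  obtain ⟨S, hS⟩ : ∃ S, S = NS N n := ⟨_, rfl⟩
  rw [← hRe] at b0 b2 hR ⊢
  rw [← hl] at b2 hl1 hLT ⊢
  rw [← hW] at r3 r6 hR0 ⊢
  rw [← hS] at b0 b2 hNS ⊢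
  have hM : 0 ≤ R * ((l / L) * S) := by positivity
  have k1 : R * S ≤ R * ((l / L) * S) := by
    have : 1 ≤ l / L := by rwa [one_le_div hL0]
    have := mul_le_mul_of_nonneg_left this (by positivity : 0 ≤ R * S)
    nlinarith
  have k2 : l * (R / L * S) = R * ((l / L) * S) := by
    field_simp
  have b1' : (1 / T) * I1 ≤ C2 * (R * ((l / L) * S)) + 2 * W := by
    have := mul_le_mul_of_nonneg_left k1 (by positivity : 0 ≤ C2)
    linarith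
  have b2' : (1 / T) * I2 ≤ C3 * C1 * (R * ((l / L) * S)) + C3 * W := by
    have e : C3 * l * (C1 * (R / L) * S) = C3 * C1 * (l * (R / L * S)) := by ring
    rw [e, k2] at b2
    have := mul_le_mul_of_nonneg_left r3 (by positivity : 0 ≤ C3)
    linarith
  obtain ⟨M, hMe⟩ : ∃ M, M = R * ((l / L) * S) := ⟨_, rfl⟩
  have eM : (C3 * C1 + C2 + C3 + 2) * R * ((l / L) * S) = (C3 * C1 + C2 + C3 + 2) * M := by rw [hMe]; ring
  rw [eM]
  rw [← hMe] at b1' b2' hM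
  have q1 : 0 ≤ C3 * C1 * M := by positivity
  have q2 : 0 ≤ C2 * M := by positivity
  have q3 : 0 ≤ (C3 + 2) * M := by positivity
  have q4 : 0 ≤ (C3 * C1 + C2) * W := by positivity
  have q5 : 0 ≤ (C3 + 2) * W := by positivity
  linarith

end Pool.Agent.LibPW
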