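import Mathlib

/-! ROW 17: choice of the parameters (pure arithmetic). `ℓ = log t`. Given `δ, k, K`: `c' = δ/(40(k+1))`, `c1 = min(δ/80, k c'/2)`, `A` large.
`m` = least `m` with `(L/2^m) ℓ ≤ c' t`, `L0 = L/2^m`; if `m ≥ 1` then `2 L0 ℓ > c' t`, so `L0 ≥ 2` for `t` large and
`2^m = L/L0 ≤ 2ℓ/c'` (`L ≤ t`). `n = m + 1`; `N 0 = ⌈k ℓ⌉`, `N i = ⌈R (3/2)^{m-i}⌉` for `1 ≤ i`, `R = c1 t / L ≥ c1 A ≥ K, 1`.
`N i ≤ N 0`: `R (3/2)^{m-1} ≤ c1 (t/L) 2^m = c1 t/L0 < 2 c1 ℓ/c' ≤ k ℓ`. `∑ e^{-N i} ≤ e^{-kℓ} + ∑_{j ≥ 0} exp(-R (3/2)^j) ≤ e^{-kℓ} + 3 e^{-R}`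
(`(3/2)^j ≥ 1 + j/2`, `R ≥ 1`). Length, `E = 2 N 0 + 10`: `N 0 (2 L0 + E) ≤ (kℓ + 1)(2 L0 + E)`, `L0 ℓ ≤ c' t`; for `i ≥ 1`
`(R (3/2)^j + 1)(2 L 2^{-j} + E)`, `j = m - i`: `∑ 2 R L (3/4)^j ≤ 8 c1 t`, `∑ 2 L 2^{-j} ≤ 4 L ≤ 4t/A`, `∑ (R (3/2)^j + 1) E ≤ (3 N 0 + 2^m) E`,
which is `O(ℓ²) ≤ (δ/8) t` for `t` large. -/

set_option autoImplicit false

namespace Pool.Agent.LibPW

open Filter in
private theorem pw17_log (n : ℕ) (ε : ℝ) (hε : 0 < ε) :
    ∀ᶠ t : ℝ in atTop, Real.log t ^ n ≤ ε * t := by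
  have h1 := (Real.isLittleO_pow_log_id_atTop (n := n)).bound hε
  filter_upwards [h1, eventually_ge_atTop (1 : ℝ)] with t h2 h3
  have h4 : ‖(id t : ℝ)‖ = t := by
    rw [id, Real.norm_eq_abs, abs_of_nonneg (by linarith)]
  rw [h4] at h2
  exact (le_abs_self _).trans ((Real.norm_eq_abs _).symm.le.trans h2)

private theorem pw17_geom (r : ℝ) (hr0 : 0 ≤ r) (hr1 : r < 1) (m : ℕ) :
    ∑ j ∈ Finset.range m, r ^ j ≤ 1 / (1 - r) := by
  rw [le_div_iff₀ (by linarith), geom_sum_mul_neg]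
  have := pow_nonneg hr0 m
  linarith

private theorem pw17_exp (R : ℝ) (hR : 1 ≤ R) (m : ℕ) :
    ∑ j ∈ Finset.range m, Real.exp (-(R * (3 / 2) ^ j)) ≤ 3 * Real.exp (-R) := by
  have h1 : ∀ j : ℕ, Real.exp (-(R * (3 / 2) ^ j)) ≤ Real.exp (-R) * Real.exp (-(1 / 2)) ^ j := by
    intro j
    rw [← Real.exp_nat_mul, ← Real.exp_add]
    apply Real.exp_le_exp.2
    have h2 : 1 + (j : ℝ) * (1 / 2) ≤ (3 / 2 : ℝ) ^ j := by
      have h3 := one_add_mul_le_pow (show (-2 : ℝ) ≤ 1 / 2 by norm_num) j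
      have h4 : (1 + 1 / 2 : ℝ) = 3 / 2 := by norm_num
      rw [h4] at h3
      exact h3
    have hj : (0 : ℝ) ≤ j := Nat.cast_nonneg j
    nlinarith [mul_le_mul_of_nonneg_left h2 (by linarith : 0 ≤ R)]
  calc ∑ j ∈ Finset.range m, Real.exp (-(R * (3 / 2) ^ j))
      ≤ ∑ j ∈ Finset.range m, Real.exp (-R) * Real.exp (-(1 / 2)) ^ j :=
        Finset.sum_le_sum fun j _ => h1 j
    _ = Real.exp (-R) * ∑ j ∈ Finset.range m, Real.exp (-(1 / 2)) ^ j := by
        rw [Finset.mul_sum]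
    _ ≤ Real.exp (-R) * 3 := by
        refine mul_le_mul_of_nonneg_left ?_ (Real.exp_pos _).le
        have h2 : Real.exp (-(1 / 2 : ℝ)) ≤ 2 / 3 := by
          rw [Real.exp_neg, inv_le_comm₀ (Real.exp_pos _) (by norm_num)]
          have := Real.add_one_le_exp (1 / 2 : ℝ)
          linarith
        refine (pw17_geom _ (Real.exp_pos _).le (by linarith) m).trans ?_
        rw [div_le_iff₀ (by linarith)]
        linarith
    _ = 3 * Real.exp (-R) := by ring

theorem params (δ k K : ℝ) (hδ : 0 < δ) (hk : 1 ≤ k) (hK : 1 ≤ K) : ∃ c A : ℝ, 0 < c ∧ 3 ≤ A ∧ ∀ t L : ℝ, A ≤ t → 2 ≤ L →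
    A * L ≤ t → ∃ (L0 : ℝ) (m : ℕ) (N : ℕ → ℕ), 2 ≤ L0 ∧ L = L0 * 2 ^ m ∧
      k * Real.log t ≤ N 0 ∧ (∀ i, 1 ≤ i → i ≤ m → K ≤ N i) ∧ (∀ i, i ≤ m → N i ≤ N 0) ∧
      ∑ i ∈ Finset.range (m + 1), Real.exp (-(N i : ℝ)) ≤ Real.exp (-(k * Real.log t)) + 3 * Real.exp (-(c * (t / L))) ∧
      ∑ i ∈ Finset.range (m + 1), (N i : ℝ) * (2 * (L0 * 2 ^ i) + (2 * N 0 + 10)) ≤ δ * t := by
  obtain ⟨c', hc'⟩ : ∃ c' : ℝ, c' = δ / (40 * (k + 1)) := ⟨_, rfl⟩
  have hk1 : 0 < k + 1 := by linarith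
  have hc'0 : 0 < c' := by rw [hc']; positivity
  have hc'k : 2 * (k + 1) * c' = δ / 20 := by
    rw [hc']
    field_simp
    norm_num
  obtain ⟨c1, hc1⟩ : ∃ c1 : ℝ, c1 = min (δ / 80) (k * c' / 2) := ⟨_, rfl⟩
  have hc10 : 0 < c1 := by
    rw [hc1]
    exact lt_min (by positivity) (by positivity)
  have hc1a : c1 ≤ δ / 80 := by rw [hc1]; exact min_le_left _ _
  have hc1b : c1 ≤ k * c' / 2 := by rw [hc1]; exact min_le_right _ _
  obtain ⟨D, hD⟩ : ∃ D : ℝ, D = (1 + 2 / c') * (k + 1) * (2 * k + 12) := ⟨_, rfl⟩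
  have hD0 : 0 < D := by rw [hD]; positivity
  have e1 := pw17_log 3 (δ / 8 / D) (by positivity)
  have e2 := pw17_log 1 (c' / 4) (by positivity)
  obtain ⟨A1, hA1⟩ := Filter.eventually_atTop.1 (e1.and e2)
  refine ⟨c1, max (max 3 A1) (max (K / c1) (32 / δ)), hc10,
    (le_max_left _ _).trans (le_max_left _ _), ?_⟩
  intro t L ht hL htL
  have ht3 : 3 ≤ t := ((le_max_left _ _).trans (le_max_left _ _)).trans ht
  have htA1 : A1 ≤ t := ((le_max_right _ _).trans (le_max_left _ _)).trans ht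
  obtain ⟨hlog3, hlog1⟩ := hA1 t htA1
  rw [pow_one] at hlog1
  have hL0' : 0 < L := by linarith
  have ht0 : 0 < t := by linarith
  have hmax3 : (3 : ℝ) ≤ max (max 3 A1) (max (K / c1) (32 / δ)) :=
    (le_max_left _ _).trans (le_max_left _ _)
  have hmaxK : K / c1 ≤ max (max 3 A1) (max (K / c1) (32 / δ)) :=
    (le_max_left _ _).trans (le_max_right _ _)
  have hmaxd : 32 / δ ≤ max (max 3 A1) (max (K / c1) (32 / δ)) :=
    (le_max_right _ _).trans (le_max_right _ _)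
  have hLt : L ≤ t := by
    calc L ≤ 3 * L := by linarith
      _ ≤ max (max 3 A1) (max (K / c1) (32 / δ)) * L := mul_le_mul_of_nonneg_right hmax3 hL0'.le
      _ ≤ t := htL
  have hLK : K / c1 * L ≤ t := (mul_le_mul_of_nonneg_right hmaxK hL0'.le).trans htL
  have hLd : 32 / δ * L ≤ t := (mul_le_mul_of_nonneg_right hmaxd hL0'.le).trans htL
  -- the logarithm
  obtain ⟨l, hl⟩ : ∃ l : ℝ, l = Real.log t := ⟨_, rfl⟩
  rw [← hl] at hlog3 hlog1 ⊢
  have hl1 : 1 ≤ l := by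
    rw [hl, Real.le_log_iff_exp_le ht0]
    have := Real.exp_one_lt_d9
    linarith
  -- R
  obtain ⟨R, hR⟩ : ∃ R : ℝ, R = c1 * (t / L) := ⟨_, rfl⟩
  have hRL : R * L = c1 * t := by
    rw [hR]
    field_simp
  have hRK : K ≤ R := by
    have h1 : K * L ≤ c1 * t := by
      have h2 : c1 * (K / c1 * L) ≤ c1 * t := mul_le_mul_of_nonneg_left hLK hc10.le
      have h3 : c1 * (K / c1 * L) = K * L := by field_simp
      linarith
    rw [← hRL] at h1
    exact le_of_mul_le_mul_right h1 hL0'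
  have hR1 : 1 ≤ R := hK.trans hRK
  -- m
  have hex : ∃ m : ℕ, L / 2 ^ m * l ≤ c' * t := by
    obtain ⟨n, hn⟩ := pow_unbounded_of_one_lt (L * l / (c' * t)) (one_lt_two : (1 : ℝ) < 2)
    refine ⟨n, ?_⟩
    rw [div_lt_iff₀ (by positivity)] at hn
    rw [div_mul_eq_mul_div, div_le_iff₀ (by positivity)]
    linarith
  classical
  obtain ⟨m, hm, hmin⟩ : ∃ m : ℕ, L / 2 ^ m * l ≤ c' * t ∧
      ∀ n < m, ¬ L / 2 ^ n * l ≤ c' * t := ⟨Nat.find hex, Nat.find_spec hex,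
    fun n hn => Nat.find_min hex hn⟩
  obtain ⟨L0, hL0⟩ : ∃ L0 : ℝ, L0 = L / 2 ^ m := ⟨_, rfl⟩
  rw [← hL0] at hm
  have h2m : (0 : ℝ) < 2 ^ m := by positivity
  have hLL : L = L0 * 2 ^ m := by
    rw [hL0]
    field_simp
  have hL0pos : 0 < L0 := by rw [hL0]; positivity
  have hbig : 1 ≤ m → c' * t < 2 * L0 * l := by
    intro hm1
    obtain ⟨n, rfl⟩ : ∃ n, m = n + 1 := ⟨m - 1, by omega⟩
    have h1 := not_le.1 (hmin n (Nat.lt_succ_self n))
    have h2 : L / 2 ^ n = 2 * L0 := by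
      rw [hL0, pow_succ]
      field_simp
    rwa [h2] at h1
  have h2L0 : 2 ≤ L0 := by
    rcases Nat.eq_zero_or_pos m with h0 | h0
    · rw [hL0, h0, pow_zero, div_one]
      exact hL
    · have h1 := hbig h0
      have h2 : 4 * l < 2 * L0 * l := by linarith
      have h3 : 4 < 2 * L0 := lt_of_mul_lt_mul_right h2 (by linarith)
      linarith
  have h2mle : 1 ≤ m → (2 : ℝ) ^ m * c' ≤ 2 * l := by
    intro h0
    have h1 := hbig h0
    -- 2^m L0 = L ≤ t
    have h2 : (2 : ℝ) ^ m * c' * t ≤ 2 * l * t := by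
      calc (2 : ℝ) ^ m * c' * t = 2 ^ m * (c' * t) := by ring
        _ ≤ 2 ^ m * (2 * L0 * l) := mul_le_mul_of_nonneg_left h1.le h2m.le
        _ = 2 * l * L := by rw [hLL]; ring
        _ ≤ 2 * l * t := mul_le_mul_of_nonneg_left hLt (by linarith)
    exact le_of_mul_le_mul_right h2 ht0
  -- N
  refine ⟨L0, m, fun i => if i = 0 then ⌈k * l⌉₊ else ⌈R * (3 / 2) ^ (m - i)⌉₊, h2L0, hLL, ?_⟩
  have hN0 : ((⌈k * l⌉₊ : ℕ) : ℝ) ≤ (k + 1) * l := by
    have h1 := (Nat.ceil_lt_add_one (by positivity : 0 ≤ k * l)).le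
    have h2 : (k + 1) * l = k * l + l := by ring
    linarith
  have hkl0 : 0 ≤ k * l := by positivity
  have hNi : ∀ i, 1 ≤ i → i ≤ m → ⌈R * (3 / 2 : ℝ) ^ (m - i)⌉₊ ≤ ⌈k * l⌉₊ := by
    intro i hi1 him
    refine Nat.ceil_mono ?_
    have h1 : (3 / 2 : ℝ) ^ (m - i) ≤ 2 ^ m := by
      calc (3 / 2 : ℝ) ^ (m - i) ≤ 2 ^ (m - i) :=
            pow_le_pow_left₀ (by norm_num) (by norm_num) _
        _ ≤ 2 ^ m := pow_le_pow_right₀ (by norm_num) (Nat.sub_le m i)
    have h2 : R * (3 / 2 : ℝ) ^ (m - i) ≤ R * 2 ^ m :=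
      mul_le_mul_of_nonneg_left h1 (by linarith)
    have h3 := hbig (hi1.trans him)
    -- R 2^m L0 = c1 t
    have h4 : R * 2 ^ m * L0 = c1 * t := by
      rw [← hRL, hLL]
      ring
    have h5 : R * 2 ^ m * L0 ≤ k * l * L0 := by
      rw [h4]
      have h6 : c1 * t ≤ k * c' / 2 * t := mul_le_mul_of_nonneg_right hc1b ht0.le
      have h7 : k / 2 * (c' * t) ≤ k / 2 * (2 * L0 * l) :=
        mul_le_mul_of_nonneg_left h3.le (by linarith)
      calc c1 * t ≤ k * c' / 2 * t := h6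
        _ = k / 2 * (c' * t) := by ring
        _ ≤ k / 2 * (2 * L0 * l) := h7
        _ = k * l * L0 := by ring
    exact h2.trans (le_of_mul_le_mul_right h5 hL0pos)
  have hsub : ∀ i ∈ Finset.range m, m - (i + 1) = m - 1 - i := fun i _ => by omega
  refine ⟨?_, ?_, ?_, ?_, ?_⟩
  all_goals beta_reduce
  · rw [if_pos rfl]
    exact Nat.le_ceil _
  · intro i hi1 him
    rw [if_neg (by omega)]
    have h1 : (1 : ℝ) ≤ (3 / 2 : ℝ) ^ (m - i) := one_le_pow₀ (by norm_num)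
    have h2 : R ≤ R * (3 / 2 : ℝ) ^ (m - i) := le_mul_of_one_le_right (by linarith) h1
    exact (hRK.trans h2).trans (Nat.le_ceil _)
  · intro i him
    rw [if_pos rfl]
    by_cases h0 : i = 0
    · rw [if_pos h0]
    · rw [if_neg h0]
      exact hNi i (by omega) him
  · rw [Finset.sum_range_succ', if_pos rfl, add_comm]
    refine add_le_add ?_ ?_
    · exact Real.exp_le_exp.2 (neg_le_neg (Nat.le_ceil _))
    · rw [← hR]
      calc ∑ i ∈ Finset.range m, Real.exp (-((if i + 1 = 0 then ⌈k * l⌉₊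
            else ⌈R * (3 / 2 : ℝ) ^ (m - (i + 1))⌉₊ : ℕ) : ℝ))
          ≤ ∑ i ∈ Finset.range m, Real.exp (-(R * (3 / 2 : ℝ) ^ (m - 1 - i))) := by
            refine Finset.sum_le_sum fun i hi => ?_
            rw [if_neg (Nat.succ_ne_zero i), hsub i hi]
            exact Real.exp_le_exp.2 (neg_le_neg (Nat.le_ceil _))
        _ = ∑ j ∈ Finset.range m, Real.exp (-(R * (3 / 2 : ℝ) ^ j)) :=
            Finset.sum_range_reflect (fun j => Real.exp (-(R * (3 / 2 : ℝ) ^ j))) m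
        _ ≤ 3 * Real.exp (-R) := pw17_exp R hR1 m
  · obtain ⟨n0, hn0⟩ : ∃ n0 : ℝ, n0 = ((⌈k * l⌉₊ : ℕ) : ℝ) := ⟨_, rfl⟩
    have hn00 : 0 ≤ n0 := by rw [hn0]; positivity
    rw [if_pos rfl, ← hn0]
    rw [← hn0] at hN0
    have hsplit : ∑ i ∈ Finset.range (m + 1), ((if i = 0 then ⌈k * l⌉₊
          else ⌈R * (3 / 2 : ℝ) ^ (m - i)⌉₊ : ℕ) : ℝ) * (2 * (L0 * 2 ^ i) + (2 * n0 + 10))
        = ∑ i ∈ Finset.range (m + 1), ((if i = 0 then ⌈k * l⌉₊
          else ⌈R * (3 / 2 : ℝ) ^ (m - i)⌉₊ : ℕ) : ℝ) * (2 * (L0 * 2 ^ i))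
          + ∑ i ∈ Finset.range (m + 1), ((if i = 0 then ⌈k * l⌉₊
          else ⌈R * (3 / 2 : ℝ) ^ (m - i)⌉₊ : ℕ) : ℝ) * (2 * n0 + 10) := by
      rw [← Finset.sum_add_distrib]
      exact Finset.sum_congr rfl fun i _ => by ring
    rw [hsplit]
    -- second part
    have hE0 : 0 ≤ 2 * n0 + 10 := by linarith
    have hE : 2 * n0 + 10 ≤ (2 * k + 12) * l := by
      have h1 : (2 * k + 12) * l = 2 * ((k + 1) * l) + 10 * l := by ring
      linarith
    have hm1 : (m : ℝ) + 1 ≤ (1 + 2 / c') * l := by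
      rcases Nat.eq_zero_or_pos m with h0 | h0
      · rw [h0, Nat.cast_zero, zero_add]
        have h1 : 0 ≤ 2 / c' * l := by positivity
        have h2 : (1 + 2 / c') * l = l + 2 / c' * l := by ring
        linarith
      · have h1 := h2mle h0
        have h2 : (m : ℝ) ≤ 2 ^ m := by exact_mod_cast (Nat.lt_two_pow_self (n := m)).le
        have h3 : (2 : ℝ) ^ m ≤ 2 / c' * l := by
          rw [div_mul_eq_mul_div, le_div_iff₀ hc'0]
          exact h1
        have h4 : (1 + 2 / c') * l = l + 2 / c' * l := by ring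
        linarith
    have hsecond : ∑ i ∈ Finset.range (m + 1), ((if i = 0 then ⌈k * l⌉₊
          else ⌈R * (3 / 2 : ℝ) ^ (m - i)⌉₊ : ℕ) : ℝ) * (2 * n0 + 10) ≤ δ / 8 * t := by
      calc ∑ i ∈ Finset.range (m + 1), ((if i = 0 then ⌈k * l⌉₊
          else ⌈R * (3 / 2 : ℝ) ^ (m - i)⌉₊ : ℕ) : ℝ) * (2 * n0 + 10)
          ≤ ∑ _i ∈ Finset.range (m + 1), n0 * (2 * n0 + 10) := by
            refine Finset.sum_le_sum fun i hi => mul_le_mul_of_nonneg_right ?_ hE0
            have him : i ≤ m := by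
              have := Finset.mem_range.1 hi
              omega
            rw [hn0]
            by_cases h0 : i = 0
            · rw [if_pos h0]
            · rw [if_neg h0]
              exact_mod_cast hNi i (by omega) him
        _ = ((m : ℝ) + 1) * (n0 * (2 * n0 + 10)) := by
            rw [Finset.sum_const, Finset.card_range, nsmul_eq_mul]
            push_cast
            ring
        _ ≤ ((1 + 2 / c') * l) * (((k + 1) * l) * ((2 * k + 12) * l)) := by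
            refine mul_le_mul hm1 (mul_le_mul hN0 hE hE0 (by positivity)) ?_ (by positivity)
            exact mul_nonneg hn00 hE0
        _ = D * l ^ 3 := by rw [hD]; ring
        _ ≤ D * (δ / 8 / D * t) := mul_le_mul_of_nonneg_left hlog3 hD0.le
        _ = δ / 8 * t := by field_simp
    -- first part
    have hfirst : ∑ i ∈ Finset.range (m + 1), ((if i = 0 then ⌈k * l⌉₊
          else ⌈R * (3 / 2 : ℝ) ^ (m - i)⌉₊ : ℕ) : ℝ) * (2 * (L0 * 2 ^ i))
        ≤ (8 * (c1 * t) + 4 * L) + δ / 20 * t := by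
      rw [Finset.sum_range_succ', if_pos rfl, pow_zero, mul_one, ← hn0]
      refine add_le_add ?_ ?_
      · calc ∑ i ∈ Finset.range m, ((if i + 1 = 0 then ⌈k * l⌉₊
            else ⌈R * (3 / 2 : ℝ) ^ (m - (i + 1))⌉₊ : ℕ) : ℝ) * (2 * (L0 * 2 ^ (i + 1)))
            ≤ ∑ i ∈ Finset.range m, (2 * (R * L) * (3 / 4 : ℝ) ^ (m - 1 - i)
              + 2 * L * (1 / 2 : ℝ) ^ (m - 1 - i)) := by
              refine Finset.sum_le_sum fun i hi => ?_
              rw [if_neg (Nat.succ_ne_zero i), hsub i hi]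
              have h1 := (Nat.ceil_lt_add_one (by positivity :
                0 ≤ R * (3 / 2 : ℝ) ^ (m - 1 - i))).le
              have hi' := Finset.mem_range.1 hi
              have h2 : L0 * 2 ^ (i + 1) = L * (1 / 2 : ℝ) ^ (m - 1 - i) := by
                have h3 : (2 : ℝ) ^ m = 2 ^ (i + 1) * 2 ^ (m - 1 - i) := by
                  rw [← pow_add]
                  congr 1
                  omega
                rw [hLL, h3, one_div, inv_pow]
                field_simp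
              rw [h2]
              have h4 : (3 / 4 : ℝ) ^ (m - 1 - i)
                  = (3 / 2 : ℝ) ^ (m - 1 - i) * (1 / 2 : ℝ) ^ (m - 1 - i) := by
                rw [← mul_pow]
                norm_num
              rw [h4]
              have h5 : 0 ≤ 2 * (L * (1 / 2 : ℝ) ^ (m - 1 - i)) := by positivity
              calc ((⌈R * (3 / 2 : ℝ) ^ (m - 1 - i)⌉₊ : ℕ) : ℝ)
                    * (2 * (L * (1 / 2 : ℝ) ^ (m - 1 - i)))
                  ≤ (R * (3 / 2 : ℝ) ^ (m - 1 - i) + 1)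
                    * (2 * (L * (1 / 2 : ℝ) ^ (m - 1 - i))) :=
                    mul_le_mul_of_nonneg_right h1 h5
                _ = _ := by ring
          _ = ∑ j ∈ Finset.range m, (2 * (R * L) * (3 / 4 : ℝ) ^ j
              + 2 * L * (1 / 2 : ℝ) ^ j) :=
              Finset.sum_range_reflect (fun j => 2 * (R * L) * (3 / 4 : ℝ) ^ j
                + 2 * L * (1 / 2 : ℝ) ^ j) m
          _ = 2 * (R * L) * ∑ j ∈ Finset.range m, (3 / 4 : ℝ) ^ j
              + 2 * L * ∑ j ∈ Finset.range m, (1 / 2 : ℝ) ^ j := by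
              rw [Finset.sum_add_distrib, Finset.mul_sum, Finset.mul_sum]
          _ ≤ 2 * (R * L) * 4 + 2 * L * 2 := by
              have h1 := pw17_geom (3 / 4) (by norm_num) (by norm_num) m
              have h2 := pw17_geom (1 / 2) (by norm_num) (by norm_num) m
              norm_num at h1 h2
              refine add_le_add (mul_le_mul_of_nonneg_left h1 ?_)
                (mul_le_mul_of_nonneg_left (by simpa using h2) (by linarith))
              positivity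
          _ = 8 * (c1 * t) + 4 * L := by rw [hRL]; ring
      · calc n0 * (2 * L0) ≤ ((k + 1) * l) * (2 * L0) :=
              mul_le_mul_of_nonneg_right hN0 (by linarith)
          _ = 2 * (k + 1) * (L0 * l) := by ring
          _ ≤ 2 * (k + 1) * (c' * t) := mul_le_mul_of_nonneg_left hm (by linarith)
          _ = δ / 20 * t := by rw [← hc'k]; ring
    have h1 : 8 * (c1 * t) ≤ δ / 10 * t := by
      have h3 : c1 * t ≤ δ / 80 * t := mul_le_mul_of_nonneg_right hc1a ht0.le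
      have h4 : 8 * (δ / 80 * t) = δ / 10 * t := by ring
      linarith
    have h2 : 4 * L ≤ δ / 8 * t := by
      have h3 : δ / 8 * (32 / δ * L) ≤ δ / 8 * t := mul_le_mul_of_nonneg_left hLd (by linarith)
      have h4 : δ / 8 * (32 / δ * L) = 4 * L := by field_simp; norm_num
      linarith
    have h3 : 0 ≤ δ * t := by positivity
    linarith

end Pool.Agent.LibPW
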