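import Mathlib
import Pool.Agent.LibPW.PW_14
import Pool.Agent.LibPH45.PH_10
import Pool.Agent.LibPH45.PH_17

/-! ROW 18: the main functionals. `JP α β γ y Φ - JP α β γ y Ψ = ∏(..) ∫ Z_α Z_β conj(Z_{conj γ}) (Φ - Ψ)`, norm_upper, PP_close, mean_three
(with `conj γ`; D2b_adm_conj); as PH_10 `JP_err`. `one_close`: one_main (PH_17) and mean_one. -/

set_option autoImplicit false

namespace Pool.Agent.LibPW

open MeasureTheory Filter Topology Pool.Agent.LibMM99 Pool.Agent.LibTG78 Pool.Agent.LibPH45 Pool.Agent.LibFG78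
open scoped ComplexConjugate

theorem JP_close : ∃ K C : ℝ, 1 ≤ K ∧ 1 ≤ C ∧ ∀ (α β γ : ℂ) (L : ℝ) (v Y : ℕ → ℝ) (N : ℕ → ℕ) (n : ℕ), Adm α L → Adm β L →
    Adm γ L → Chain K v Y N n → v n = Real.exp L →
    ‖JP α β γ (Real.exp L) (PP v Y N n) - JP α β γ (Real.exp L) (fun x => conj (uu (Real.exp L) x))‖ ≤
      C * L ^ (1 / 4 : ℝ) * NS N n := by
  obtain ⟨C1, hC1, h1⟩ := norm_upper
  obtain ⟨K, C2, hK, hC2, h2⟩ := mean_three
  refine ⟨K, C1 * C2, hK, by nlinarith, ?_⟩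
  intro α β γ L v Y N n hα hβ hγ hch hvn
  have hL : 1 ≤ L := hα.1
  have hL0 : 0 < L := by linarith
  have hγ' := D2b_adm_conj hγ
  have hN := h1 α β γ L hα hβ hγ
  have hM := h2 α β (conj γ) L v Y N n hα hβ hγ' hch hvn
  obtain ⟨y, hy⟩ : ∃ y, y = Real.exp L := ⟨_, rfl⟩
  rw [← hy] at hN hM ⊢
  rw [← hy] at hvn
  have cα : Continuous (ZZ α 1 y) := D2b_cont_ZZ hα 1 y
  have cβ : Continuous (ZZ β 1 y) := D2b_cont_ZZ hβ 1 y
  have cγ : Continuous (ZZ (conj γ) 1 y) := D2b_cont_ZZ hγ' 1 y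
  have cu : Continuous fun x => conj (uu y x) := Complex.continuous_conj.comp (uu_cont y).1
  have cP : Continuous (PP v Y N n) := (PP_poly hK hch).1.continuous
  have cE : Continuous (EE v Y N n) := (GE_poly hK hch (β := 0) (by simp)).2.2.2.2
  have cW : Continuous fun x => ZZ α 1 y x * ZZ β 1 y x * conj (ZZ (conj γ) 1 y x) :=
    (cα.mul cβ).mul (Complex.continuous_conj.comp cγ)
  have j1 : Integrable (fun x => ZZ α 1 y x * ZZ β 1 y x * conj (ZZ (conj γ) 1 y x) *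
      PP v Y N n x) mu := P10_int (cW.mul cP)
  have j2 : Integrable (fun x => ZZ α 1 y x * ZZ β 1 y x * conj (ZZ (conj γ) 1 y x) *
      conj (uu y x)) mu := P10_int (cW.mul cu)
  have hint : ‖(∫ x, ZZ α 1 y x * ZZ β 1 y x * conj (ZZ (conj γ) 1 y x) * PP v Y N n x ∂mu) -
      ∫ x, ZZ α 1 y x * ZZ β 1 y x * conj (ZZ (conj γ) 1 y x) * conj (uu y x) ∂mu‖ ≤
      C2 * L ^ (9 / 4 : ℝ) * NS N n := by
    rw [← integral_sub j1 j2]
    refine (norm_integral_le_integral_norm _).trans (le_trans ?_ hM)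
    refine integral_mono (P10_int ((cW.mul cP).sub (cW.mul cu)).norm)
      (P10_int (((cα.norm.mul cβ.norm).mul cγ.norm).mul cE)) fun x => ?_
    have h6 := PP_close hch x
    rw [hvn, norm_sub_rev] at h6
    simp only
    rw [← mul_sub, norm_mul, norm_mul, norm_mul, RCLike.norm_conj]
    exact mul_le_mul_of_nonneg_left h6 (by positivity)
  unfold JP
  rw [← mul_sub, norm_mul]
  have hNS : 0 ≤ NS N n := Finset.sum_nonneg fun _ _ => (Real.exp_pos _).le
  have hpow : L ^ (9 / 4 : ℝ) = L ^ 2 * L ^ (1 / 4 : ℝ) := by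
    rw [← Real.rpow_natCast L 2, ← Real.rpow_add hL0]
    norm_num
  refine (mul_le_mul hN hint (norm_nonneg _) (by positivity)).trans (le_of_eq ?_)
  rw [hpow]
  field_simp

theorem one_close : ∃ K C : ℝ, 1 ≤ K ∧ 1 ≤ C ∧ ∀ (L : ℝ) (v Y : ℕ → ℝ) (N : ℕ → ℕ) (n : ℕ), 1 ≤ L →
    Chain K v Y N n → v n = Real.exp L →
    ‖(∫ x, ZZ 0 1 (Real.exp L) x * PP v Y N n x ∂mu) - ((PS 1 1 (Real.exp L) : ℝ) : ℂ)‖ ≤
      C * L ^ (1 / 4 : ℝ) * NS N n := by
  obtain ⟨K, C, hK, hC, h⟩ := mean_one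
  refine ⟨K, C, hK, hC, ?_⟩
  intro L v Y N n hL hch hvn
  have hM := h L v Y N n hL hch hvn
  have cZ : Continuous (ZZ 0 1 (Real.exp L)) := D2b_cont_ZZ (P17_adm hL) _ _
  have cP : Continuous (PP v Y N n) := (PP_poly hK hch).1.continuous
  have cE : Continuous (EE v Y N n) := (GE_poly hK hch (β := 0) (by simp)).2.2.2.2
  have cU' : Continuous fun x => conj (uu (Real.exp L) x) :=
    Complex.continuous_conj.comp (uu_cont (Real.exp L)).1
  have i1 : Integrable (fun x => ZZ 0 1 (Real.exp L) x * PP v Y N n x) mu :=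
    integrable_of_continuous (cZ.mul cP)
  have i2 : Integrable (fun x => ZZ 0 1 (Real.exp L) x * conj (uu (Real.exp L) x)) mu :=
    integrable_of_continuous (cZ.mul cU')
  rw [← one_main hL, ← integral_sub i1 i2]
  refine (norm_integral_le_integral_norm _).trans (le_trans ?_ hM)
  refine integral_mono (integrable_of_continuous ((cZ.mul cP).sub (cZ.mul cU')).norm)
    (integrable_of_continuous (cZ.norm.mul cE)) fun x => ?_
  have h6 := PP_close hch x
  rw [hvn, norm_sub_rev] at h6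
  simp only
  rw [← mul_sub, norm_mul]
  exact mul_le_mul_of_nonneg_left h6 (norm_nonneg _)

end Pool.Agent.LibPW
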