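import Mathlib
import Pool.Agent.LibPW.PW_16
import Pool.Agent.LibPW.PW_17
import Pool.Agent.LibPW.PW_18
import Pool.Agent.LibPH45.PH_15
import Pool.Agent.LibPH45.PH_16
import Pool.Agent.LibPH45.PH_19

/-! ROW 19: the model. Parameters from `params` (with `δ' = small`, `k = 3 + ..`), `v 0 = 1`, `v (i+1) = exp(L0 2^i)`,
`Y i = v(i+1)² (4 e^{N 0})²`. -/

set_option autoImplicit false

namespace Pool.Agent.LibPW

open MeasureTheory Filter Topology Pool.Agent.LibMM99 Pool.Agent.LibTG78 Pool.Agent.LibPH45 Pool.Agent.LibFG78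
open scoped ComplexConjugate

theorem pw19_Sp (u v : ℝ) : 0 ≤ Sp u v := Finset.sum_nonneg fun p _ => by positivity

theorem Chain.mono' {K K' : ℝ} {v Y : ℕ → ℝ} {N : ℕ → ℕ} {n : ℕ} (h : Chain K v Y N n) (hK : K' ≤ K) :
    Chain K' v Y N n :=
  ⟨h.zero, h.mono, h.three, h.sq, fun i hi => (mul_le_mul_of_nonneg_right hK
    (by have := pw19_Sp (v i) (v (i + 1)); linarith)).trans (h.deg i hi), h.trunc, h.small⟩

/-- the blocks -/
noncomputable def vv (L0 : ℝ) : ℕ → ℝ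
  | 0 => 1
  | i + 1 => Real.exp (L0 * 2 ^ i)

noncomputable def yy (L0 M : ℝ) (i : ℕ) : ℝ := vv L0 (i + 1) ^ 2 * (4 * Real.exp M) ^ 2

theorem vv_mono {L0 : ℝ} (hL : 2 ≤ L0) : Monotone (vv L0) := by
  refine monotone_nat_of_le_succ fun n => ?_
  cases n with
  | zero => exact Real.one_le_exp (by positivity)
  | succ n =>
    refine Real.exp_le_exp.2 (mul_le_mul_of_nonneg_left ?_ (by linarith))
    exact pow_le_pow_right₀ (by norm_num) (Nat.le_succ n)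

theorem pw19_chain {K CM CD L0 : ℝ} {m : ℕ} {N : ℕ → ℕ} (hK : 1 ≤ K) (hL0 : 2 ≤ L0)
    (hM : Sp 1 (Real.exp L0) ≤ Real.log L0 + CM)
    (hD : ∀ L : ℝ, 1 ≤ L → Sp (Real.exp L) (Real.exp (2 * L)) ≤ CD)
    (h0 : K * (1 + (Real.log L0 + CM)) ≤ N 0) (h1 : ∀ i, 1 ≤ i → i ≤ m → K * (1 + CD) ≤ N i) (h2 : ∀ i, i ≤ m → N i ≤ N 0)
    (h3 : NS N (m + 1) ≤ 1) : Chain K (vv L0) (yy L0 (N 0)) N (m + 1) := by
  refine ⟨rfl, vv_mono hL0, fun i _ => ?_, fun i _ => ?_, fun i hi => ?_, fun i hi => ?_, h3⟩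
  · have e1 : L0 * 1 ≤ L0 * 2 ^ i := mul_le_mul_of_nonneg_left (one_le_pow₀ (by norm_num)) (by linarith)
    have e2 := Real.add_one_le_exp (L0 * 2 ^ i)
    have e3 : vv L0 (i + 1) = Real.exp (L0 * 2 ^ i) := rfl
    rw [e3]
    linarith
  · have e1 : (1:ℝ) ≤ (4 * Real.exp (N 0)) ^ 2 := by
      have := Real.one_le_exp (Nat.cast_nonneg (N 0) : (0:ℝ) ≤ N 0)
      nlinarith
    exact le_mul_of_one_le_right (sq_nonneg _) e1
  · cases i with
    | zero =>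
      have e : Sp (vv L0 0) (vv L0 (0 + 1)) = Sp 1 (Real.exp L0) := by
        have e1 : vv L0 0 = 1 := rfl
        have e2 : vv L0 (0 + 1) = Real.exp (L0 * 2 ^ 0) := rfl
        rw [e1, e2, pow_zero, mul_one]
      rw [e]
      refine le_trans (mul_le_mul_of_nonneg_left ?_ (by linarith)) h0
      linarith
    | succ i =>
      have e : Sp (vv L0 (i + 1)) (vv L0 (i + 1 + 1)) = Sp (Real.exp (L0 * 2 ^ i)) (Real.exp (2 * (L0 * 2 ^ i))) := by
        have e1 : vv L0 (i + 1) = Real.exp (L0 * 2 ^ i) := rfl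
        have e2 : vv L0 (i + 1 + 1) = Real.exp (L0 * 2 ^ (i + 1)) := rfl
        rw [e1, e2]
        congr 2
        rw [pow_succ]
        ring
      have e1 : 1 ≤ L0 * 2 ^ i := by
        have : (1:ℝ) ≤ 2 ^ i := one_le_pow₀ (by norm_num)
        nlinarith
      rw [e]
      refine le_trans (mul_le_mul_of_nonneg_left ?_ (by linarith)) (h1 (i + 1) (by omega) (by omega))
      linarith [hD _ e1]
  · have hv : 0 < vv L0 (i + 1) := Real.exp_pos _
    have hy : Real.sqrt (yy L0 (N 0) i) = vv L0 (i + 1) * (4 * Real.exp (N 0)) := by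
      unfold yy
      rw [← mul_pow, Real.sqrt_sq (by positivity)]
    rw [hy]
    have e1 : 4 * vv L0 (i + 1) / (vv L0 (i + 1) * (4 * Real.exp (N 0))) = Real.exp (-(N 0 : ℝ)) := by
      rw [Real.exp_neg]
      field_simp
    rw [e1]
    refine Real.exp_le_exp.2 (neg_le_neg ?_)
    exact_mod_cast h2 i (by omega)

theorem pw19_len {L0 δ t : ℝ} {m : ℕ} {N : ℕ → ℕ}
    (h : ∑ i ∈ Finset.range (m + 1), (N i : ℝ) * (2 * (L0 * 2 ^ i) + (2 * N 0 + 10)) ≤ δ * t) :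
    len (yy L0 (N 0)) N (m + 1) ≤ 20 * δ * t := by
  unfold len
  have e : ∀ i ∈ Finset.range (m + 1), 20 * (N i : ℝ) * (Real.log (yy L0 (N 0) i) + 1) ≤
      20 * ((N i : ℝ) * (2 * (L0 * 2 ^ i) + (2 * N 0 + 10))) := by
    intro i _
    have e1 : Real.log (yy L0 (N 0) i) = 2 * (L0 * 2 ^ i) + (2 * Real.log 4 + 2 * N 0) := by
      unfold yy vv
      rw [Real.log_mul (by positivity) (by positivity), Real.log_pow, Real.log_pow, Real.log_exp,
        Real.log_mul (by norm_num) (Real.exp_pos _).ne', Real.log_exp]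
      push_cast
      ring
    have e2 : Real.log 4 ≤ 4 := by
      have := Real.log_le_sub_one_of_pos (show (0:ℝ) < 4 by norm_num)
      linarith
    rw [e1, mul_assoc]
    refine mul_le_mul_of_nonneg_left (mul_le_mul_of_nonneg_left ?_ (Nat.cast_nonneg _)) (by norm_num)
    linarith
  refine (Finset.sum_le_sum e).trans ?_
  rw [← Finset.mul_sum]
  calc 20 * (∑ i ∈ Finset.range (m + 1), (N i : ℝ) * (2 * (L0 * 2 ^ i) + (2 * N 0 + 10))) ≤ 20 * (δ * t) :=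
        mul_le_mul_of_nonneg_left h (by norm_num)
    _ = 20 * δ * t := by ring

/-- largeness -/
theorem pw19_ev (c η : ℝ) (hc : 0 < c) (hη : 0 < η) : ∀ᶠ x : ℝ in atTop, 1 / x + 3 * (x ^ 2 * Real.exp (-(c * x))) ≤ η := by
  have h1 : Tendsto (fun x : ℝ => 1 / x) atTop (𝓝 0) := tendsto_const_nhds.div_atTop tendsto_id
  have h2 : Tendsto (fun x : ℝ => x ^ 2 * Real.exp (-(c * x))) atTop (𝓝 0) := by
    have h3 := (Real.tendsto_pow_mul_exp_neg_atTop_nhds_zero 2).comp (tendsto_id.const_mul_atTop hc)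
    have h4 := h3.const_mul (1 / c ^ 2)
    rw [mul_zero] at h4
    refine h4.congr fun x => ?_
    simp only [Function.comp, id]
    field_simp
  have h5 := h1.add (h2.const_mul 3)
  rw [mul_zero, add_zero] at h5
  exact (h5.eventually (gt_mem_nhds hη)).mono fun x hx => hx.le

theorem phase_model2 (δ : ℝ) (hδ : 0 < δ) : ∀ ε : ℝ, 0 < ε → ∃ A : ℝ, 3 ≤ A ∧ ∀ y T : ℝ,
    A ≤ y → A ≤ T → A * Real.log y ≤ Real.log T → ∃ Φ : Om → ℂ,
    IsPoly (δ * Real.log T) Φ ∧ DependsOn Φ (coo 1 y) ∧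
    (∀ α β γ : ℂ, ‖α‖ ≤ 2 / Real.log T → ‖β‖ ≤ 2 / Real.log T → ‖γ‖ ≤ 2 / Real.log T →
      ‖JP α β γ y Φ - ((LibZM.Aconst (3 / 2) * (Real.exp Real.eulerMascheroniConstant * Real.log y) ^ (1 / 4 : ℝ) : ℝ) : ℂ)‖ ≤
        ε * (Real.log y) ^ (1 / 4 : ℝ)) ∧
    ‖(∫ x, ZZ 0 1 y x * Φ x ∂mu) -
        ((LibZM.Aconst (1 / 2) * (Real.exp Real.eulerMascheroniConstant * Real.log y) ^ (1 / 4 : ℝ) : ℝ) : ℂ)‖ ≤
        ε * (Real.log y) ^ (1 / 4 : ℝ) ∧
    (1 / T) * (∫ t in (0 : ℝ)..(2 * T), ‖riemannZeta (1 / 2 + t * Complex.I)‖ ^ 3 * ‖conj (uu y (xt t)) - Φ (xt t)‖) ≤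
      ε * (Real.log T ^ 2 * (Real.log y) ^ (1 / 4 : ℝ)) ∧
    (1 / T) * (∫ t in (0 : ℝ)..T, ‖riemannZeta (1 / 2 + t * Complex.I)‖ * ‖conj (uu y (xt t)) - Φ (xt t)‖) ≤
      ε * (Real.log y) ^ (1 / 4 : ℝ) := by
  obtain ⟨K3, C3, δ3, T3, hK3, hC3, hδ3, hT3, h3⟩ := third_err
  obtain ⟨K1, C1, δ1, T1, hK1, hC1, hδ1, hT1, h1⟩ := first_err
  obtain ⟨KJ, CJ, hKJ, hCJ, hJ⟩ := JP_close
  obtain ⟨KO, CO, hKO, hCO, hO⟩ := one_close
  obtain ⟨CM, hCM, hM⟩ := mertens2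
  obtain ⟨CD, hCD, hD⟩ := Sp_double
  obtain ⟨CU, hCU, hU⟩ := JPu_close
  obtain ⟨hm3, hm1⟩ := main_limit
  intro ε hε
  obtain ⟨a3, ha3⟩ : ∃ a3 : ℝ, a3 = LibZM.Aconst (3 / 2) * Real.exp Real.eulerMascheroniConstant ^ (1 / 4 : ℝ) := ⟨_, rfl⟩
  obtain ⟨a1, ha1⟩ : ∃ a1 : ℝ, a1 = LibZM.Aconst (1 / 2) * Real.exp Real.eulerMascheroniConstant ^ (1 / 4 : ℝ) := ⟨_, rfl⟩
  have ha3p : 0 < a3 := by
    rw [ha3]
    exact mul_pos (LibZM.Aconst_pos (by norm_num)) (by positivity)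
  obtain ⟨K, hK⟩ : ∃ K : ℝ, K = K3 + K1 + KJ + KO := ⟨_, rfl⟩
  have hK4 : 4 ≤ K := by rw [hK]; linarith
  obtain ⟨C, hC⟩ : ∃ C : ℝ, C = C3 + C1 + CJ + CO + CU := ⟨_, rfl⟩
  have hC5 : 5 ≤ C := by rw [hC]; linarith
  have hCpos : 0 < C := by linarith
  obtain ⟨η, hη⟩ : ∃ η : ℝ, η = min 1 (ε / (3 * C)) := ⟨_, rfl⟩
  have hηp : 0 < η := by rw [hη]; exact lt_min one_pos (by positivity)
  have hη1 : η ≤ 1 := by rw [hη]; exact min_le_left _ _
  have hCη : C * η ≤ ε / 3 := by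
    have : η ≤ ε / (3 * C) := by rw [hη]; exact min_le_right _ _
    calc C * η ≤ C * (ε / (3 * C)) := mul_le_mul_of_nonneg_left this hCpos.le
      _ = ε / 3 := by field_simp
  obtain ⟨dp, hdp⟩ : ∃ dp : ℝ, dp = min δ (min δ3 δ1 / 4) / 20 := ⟨_, rfl⟩
  have hdpp : 0 < dp := by
    rw [hdp]
    have := lt_min hδ3 hδ1
    have := lt_min hδ (show 0 < min δ3 δ1 / 4 by linarith)
    linarith
  have hdp1 : 20 * dp ≤ δ := by
    rw [hdp]
    have := min_le_left δ (min δ3 δ1 / 4)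
    linarith
  have hdp3 : 20 * dp ≤ δ3 / 4 := by
    rw [hdp]
    have e1 := min_le_right δ (min δ3 δ1 / 4)
    have e2 := min_le_left δ3 δ1
    linarith
  have hdp4 : 20 * dp ≤ δ1 / 4 := by
    rw [hdp]
    have e1 := min_le_right δ (min δ3 δ1 / 4)
    have e2 := min_le_right δ3 δ1
    linarith
  obtain ⟨c, Ap, hc, hAp, hpar⟩ := params dp (2 * K + 3) (K * (1 + CD)) hdpp (by linarith)
    (one_le_mul_of_one_le_of_one_le (by linarith) (by linarith))
  -- largeness conditions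
  have hε3 : 0 < ε / 3 := by positivity
  have E3 : ∀ᶠ L : ℝ in atTop, |PS 3 1 (Real.exp L) * nz 0 1 (Real.exp L) ^ 2 / L ^ (1 / 4 : ℝ) - a3| < min (ε / 3) 1 := by
    have h1 := (Metric.tendsto_nhds.1 hm3) (min (ε / 3) 1) (lt_min hε3 one_pos)
    rw [← ha3] at h1
    simpa [Real.dist_eq] using h1
  have E1 : ∀ᶠ L : ℝ in atTop, |PS 1 1 (Real.exp L) / L ^ (1 / 4 : ℝ) - a1| < ε / 3 := by
    have h1 := (Metric.tendsto_nhds.1 hm1) (ε / 3) hε3
    rw [← ha1] at h1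
    simpa [Real.dist_eq] using h1
  obtain ⟨AL, hAL⟩ := eventually_atTop.1 (E3.and E1)
  obtain ⟨Ax, hAx⟩ := eventually_atTop.1 (pw19_ev c η hc hηp)
  have E4 : ∀ᶠ x : ℝ in atTop, (a3 + 1) * (Real.exp (6 * C / x) - 1) ≤ ε / 3 := by
    have h1 : Tendsto (fun x : ℝ => 6 * C / x) atTop (𝓝 0) := tendsto_const_nhds.div_atTop tendsto_id
    have h2 : Tendsto (fun x : ℝ => (a3 + 1) * (Real.exp (6 * C / x) - 1)) atTop (𝓝 ((a3 + 1) * (Real.exp 0 - 1))) :=
      (((Real.continuous_exp.tendsto 0).comp h1).sub_const 1).const_mul (a3 + 1)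
    rw [Real.exp_zero, sub_self, mul_zero] at h2
    exact (h2.eventually (gt_mem_nhds hε3)).mono fun x hx => hx.le
  obtain ⟨Ay, hAy⟩ := eventually_atTop.1 E4
  have E5 : ∀ᶠ T : ℝ in atTop, C * T ^ (-δ3) ≤ ε / 3 ∧ C * T ^ (-δ1) ≤ ε / 3 ∧ 1 + CM ≤ Real.log (Real.log T) ∧
      4 ≤ δ3 * Real.log T ∧ 4 ≤ δ1 * Real.log T := by
    have h1 : Tendsto (fun T : ℝ => C * T ^ (-δ3)) atTop (𝓝 0) := by
      have := (tendsto_rpow_neg_atTop hδ3).const_mul C
      rwa [mul_zero] at this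
    have h2 : Tendsto (fun T : ℝ => C * T ^ (-δ1)) atTop (𝓝 0) := by
      have := (tendsto_rpow_neg_atTop hδ1).const_mul C
      rwa [mul_zero] at this
    have h3 : Tendsto (fun T : ℝ => Real.log (Real.log T)) atTop atTop :=
      Real.tendsto_log_atTop.comp Real.tendsto_log_atTop
    have h4 : Tendsto (fun T : ℝ => δ3 * Real.log T) atTop atTop := Real.tendsto_log_atTop.const_mul_atTop hδ3
    have h5 : Tendsto (fun T : ℝ => δ1 * Real.log T) atTop atTop := Real.tendsto_log_atTop.const_mul_atTop hδ1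
    filter_upwards [h1.eventually (gt_mem_nhds hε3), h2.eventually (gt_mem_nhds hε3), h3.eventually_ge_atTop (1 + CM),
      h4.eventually_ge_atTop 4, h5.eventually_ge_atTop 4] with T a b c d e
    exact ⟨a.le, b.le, c, d, e⟩
  obtain ⟨AT, hAT⟩ := eventually_atTop.1 E5
  obtain ⟨A, hA⟩ : ∃ A : ℝ, A = max (max (Real.exp 2) (Real.exp AL)) (max (max AT (max T3 T1)) (max (max Ap 40) (max Ax Ay))) :=
    ⟨_, rfl⟩
  have g1 : Real.exp 2 ≤ A := by rw [hA]; exact (le_max_left _ _).trans (le_max_left _ _)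
  have g2 : Real.exp AL ≤ A := by rw [hA]; exact (le_max_right _ _).trans (le_max_left _ _)
  have g3 : AT ≤ A := by rw [hA]; exact ((le_max_left _ _).trans (le_max_left _ _)).trans (le_max_right _ _)
  have g4 : T3 ≤ A := by
    rw [hA]; exact (((le_max_left _ _).trans (le_max_right _ _)).trans (le_max_left _ _)).trans (le_max_right _ _)
  have g5 : T1 ≤ A := by
    rw [hA]; exact (((le_max_right _ _).trans (le_max_right _ _)).trans (le_max_left _ _)).trans (le_max_right _ _)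
  have g6 : Ap ≤ A := by
    rw [hA]; exact (((le_max_left _ _).trans (le_max_left _ _)).trans (le_max_right _ _)).trans (le_max_right _ _)
  have g7 : 40 ≤ A := by
    rw [hA]; exact (((le_max_right _ _).trans (le_max_left _ _)).trans (le_max_right _ _)).trans (le_max_right _ _)
  have g8 : Ax ≤ A := by
    rw [hA]; exact (((le_max_left _ _).trans (le_max_right _ _)).trans (le_max_right _ _)).trans (le_max_right _ _)
  have g9 : Ay ≤ A := by
    rw [hA]; exact (((le_max_right _ _).trans (le_max_right _ _)).trans (le_max_right _ _)).trans (le_max_right _ _)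
  refine ⟨A, by linarith, fun y T hy hT hyT => ?_⟩
  have hy0 : 0 < y := by linarith
  have hT0 : 0 < T := by linarith
  obtain ⟨L, rfl⟩ : ∃ L, y = Real.exp L := ⟨Real.log y, (Real.exp_log hy0).symm⟩
  rw [Real.log_exp] at hyT ⊢
  have hL2 : 2 ≤ L := Real.exp_le_exp.1 (by linarith)
  have hALL : AL ≤ L := Real.exp_le_exp.1 (by linarith)
  obtain ⟨q1, q2⟩ := hAL L hALL
  obtain ⟨t1, t2, t3, t4, t5⟩ := hAT T (by linarith)
  obtain ⟨t, ht⟩ : ∃ t : ℝ, t = Real.log T := ⟨_, rfl⟩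
  rw [← ht] at t3 t4 t5 hyT ⊢
  have hApos : 0 < A := by linarith
  have htA : A ≤ t := le_trans (le_mul_of_one_le_right hApos.le (by linarith)) hyT
  have ht0 : 0 < t := by linarith
  have hLt : L ≤ t := le_trans (le_mul_of_one_le_left (by linarith) (by linarith)) hyT
  obtain ⟨L0, m, N, p1, p2, p3, p4, p5, p6, p7⟩ := hpar t L (g6.trans htA) hL2
    ((mul_le_mul_of_nonneg_right g6 (by linarith)).trans hyT)
  -- the size of NS
  obtain ⟨X, hX⟩ : ∃ X : ℝ, X = t / L := ⟨_, rfl⟩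
  have hXA : A ≤ X := by rw [hX, le_div_iff₀ (by linarith)]; exact hyT
  have hX1 : 1 ≤ X := by linarith
  have hXt : X ≤ t := by
    rw [hX, div_le_iff₀ (by linarith)]
    exact le_mul_of_one_le_right ht0.le (by linarith)
  have hNS0 : 0 ≤ NS N (m + 1) := Finset.sum_nonneg fun i _ => (Real.exp_pos _).le
  have hNS : X ^ 2 * NS N (m + 1) ≤ η := by
    have e1 : Real.exp (-((2 * K + 3) * Real.log t)) ≤ (t ^ 3)⁻¹ := by
      have e2 : (t ^ 3)⁻¹ = Real.exp (-(3 * Real.log t)) := by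
        rw [Real.exp_neg]
        congr 1
        have : Real.exp (3 * Real.log t) = Real.exp (Real.log t) ^ 3 := by
          rw [← Real.exp_nat_mul]
          norm_num
        rw [this, Real.exp_log ht0]
      rw [e2]
      refine Real.exp_le_exp.2 (neg_le_neg ?_)
      refine mul_le_mul_of_nonneg_right (by linarith) (Real.log_nonneg (by linarith))
    have e3 : NS N (m + 1) ≤ (t ^ 3)⁻¹ + 3 * Real.exp (-(c * X)) := by
      unfold NS
      rw [hX]
      linarith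
    have e4 : X ^ 2 * NS N (m + 1) ≤ X ^ 2 * ((t ^ 3)⁻¹ + 3 * Real.exp (-(c * X))) :=
      mul_le_mul_of_nonneg_left e3 (sq_nonneg _)
    have e5 : X ^ 2 * (t ^ 3)⁻¹ ≤ 1 / X := by
      rw [mul_inv_le_iff₀ (by positivity), div_mul_eq_mul_div, one_mul, le_div_iff₀ (by linarith)]
      have : X ^ 2 * X = X ^ 3 := by ring
      rw [this]
      exact pow_le_pow_left₀ (by linarith) hXt 3
    have e6 := hAx X (g8.trans hXA)
    calc X ^ 2 * NS N (m + 1) ≤ X ^ 2 * ((t ^ 3)⁻¹ + 3 * Real.exp (-(c * X))) := e4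
      _ = X ^ 2 * (t ^ 3)⁻¹ + 3 * (X ^ 2 * Real.exp (-(c * X))) := by ring
      _ ≤ η := by linarith
  have hNS1 : X * NS N (m + 1) ≤ η := by
    refine le_trans ?_ hNS
    exact mul_le_mul_of_nonneg_right (le_self_pow₀ hX1 (by norm_num)) hNS0
  have hNS2 : NS N (m + 1) ≤ η := by
    refine le_trans ?_ hNS1
    exact le_mul_of_one_le_left hNS0 hX1
  -- the chain
  have hlog0 : Real.log L0 ≤ Real.log t := by
    refine Real.log_le_log (by linarith) (le_trans ?_ hLt)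
    rw [p2]
    exact le_mul_of_one_le_right (by linarith) (one_le_pow₀ (by norm_num))
  have hch : Chain K (vv L0) (yy L0 (N 0)) N (m + 1) := by
    refine pw19_chain (by linarith) p1 (CM := CM) (by have := (abs_le.1 (hM L0 (by linarith))).2; linarith) hD ?_ p4 p5
      (hNS2.trans hη1)
    refine le_trans ?_ p3
    have e1 : K * (1 + (Real.log L0 + CM)) ≤ K * (2 * Real.log t) :=
      mul_le_mul_of_nonneg_left (by linarith) (by linarith)
    have e2 : 0 ≤ 3 * Real.log t := by linarith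
    calc K * (1 + (Real.log L0 + CM)) ≤ K * (2 * Real.log t) := e1
      _ ≤ (2 * K + 3) * Real.log t := by linarith
  have hvn : vv L0 (m + 1) = Real.exp L := by
    have e1 : vv L0 (m + 1) = Real.exp (L0 * 2 ^ m) := rfl
    rw [e1, ← p2]
  have hlen := pw19_len p7
  have hlenδ : len (yy L0 (N 0)) N (m + 1) ≤ δ * t := hlen.trans (mul_le_mul_of_nonneg_right hdp1 ht0.le)
  have hlen3 : 2 * len (yy L0 (N 0)) N (m + 1) + 1 ≤ δ3 * t := by
    have : 20 * dp * t ≤ δ3 / 4 * t := mul_le_mul_of_nonneg_right hdp3 ht0.le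
    linarith
  have hlen1 : 2 * len (yy L0 (N 0)) N (m + 1) + 1 ≤ δ1 * t := by
    have : 20 * dp * t ≤ δ1 / 4 * t := mul_le_mul_of_nonneg_right hdp4 ht0.le
    linarith
  have hch3 : Chain K3 (vv L0) (yy L0 (N 0)) N (m + 1) := hch.mono' (by rw [hK]; linarith)
  have hch1 : Chain K1 (vv L0) (yy L0 (N 0)) N (m + 1) := hch.mono' (by rw [hK]; linarith)
  have hchJ : Chain KJ (vv L0) (yy L0 (N 0)) N (m + 1) := hch.mono' (by rw [hK]; linarith)
  have hchO : Chain KO (vv L0) (yy L0 (N 0)) N (m + 1) := hch.mono' (by rw [hK]; linarith)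
  obtain ⟨pp1, pp2⟩ := PP_poly (by linarith : (1:ℝ) ≤ K) hch
  rw [hvn] at pp2
  have hclose : ∀ x, ‖conj (uu (Real.exp L) x) - PP (vv L0) (yy L0 (N 0)) N (m + 1) x‖ ≤
      EE (vv L0) (yy L0 (N 0)) N (m + 1) x := fun x => by
    have := PP_close hch x
    rwa [hvn] at this
  have hEc : Continuous (EE (vv L0) (yy L0 (N 0)) N (m + 1)) :=
    (GE_poly (by linarith : (1:ℝ) ≤ K) hch (β := 0) (by norm_num)).2.2.2.2
  have cu : Continuous fun t : ℝ => conj (uu (Real.exp L) (xt t)) :=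
    Complex.continuous_conj.comp ((uu_cont _).1.comp continuous_xt)
  have cP : Continuous fun t : ℝ => PP (vv L0) (yy L0 (N 0)) N (m + 1) (xt t) := pp1.continuous.comp continuous_xt
  have cE : Continuous fun t : ℝ => EE (vv L0) (yy L0 (N 0)) N (m + 1) (xt t) := hEc.comp continuous_xt
  have cz : Continuous fun t : ℝ => riemannZeta (1 / 2 + t * Complex.I) := D5_zeta_cont
  have hr0 : 0 < L ^ (1 / 4 : ℝ) := Real.rpow_pos_of_pos (by linarith) _
  have hr1 : 1 ≤ L ^ (1 / 4 : ℝ) := Real.one_le_rpow (by linarith) (by norm_num)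
  have hadm : ∀ s : ℂ, ‖s‖ ≤ 2 / t → Adm s L := fun s hs => by
    refine ⟨by linarith, hs.trans ?_⟩
    rw [div_le_div_iff₀ ht0 (by linarith)]
    have h40 : 40 * L ≤ t := (mul_le_mul_of_nonneg_right g7 (by linarith)).trans hyT
    linarith
  refine ⟨PP (vv L0) (yy L0 (N 0)) N (m + 1), pp1.mono hlenδ, pp2, ?_, ?_, ?_, ?_⟩
  · intro α β γ hα hβ hγ
    have j1 := hJ α β γ L _ _ N (m + 1) (hadm α hα) (hadm β hβ) (hadm γ hγ) hchJ hvn
    have j2 := hU L α β γ (by linarith) (hadm α hα) (hadm β hβ) (hadm γ hγ)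
    have j1' : CJ * L ^ (1 / 4 : ℝ) * NS N (m + 1) ≤ ε / 3 * L ^ (1 / 4 : ℝ) := by
      have e1 : CJ * NS N (m + 1) ≤ C * η := mul_le_mul (by rw [hC]; linarith) hNS2 hNS0 hCpos.le
      calc CJ * L ^ (1 / 4 : ℝ) * NS N (m + 1) = CJ * NS N (m + 1) * L ^ (1 / 4 : ℝ) := by ring
        _ ≤ ε / 3 * L ^ (1 / 4 : ℝ) := mul_le_mul_of_nonneg_right (e1.trans hCη) hr0.le
    obtain ⟨P, hP⟩ : ∃ P : ℝ, P = PS 3 1 (Real.exp L) * nz 0 1 (Real.exp L) ^ 2 := ⟨_, rfl⟩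
    rw [← hP] at q1 j2
    have j3 := P19_lim hr0 (q1.trans_le (min_le_left _ _))
    have j4 := P19_lim hr0 (q1.trans_le (min_le_right _ _))
    have j5 : P ≤ (a3 + 1) * L ^ (1 / 4 : ℝ) := by
      have := (abs_le.1 j4).2
      linarith
    have j6 : CU * (‖α‖ + ‖β‖ + ‖γ‖) * L ≤ 6 * C / X := by
      calc CU * (‖α‖ + ‖β‖ + ‖γ‖) * L ≤ C * (2 / t + 2 / t + 2 / t) * L := by
            have : CU ≤ C := by rw [hC]; linarith
            gcongr
        _ = 6 * C / X := by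
            rw [hX]
            field_simp
            ring
    have j7 : 0 ≤ Real.exp (CU * (‖α‖ + ‖β‖ + ‖γ‖) * L) - 1 := by
      have h1 : 0 ≤ CU * (‖α‖ + ‖β‖ + ‖γ‖) * L := by positivity
      have h2 := Real.one_le_exp h1
      linarith
    have j8 : Real.exp (CU * (‖α‖ + ‖β‖ + ‖γ‖) * L) - 1 ≤ Real.exp (6 * C / X) - 1 := by
      have := Real.exp_le_exp.2 j6
      linarith
    have j9 : P * (Real.exp (CU * (‖α‖ + ‖β‖ + ‖γ‖) * L) - 1) ≤ ε / 3 * L ^ (1 / 4 : ℝ) := by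
      calc P * (Real.exp (CU * (‖α‖ + ‖β‖ + ‖γ‖) * L) - 1)
          ≤ (a3 + 1) * L ^ (1 / 4 : ℝ) * (Real.exp (CU * (‖α‖ + ‖β‖ + ‖γ‖) * L) - 1) :=
            mul_le_mul_of_nonneg_right j5 j7
        _ ≤ (a3 + 1) * L ^ (1 / 4 : ℝ) * (Real.exp (6 * C / X) - 1) :=
            mul_le_mul_of_nonneg_left j8 (by positivity)
        _ = (a3 + 1) * (Real.exp (6 * C / X) - 1) * L ^ (1 / 4 : ℝ) := by ring
        _ ≤ ε / 3 * L ^ (1 / 4 : ℝ) := mul_le_mul_of_nonneg_right (hAy X (g9.trans hXA)) hr0.le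
    have j10 : LibZM.Aconst (3 / 2) * (Real.exp Real.eulerMascheroniConstant * L) ^ (1 / 4 : ℝ) = a3 * L ^ (1 / 4 : ℝ) := by
      rw [ha3]
      exact P19_rpow (Real.exp_pos _).le (by linarith)
    rw [j10]
    have j11 : ‖((P : ℝ) : ℂ) - ((a3 * L ^ (1 / 4 : ℝ) : ℝ) : ℂ)‖ ≤ ε / 3 * L ^ (1 / 4 : ℝ) := by
      rw [← Complex.ofReal_sub, Complex.norm_real, Real.norm_eq_abs]
      exact j3
    have j12 : JP α β γ (Real.exp L) (PP (vv L0) (yy L0 (N 0)) N (m + 1)) - ((a3 * L ^ (1 / 4 : ℝ) : ℝ) : ℂ) =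
        (JP α β γ (Real.exp L) (PP (vv L0) (yy L0 (N 0)) N (m + 1)) -
          JP α β γ (Real.exp L) (fun x => conj (uu (Real.exp L) x))) +
        (JP α β γ (Real.exp L) (fun x => conj (uu (Real.exp L) x)) - ((P : ℝ) : ℂ)) +
        (((P : ℝ) : ℂ) - ((a3 * L ^ (1 / 4 : ℝ) : ℝ) : ℂ)) := by ring
    rw [j12]
    refine (norm_add_le _ _).trans ?_
    have j13 := norm_add_le (JP α β γ (Real.exp L) (PP (vv L0) (yy L0 (N 0)) N (m + 1)) -
          JP α β γ (Real.exp L) (fun x => conj (uu (Real.exp L) x)))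
        (JP α β γ (Real.exp L) (fun x => conj (uu (Real.exp L) x)) - ((P : ℝ) : ℂ))
    linarith [j1.trans j1', j2.trans j9]
  · have o1 := hO L _ _ N (m + 1) (by linarith) hchO hvn
    have o1' : CO * L ^ (1 / 4 : ℝ) * NS N (m + 1) ≤ ε / 3 * L ^ (1 / 4 : ℝ) := by
      have e1 : CO * NS N (m + 1) ≤ C * η := mul_le_mul (by rw [hC]; linarith) hNS2 hNS0 hCpos.le
      calc CO * L ^ (1 / 4 : ℝ) * NS N (m + 1) = CO * NS N (m + 1) * L ^ (1 / 4 : ℝ) := by ring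
        _ ≤ ε / 3 * L ^ (1 / 4 : ℝ) := mul_le_mul_of_nonneg_right (e1.trans hCη) hr0.le
    have o2 := P19_lim hr0 q2
    have o3 : LibZM.Aconst (1 / 2) * (Real.exp Real.eulerMascheroniConstant * L) ^ (1 / 4 : ℝ) = a1 * L ^ (1 / 4 : ℝ) := by
      rw [ha1]
      exact P19_rpow (Real.exp_pos _).le (by linarith)
    rw [o3]
    have o4 : ‖((PS 1 1 (Real.exp L) : ℝ) : ℂ) - ((a1 * L ^ (1 / 4 : ℝ) : ℝ) : ℂ)‖ ≤ ε / 3 * L ^ (1 / 4 : ℝ) := by
      rw [← Complex.ofReal_sub, Complex.norm_real, Real.norm_eq_abs]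
      exact o2
    refine (norm_sub_le_norm_sub_add_norm_sub _ ((PS 1 1 (Real.exp L) : ℝ) : ℂ) _).trans ?_
    have : 0 ≤ ε / 3 * L ^ (1 / 4 : ℝ) := by positivity
    linarith [o1.trans o1']
  · have e1 := h3 L T _ _ N (m + 1) (by linarith) (by rw [← ht]; exact hLt) (by linarith) hch3 hvn (by rw [← ht]; exact hlen3)
    rw [← ht, ← hX] at e1
    have e2 : (∫ t in (0 : ℝ)..(2 * T), ‖riemannZeta (1 / 2 + t * Complex.I)‖ ^ 3 *
        ‖conj (uu (Real.exp L) (xt t)) - PP (vv L0) (yy L0 (N 0)) N (m + 1) (xt t)‖) ≤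
        ∫ t in (0 : ℝ)..(2 * T), ‖riemannZeta (1 / 2 + t * Complex.I)‖ ^ 3 * EE (vv L0) (yy L0 (N 0)) N (m + 1) (xt t) := by
      refine intervalIntegral.integral_mono_on (by linarith) (((cz.norm.pow 3).mul (cu.sub cP).norm).intervalIntegrable _ _)
        (((cz.norm.pow 3).mul cE).intervalIntegrable _ _) fun t _ => ?_
      exact mul_le_mul_of_nonneg_left (hclose (xt t)) (by positivity)
    refine (mul_le_mul_of_nonneg_left e2 (by positivity)).trans (e1.trans ?_)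
    have e3 : C3 * (X ^ 2 * NS N (m + 1)) ≤ ε / 3 :=
      (mul_le_mul (show C3 ≤ C by rw [hC]; linarith) hNS (by positivity) hCpos.le).trans hCη
    have e4 : C3 * T ^ (-δ3) ≤ ε / 3 :=
      (mul_le_mul_of_nonneg_right (show C3 ≤ C by rw [hC]; linarith) (by positivity)).trans t1
    have e5 : 1 ≤ t ^ 2 * L ^ (1 / 4 : ℝ) :=
      one_le_mul_of_one_le_of_one_le (one_le_pow₀ (by linarith)) hr1
    have e6 : 0 ≤ t ^ 2 * L ^ (1 / 4 : ℝ) := by positivity
    calc C3 * (t ^ 2 * L ^ (1 / 4 : ℝ)) * (X ^ 2 * NS N (m + 1)) + C3 * T ^ (-δ3)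
        = C3 * (X ^ 2 * NS N (m + 1)) * (t ^ 2 * L ^ (1 / 4 : ℝ)) + C3 * T ^ (-δ3) := by ring
      _ ≤ ε / 3 * (t ^ 2 * L ^ (1 / 4 : ℝ)) + ε / 3 * (t ^ 2 * L ^ (1 / 4 : ℝ)) := by
          refine add_le_add (mul_le_mul_of_nonneg_right e3 e6) (e4.trans ?_)
          exact le_mul_of_one_le_right hε3.le e5
      _ ≤ ε * (t ^ 2 * L ^ (1 / 4 : ℝ)) := by
          have : 0 ≤ ε / 3 * (t ^ 2 * L ^ (1 / 4 : ℝ)) := by positivity
          linarith
  · have e1 := h1 L T _ _ N (m + 1) (by linarith) (by rw [← ht]; exact hLt) (by linarith) hch1 hvn (by rw [← ht]; exact hlen1)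
    rw [← ht, ← hX] at e1
    have e2 : (∫ t in (0 : ℝ)..T, ‖riemannZeta (1 / 2 + t * Complex.I)‖ *
        ‖conj (uu (Real.exp L) (xt t)) - PP (vv L0) (yy L0 (N 0)) N (m + 1) (xt t)‖) ≤
        ∫ t in (0 : ℝ)..T, ‖riemannZeta (1 / 2 + t * Complex.I)‖ * EE (vv L0) (yy L0 (N 0)) N (m + 1) (xt t) := by
      refine intervalIntegral.integral_mono_on hT0.le ((cz.norm.mul (cu.sub cP).norm).intervalIntegrable _ _)
        ((cz.norm.mul cE).intervalIntegrable _ _) fun t _ => ?_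
      exact mul_le_mul_of_nonneg_left (hclose (xt t)) (norm_nonneg _)
    refine (mul_le_mul_of_nonneg_left e2 (by positivity)).trans (e1.trans ?_)
    have e3 : C1 * (X * NS N (m + 1)) ≤ ε / 3 :=
      (mul_le_mul (show C1 ≤ C by rw [hC]; linarith) hNS1 (by positivity) hCpos.le).trans hCη
    have e4 : C1 * T ^ (-δ1) ≤ ε / 3 :=
      (mul_le_mul_of_nonneg_right (show C1 ≤ C by rw [hC]; linarith) (by positivity)).trans t2
    calc C1 * L ^ (1 / 4 : ℝ) * (X * NS N (m + 1)) + C1 * T ^ (-δ1)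
        = C1 * (X * NS N (m + 1)) * L ^ (1 / 4 : ℝ) + C1 * T ^ (-δ1) := by ring
      _ ≤ ε / 3 * L ^ (1 / 4 : ℝ) + ε / 3 * L ^ (1 / 4 : ℝ) := by
          refine add_le_add (mul_le_mul_of_nonneg_right e3 hr0.le) (e4.trans ?_)
          exact le_mul_of_one_le_right hε3.le hr1
      _ ≤ ε * L ^ (1 / 4 : ℝ) := by
          have : 0 ≤ ε / 3 * L ^ (1 / 4 : ℝ) := by positivity
          linarith

end Pool.Agent.LibPW
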