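import Mathlib
import Pool.Agent.LibPH.A03
import Pool.Agent.LibPW.PW_19

/-! ROW 20: the third moment, full range (adapted from LibPH/A03 `third`). -/

set_option autoImplicit false

namespace Pool.Agent.LibPW

open MeasureTheory Set Filter Topology Complex
open scoped ComplexConjugate
open Pool.Agent.LibMM99 Pool.Agent.LibTG78 Pool.Agent.LibPH45 Pool.Agent.LibPH

theorem third2 : ∀ ε : ℝ, 0 < ε → ∃ A : ℝ, 3 ≤ A ∧ ∀ y T : ℝ, A ≤ y → A ≤ T →
    A * Real.log y ≤ Real.log T →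
    ‖((1 / T : ℝ) : ℂ) * (∫ t in (0:ℝ)..T, z21 t * conj (uu y (xt t))) -
      ((1 / 2 * LibZM.Aconst (3 / 2) * (Real.log T) ^ 2 *
        (Real.exp Real.eulerMascheroniConstant * Real.log y) ^ (1 / 4 : ℝ) : ℝ) : ℂ)‖ ≤
      ε * (Real.log T) ^ 2 * (Real.log y) ^ (1 / 4 : ℝ) := by
  obtain ⟨δ, C, T1, hδ, hC, hT1, hsm⟩ := smooth_moment
  obtain ⟨T2, hT2, hedge⟩ := edge3
  intro ε hε
  obtain ⟨m0, hm0⟩ : ∃ m0 : ℝ, m0 = LibZM.Aconst (3 / 2) * (Real.exp Real.eulerMascheroniConstant) ^ (1 / 4 : ℝ) := ⟨_, rfl⟩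
  have hApos : 0 ≤ LibZM.Aconst (3 / 2) := (LibZM.Aconst_pos (by norm_num)).le
  have hm0n : 0 ≤ m0 := by rw [hm0]; positivity
  obtain ⟨ε1, hε1⟩ : ∃ ε1 : ℝ, ε1 = ε / (21 * C) := ⟨_, rfl⟩
  have hε1p : 0 < ε1 := by rw [hε1]; positivity
  have hε1le : ε1 ≤ ε / 21 := by
    rw [hε1, div_le_div_iff₀ (by positivity) (by norm_num)]
    exact mul_le_mul_of_nonneg_left (by linarith) hε.le
  obtain ⟨A0, hA0, hA⟩ := phase_model2 δ hδ ε1 hε1p
  -- largeness of T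
  have hev : ∀ᶠ T : ℝ in atTop, (1 + C * (m0 + 1)) / Real.log T ≤ ε / 3 := by
    have h1 : Tendsto (fun T : ℝ => (1 + C * (m0 + 1)) / Real.log T) atTop (𝓝 0) :=
      tendsto_const_nhds.div_atTop Real.tendsto_log_atTop
    exact h1.eventually (ge_mem_nhds (by positivity : (0:ℝ) < ε / 3))
  obtain ⟨T4, hT4⟩ := eventually_atTop.1 hev
  refine ⟨max A0 (max T1 (max T2 (max T4 100))), hA0.trans (le_max_left _ _), fun y T hy hT hyT => ?_⟩
  obtain ⟨A, hAd⟩ : ∃ A, A = max A0 (max T1 (max T2 (max T4 100))) := ⟨_, rfl⟩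
  rw [← hAd] at hyT
  have hA0A : A0 ≤ A := by rw [hAd]; exact le_max_left _ _
  have hA100 : 100 ≤ A := by
    rw [hAd]
    exact (le_max_right _ _).trans ((le_max_right _ _).trans ((le_max_right _ _).trans (le_max_right _ _)))
  have hA0y : A0 ≤ y := (le_max_left _ _).trans hy
  have hA0T : A0 ≤ T := (le_max_left _ _).trans hT
  have hT' := (le_max_right _ _).trans hT
  have hTT1 : T1 ≤ T := (le_max_left _ _).trans hT'
  have hT'' := (le_max_right _ _).trans hT'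
  have hTT2 : T2 ≤ T := (le_max_left _ _).trans hT''
  have hT''' := (le_max_right _ _).trans hT''
  have hTT4 : T4 ≤ T := (le_max_left _ _).trans hT'''
  have hT100 : 100 ≤ T := (le_max_right _ _).trans hT'''
  have g1 := hT4 T hTT4
  have hTp : 0 < T := by linarith
  have hy3 : 3 ≤ y := hA0.trans hA0y
  have hyp : 0 < y := by linarith
  obtain ⟨l, hl⟩ : ∃ l : ℝ, l = Real.log T := ⟨_, rfl⟩
  obtain ⟨L, hL⟩ : ∃ L : ℝ, L = Real.log y := ⟨_, rfl⟩
  rw [← hl] at g1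
  rw [← hl, ← hL] at hyT
  have hexpL : Real.exp L = y := by rw [hL]; exact Real.exp_log hyp
  have hL1 : 1 ≤ L := by
    rw [hL, Real.le_log_iff_exp_le hyp]
    linarith [Real.exp_one_lt_three]
  have hl4 : 4 ≤ l := by
    rw [hl, Real.le_log_iff_exp_le hTp]
    have h1 : Real.exp 4 = Real.exp 1 ^ 4 := by rw [← Real.exp_nat_mul]; norm_num
    have h2 := Real.exp_one_lt_d9
    have h3 : Real.exp 1 ^ 4 ≤ 2.7182818286 ^ 4 := by
      have := Real.exp_pos 1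
      gcongr
    rw [h1]
    refine h3.trans ?_
    norm_num
    linarith
  have hlp : 0 < l := by linarith
  -- the range of y
  have h100 : 100 * L ≤ l := by
    refine (mul_le_mul_of_nonneg_right hA100 (by linarith)).trans hyT
  have h20 : 20 * L ≤ l := by linarith
  obtain ⟨Φ, hΦ', hd, hJ, _, hsec, _⟩ := hA y T hA0y hA0T (by
    rw [← hl, ← hL]
    exact (mul_le_mul_of_nonneg_right hA0A (by linarith)).trans hyT)
  obtain ⟨a, ha⟩ : ∃ a : ℝ, a = LibZM.Aconst (3 / 2) * (Real.exp Real.eulerMascheroniConstant * Real.log y) ^ (1 / 4 : ℝ) :=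
    ⟨_, rfl⟩
  obtain ⟨q, hq⟩ : ∃ q : ℝ, q = L ^ (1 / 4 : ℝ) := ⟨_, rfl⟩
  have hq1 : 1 ≤ q := by rw [hq]; exact Real.one_le_rpow hL1 (by norm_num)
  have ham : a = m0 * q := by
    rw [ha, hm0, hq, ← hL, Real.mul_rpow (Real.exp_pos _).le (by linarith)]
    ring
  have ha0 : 0 ≤ a := by rw [ham]; positivity
  have hJt : ∀ s : ℂ, ‖s‖ ≤ 1 / Real.log T → ‖Jt (Real.exp L) Φ s - a‖ ≤ 7 * (ε1 * q) := by
    intro s hs
    have hs2 : ‖s‖ ≤ 2 / Real.log T := by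
      refine hs.trans ?_
      rw [← hl]
      exact div_le_div_of_nonneg_right (by norm_num) hlp.le
    have h0 : ‖(0:ℂ)‖ ≤ 2 / Real.log T := by
      rw [norm_zero, ← hl]
      positivity
    have hn : ‖-s‖ ≤ 2 / Real.log T := by rw [norm_neg]; exact hs2
    have j1 := hJ 0 0 s h0 h0 hs2
    have j2 := hJ 0 (-s) s h0 hn hs2
    have j3 := hJ (-s) (-s) s hn hn hs2
    rw [← ha, ← hL, ← hq] at j1 j2 j3
    rw [hexpL]
    unfold Jt
    have e : 3 * JP 0 0 s y Φ - 3 * JP 0 (-s) s y Φ + JP (-s) (-s) s y Φ - (a:ℂ) =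
        3 * (JP 0 0 s y Φ - a) - 3 * (JP 0 (-s) s y Φ - a) + (JP (-s) (-s) s y Φ - a) := by ring
    rw [e]
    have h3 : ‖(3:ℂ)‖ = 3 := by norm_num
    refine (norm_add_le _ _).trans ?_
    have h4 := norm_sub_le (3 * (JP 0 0 s y Φ - a)) (3 * (JP 0 (-s) s y Φ - (a:ℂ)))
    rw [norm_mul, norm_mul, h3] at h4
    linarith
  have hmain := hsm T L Φ a (7 * (ε1 * q)) hTT1 hL1 (by rw [← hl]; exact h20) hΦ' (by rw [hexpL]; exact hd) ha0
    (by positivity) hJt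
  obtain ⟨η, hη⟩ : ∃ η : ℝ, η = (Real.log T) ^ (-20 : ℝ) := ⟨_, rfl⟩
  have hη0 : 0 < η := by rw [hη, ← hl]; exact Real.rpow_pos_of_pos hlp _
  have hη1 : η ≤ 1 := by
    rw [hη, ← hl]
    exact Real.rpow_le_one_of_one_le_of_nonpos (by linarith) (by norm_num)
  have huc : Continuous fun t : ℝ => conj (uu y (xt t)) :=
    Complex.continuous_conj.comp ((uu_cont y).1.comp continuous_xt)
  have hPc : Continuous fun t : ℝ => Φ (xt t) := hΦ'.continuous.comp continuous_xt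
  have hcmp := a03_cmp hη0 hη1 hTp huc hPc (fun t => a03_uu y (xt t))
  have hed := hedge T hTT2
  rw [← hη] at hmain hed
  -- the error integral
  have her2 : (∫ t in (0:ℝ)..(2 * T), ‖riemannZeta (1 / 2 + t * I)‖ ^ 3 * ‖conj (uu y (xt t)) - Φ (xt t)‖) ≤
      T * (ε1 * (l ^ 2 * q)) := by
    have h1 := hsec
    rw [one_div, inv_mul_le_iff₀ hTp] at h1
    rw [hl, hq, hL]
    exact h1
  have htot : ‖(∫ t in (0:ℝ)..T, z21 t * conj (uu y (xt t))) - ((a * T * (Real.log T) ^ 2 / 2 : ℝ) : ℂ)‖ ≤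
      (T * (ε1 * (l ^ 2 * q)) + T) + C * T * (Real.log T) ^ 2 * (7 * (ε1 * q) + (a + 1) / Real.log T) := by
    refine (norm_sub_le_norm_sub_add_norm_sub _ (∫ t in Ioi (0:ℝ), z21 t * Φ (xt t) * ((Wt η (t / T) : ℝ) : ℂ)) _).trans ?_
    exact add_le_add (hcmp.trans (add_le_add her2 hed)) hmain
  have hgoal : ((1 / T : ℝ) : ℂ) * (∫ t in (0:ℝ)..T, z21 t * conj (uu y (xt t))) -
      ((1 / 2 * LibZM.Aconst (3 / 2) * (Real.log T) ^ 2 *
        (Real.exp Real.eulerMascheroniConstant * Real.log y) ^ (1 / 4 : ℝ) : ℝ) : ℂ) =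
      ((1 / T : ℝ) : ℂ) * ((∫ t in (0:ℝ)..T, z21 t * conj (uu y (xt t))) - ((a * T * (Real.log T) ^ 2 / 2 : ℝ) : ℂ)) := by
    rw [mul_sub, ← Complex.ofReal_mul (1 / T), ha]
    congr 2
    field_simp
  rw [hgoal, norm_mul, Complex.norm_real, Real.norm_eq_abs, abs_of_pos (by positivity : (0:ℝ) < 1 / T)]
  refine (mul_le_mul_of_nonneg_left htot (by positivity)).trans ?_
  rw [← hl, ← hL, ← hq]
  have e1 : 1 / T * (T * (ε1 * (l ^ 2 * q)) + T + C * T * l ^ 2 * (7 * (ε1 * q) + (a + 1) / l)) =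
      ε1 * (l ^ 2 * q) + 1 + 7 * C * ε1 * (l ^ 2 * q) + C * (a + 1) * l := by
    field_simp
    ring
  rw [e1]
  have e2 : 7 * C * ε1 = ε / 3 := by
    rw [hε1]
    field_simp
    norm_num
  rw [e2]
  have hlq : 0 ≤ l ^ 2 * q := by positivity
  have e0 : ε1 * (l ^ 2 * q) ≤ ε / 21 * (l ^ 2 * q) := mul_le_mul_of_nonneg_right hε1le hlq
  have e3 : 1 + C * (a + 1) * l ≤ ε / 3 * (l ^ 2 * q) := by
    have h1 : 1 + C * (a + 1) * l ≤ (1 + C * (m0 + 1)) * (l * q) := by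
      rw [ham]
      have h2 : (1:ℝ) ≤ 1 * (l * q) := by
        rw [one_mul]
        exact one_le_mul_of_one_le_of_one_le (by linarith) hq1
      have h3 : C * (m0 * q + 1) * l ≤ C * (m0 + 1) * (l * q) := by
        have h4 : (m0 * q + 1) ≤ (m0 + 1) * q := by
          rw [add_mul, one_mul]
          linarith
        have h5 : C * (m0 * q + 1) * l ≤ C * ((m0 + 1) * q) * l := by gcongr
        linarith
      linarith
    have h6 : 1 + C * (m0 + 1) ≤ ε / 3 * l := by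
      rw [div_le_iff₀ hlp] at g1
      exact g1
    have h7 : (1 + C * (m0 + 1)) * (l * q) ≤ ε / 3 * l * (l * q) :=
      mul_le_mul_of_nonneg_right h6 (by positivity)
    calc _ ≤ _ := h1
      _ ≤ _ := h7
      _ = ε / 3 * (l ^ 2 * q) := by ring
  have e4 : ε * l ^ 2 * q = ε / 21 * (l ^ 2 * q) + ε / 3 * (l ^ 2 * q) + ε / 3 * (l ^ 2 * q) + 2 * ε / 7 * (l ^ 2 * q) := by ring
  have e5 : 0 ≤ 2 * ε / 7 * (l ^ 2 * q) := by positivity
  rw [e4]
  linarith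

end Pool.Agent.LibPW
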