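import Mathlib
import Pool.Agent.LibPH.A04
import Pool.Agent.LibPW.PW_19

/-! ROW 21: the first moment, full range (adapted from LibPH/A04 `first`). -/

set_option autoImplicit false

namespace Pool.Agent.LibPW

open MeasureTheory Set Filter Topology Complex
open scoped ComplexConjugate
open Pool.Agent.LibMM99 Pool.Agent.LibTG78 Pool.Agent.LibPH45 Pool.Agent.LibPH

theorem first2 : ∀ ε : ℝ, 0 < ε → ∃ A : ℝ, 3 ≤ A ∧ ∀ y T : ℝ, A ≤ y → A ≤ T →
    A * Real.log y ≤ Real.log T →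
    ‖((1 / T : ℝ) : ℂ) * (∫ t in (0:ℝ)..T, riemannZeta (1 / 2 + t * I) * conj (uu y (xt t))) -
      ((LibZM.Aconst (1 / 2) * (Real.exp Real.eulerMascheroniConstant * Real.log y) ^ (1 / 4 : ℝ) : ℝ) : ℂ)‖ ≤
      ε * (Real.log y) ^ (1 / 4 : ℝ) := by
  obtain ⟨C1, hC1, htw⟩ := tw_first
  intro ε hε
  obtain ⟨A1, hA1, hm⟩ := phase_model2 (1/100) (by norm_num) (ε / 3) (by positivity)
  have hev1 : ∀ᶠ T : ℝ in atTop, C1 * T ^ (-(43/100) : ℝ) < ε / 3 := by
    have h1 := (tendsto_rpow_neg_atTop (by norm_num : (0:ℝ) < 43/100)).const_mul C1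
    rw [mul_zero] at h1
    exact h1.eventually (eventually_lt_nhds (by positivity))
  have hev2 : ∀ᶠ T : ℝ in atTop, 1 ≤ Real.log T := Real.tendsto_log_atTop.eventually_ge_atTop _
  obtain ⟨A2, hA2⟩ := eventually_atTop.1 (hev1.and hev2)
  refine ⟨max A1 (max A2 3), (le_max_right _ _).trans' (le_max_right _ _), fun y T hy hT hyT => ?_⟩
  have hy1 : A1 ≤ y := (le_max_left _ _).trans hy
  have hT1 : A1 ≤ T := (le_max_left _ _).trans hT
  have hT2 : A2 ≤ T := (le_max_left _ _).trans ((le_max_right _ _).trans hT)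
  have hT3 : 3 ≤ T := (le_max_right _ _).trans ((le_max_right _ _).trans hT)
  have hy3 : 3 ≤ y := (le_max_right _ _).trans ((le_max_right _ _).trans hy)
  obtain ⟨hb1, hb2⟩ := hA2 T hT2
  have hyT' : A1 * Real.log y ≤ Real.log T := by
    refine (mul_le_mul_of_nonneg_right (le_max_left _ _) (Real.log_nonneg (by linarith))).trans hyT
  have hTp : 0 < T := by linarith
  have hyp : 0 < y := by linarith
  have hL : 1 ≤ Real.log y := by
    rw [Real.le_log_iff_exp_le hyp]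
    linarith [Real.exp_one_lt_d9]
  have hexp : Real.exp (Real.log y) = y := Real.exp_log hyp
  have hLT : 0 < Real.log T := by linarith
  obtain ⟨Φ, hP, hD, -, h2, -, h3⟩ := hm y T hy1 hT1 hyT'
  obtain ⟨S, cc, hS, hcsum, hrep⟩ := smooth_rep hP (L := Real.log y) (by rw [hexp]; exact hD)
  have hJ := J1_eq hL S cc (fun q hq => ⟨(hS q hq).1, (hS q hq).2.1, (hS q hq).2.2.2.2.1, (hS q hq).2.2.2.2.2⟩) hrep
  rw [hexp] at hJ
  -- continuity
  have hzc : Continuous fun t : ℝ => riemannZeta (1 / 2 + t * I) := D5_zeta_cont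
  have huc : Continuous fun t : ℝ => conj (uu y (xt t)) := Complex.continuous_conj.comp (a04_uu_cont hL hyp)
  have hΦc : Continuous fun t : ℝ => Φ (xt t) := hP.continuous.comp continuous_xt
  set F : ℝ → ℝ := fun t => ‖conj (uu y (xt t)) - Φ (xt t)‖ with hF
  have hFc : Continuous F := (huc.sub hΦc).norm
  have hF0 : ∀ t, 0 ≤ F t := fun t => norm_nonneg _
  -- the error
  set I2 : ℂ := ∫ t in (0:ℝ)..T, riemannZeta (1 / 2 + t * I) * (conj (uu y (xt t)) - Φ (xt t)) with hI2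
  have hI2le : ‖I2‖ ≤ T * (ε / 3 * (Real.log y) ^ (1 / 4 : ℝ)) := by
    have e1 : ‖I2‖ ≤ ∫ t in (0:ℝ)..T, ‖riemannZeta (1 / 2 + t * I)‖ * F t := by
      refine (intervalIntegral.norm_integral_le_integral_norm hTp.le).trans (le_of_eq ?_)
      apply intervalIntegral.integral_congr
      intro t _
      simp only [norm_mul, hF]
    rw [one_div, inv_mul_le_iff₀ hTp] at h3
    exact e1.trans h3
  -- the main integral
  have hic : ∀ q : ℕ × ℕ, Continuous fun t : ℝ => riemannZeta (1 / 2 + t * I) *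
      (ch (xt t) q.1 * conj (ch (xt t) q.2)) := by
    intro q
    have a1 := (continuous_ch q.1).comp continuous_xt
    have a2 := Complex.continuous_conj.comp ((continuous_ch q.2).comp continuous_xt)
    exact hzc.mul (a1.mul a2)
  have hI1 : ∫ t in (0:ℝ)..T, riemannZeta (1 / 2 + t * I) * Φ (xt t) =
      ∑ q ∈ S, cc q * ∫ t in (0:ℝ)..T, riemannZeta (1 / 2 + t * I) * (ch (xt t) q.1 * conj (ch (xt t) q.2)) := by
    have a1 : ∀ t : ℝ, riemannZeta (1 / 2 + t * I) * Φ (xt t) =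
        ∑ q ∈ S, cc q * (riemannZeta (1 / 2 + t * I) * (ch (xt t) q.1 * conj (ch (xt t) q.2))) := by
      intro t
      rw [hrep, Finset.mul_sum]
      refine Finset.sum_congr rfl fun q _ => ?_
      ring
    simp_rw [a1]
    rw [intervalIntegral.integral_finsetSum]
    · refine Finset.sum_congr rfl fun q _ => ?_
      rw [intervalIntegral.integral_const_mul]
    · intro q _
      exact (continuous_const.mul (hic q)).intervalIntegrable _ _
  have hsplit : ∫ t in (0:ℝ)..T, riemannZeta (1 / 2 + t * I) * conj (uu y (xt t)) =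
      (∑ q ∈ S, cc q * ∫ t in (0:ℝ)..T, riemannZeta (1 / 2 + t * I) * (ch (xt t) q.1 * conj (ch (xt t) q.2))) + I2 := by
    have i1 : IntervalIntegrable (fun t : ℝ => riemannZeta (1 / 2 + t * I) * Φ (xt t)) volume 0 T :=
      (hzc.mul hΦc).intervalIntegrable _ _
    have i2 : IntervalIntegrable (fun t : ℝ => riemannZeta (1 / 2 + t * I) * (conj (uu y (xt t)) - Φ (xt t))) volume 0 T :=
      (hzc.mul (huc.sub hΦc)).intervalIntegrable _ _
    rw [← hI1, hI2, ← intervalIntegral.integral_add i1 i2]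
    apply intervalIntegral.integral_congr
    intro t _
    simp only
    ring
  -- the sum
  set X : ℝ := Real.exp (1/100 * Real.log T) with hX
  have hXT : X = T ^ (1/100 : ℝ) := by
    rw [Real.rpow_def_of_pos hTp, hX]
    congr 1
    ring
  have hsum : ‖(∑ q ∈ S, cc q * ∫ t in (0:ℝ)..T, riemannZeta (1 / 2 + t * I) * (ch (xt t) q.1 * conj (ch (xt t) q.2))) -
      (T:ℂ) * ∑ q ∈ S, cc q * k1 q‖ ≤ T * (C1 * T ^ (-(43/100) : ℝ)) := by
    rw [Finset.mul_sum, ← Finset.sum_sub_distrib]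
    refine (norm_sum_le _ _).trans ?_
    have a1 : ∀ q ∈ S, ‖cc q * (∫ t in (0:ℝ)..T, riemannZeta (1 / 2 + t * I) * (ch (xt t) q.1 * conj (ch (xt t) q.2))) -
        (T:ℂ) * (cc q * k1 q)‖ ≤ ‖cc q‖ * (C1 * (X * X) ^ 3 * T ^ (1/2 : ℝ)) := by
      intro q hq
      have a2 := a04_pair hC1 htw (hS q hq).1 (hS q hq).2.1 (by linarith : (1:ℝ) ≤ T) (hS q hq).2.2.1 (hS q hq).2.2.2.1
      have a3 : cc q * (∫ t in (0:ℝ)..T, riemannZeta (1 / 2 + t * I) * (ch (xt t) q.1 * conj (ch (xt t) q.2))) -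
        (T:ℂ) * (cc q * k1 q) = cc q * ((∫ t in (0:ℝ)..T, riemannZeta (1 / 2 + t * I) *
          (ch (xt t) q.1 * conj (ch (xt t) q.2))) - (T:ℂ) * k1 (q.1, q.2)) := by
        rw [Prod.mk.eta]
        ring
      rw [a3, norm_mul]
      exact mul_le_mul_of_nonneg_left a2 (norm_nonneg _)
    refine (Finset.sum_le_sum a1).trans ?_
    rw [← Finset.sum_mul]
    have a4 : 0 ≤ C1 * (X * X) ^ 3 * T ^ (1/2 : ℝ) := by positivity
    refine (mul_le_mul_of_nonneg_right hcsum a4).trans (le_of_eq ?_)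
    rw [hXT]
    have a5 : (T ^ (1/100 : ℝ) * T ^ (1/100 : ℝ)) ^ 3 = T ^ (6/100 : ℝ) := by
      rw [← Real.rpow_add hTp, ← Real.rpow_natCast, ← Real.rpow_mul hTp.le]
      congr 1
      norm_num
    rw [a5]
    have a6 : T ^ (1/100 : ℝ) * (C1 * T ^ (6/100 : ℝ) * T ^ (1/2 : ℝ)) =
        C1 * (T ^ (1/100 : ℝ) * T ^ (6/100 : ℝ) * T ^ (1/2 : ℝ)) := by ring
    have a7 : T * (C1 * T ^ (-(43/100) : ℝ)) = C1 * (T ^ (1:ℝ) * T ^ (-(43/100) : ℝ)) := by
      rw [Real.rpow_one]; ring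
    rw [a6, a7, ← Real.rpow_add hTp, ← Real.rpow_add hTp, ← Real.rpow_add hTp]
    congr 2
    norm_num
  rw [hsplit]
  have hL4 : 1 ≤ (Real.log y) ^ (1 / 4 : ℝ) := Real.one_le_rpow hL (by norm_num)
  rw [hJ] at hsum
  generalize (∑ q ∈ S, cc q * ∫ t in (0:ℝ)..T, riemannZeta (1 / 2 + t * I) * (ch (xt t) q.1 * conj (ch (xt t) q.2))) = I1 at hsum
  have hTc : (T:ℂ) ≠ 0 := by exact_mod_cast hTp.ne'
  have b1 : ((1 / T : ℝ) : ℂ) * (I1 + I2) -
      ((LibZM.Aconst (1 / 2) * (Real.exp Real.eulerMascheroniConstant * Real.log y) ^ (1 / 4 : ℝ) : ℝ) : ℂ) =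
      ((1 / T : ℝ) : ℂ) * (I1 - (T:ℂ) * ∫ x, ZZ 0 1 y x * Φ x ∂mu) + ((1 / T : ℝ) : ℂ) * I2 +
      ((∫ x, ZZ 0 1 y x * Φ x ∂mu) -
        ((LibZM.Aconst (1 / 2) * (Real.exp Real.eulerMascheroniConstant * Real.log y) ^ (1 / 4 : ℝ) : ℝ) : ℂ)) := by
    push_cast
    field_simp
    ring
  rw [b1]
  have b2 : ‖((1 / T : ℝ) : ℂ)‖ = 1 / T := by
    rw [Complex.norm_real, Real.norm_eq_abs, abs_of_pos (by positivity)]
  have b3 : ‖((1 / T : ℝ) : ℂ) * (I1 - (T:ℂ) * ∫ x, ZZ 0 1 y x * Φ x ∂mu)‖ ≤ ε / 3 := by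
    rw [norm_mul, b2]
    have b4 : 1 / T * ‖I1 - (T:ℂ) * ∫ x, ZZ 0 1 y x * Φ x ∂mu‖ ≤ 1 / T * (T * (C1 * T ^ (-(43/100) : ℝ))) :=
      mul_le_mul_of_nonneg_left hsum (by positivity)
    have b5 : 1 / T * (T * (C1 * T ^ (-(43/100) : ℝ))) = C1 * T ^ (-(43/100) : ℝ) := by
      field_simp
    linarith
  have b6 : ‖((1 / T : ℝ) : ℂ) * I2‖ ≤ ε / 3 * (Real.log y) ^ (1 / 4 : ℝ) := by
    rw [norm_mul, b2]
    have b7 : 1 / T * ‖I2‖ ≤ 1 / T * (T * (ε / 3 * (Real.log y) ^ (1 / 4 : ℝ))) :=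
      mul_le_mul_of_nonneg_left hI2le (by positivity)
    have b8 : 1 / T * (T * (ε / 3 * (Real.log y) ^ (1 / 4 : ℝ))) = ε / 3 * (Real.log y) ^ (1 / 4 : ℝ) := by
      field_simp
    linarith
  have hfin : ε / 3 + ε / 3 * (Real.log y) ^ (1 / 4 : ℝ) + ε / 3 * (Real.log y) ^ (1 / 4 : ℝ) ≤
      ε * (Real.log y) ^ (1 / 4 : ℝ) := by
    have : ε / 3 ≤ ε / 3 * (Real.log y) ^ (1 / 4 : ℝ) := le_mul_of_one_le_right (by positivity) hL4
    linarith
  exact ((norm_add_le _ _).trans (add_le_add ((norm_add_le _ _).trans (add_le_add b3 b6)) h2)).trans hfin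

end Pool.Agent.LibPW
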